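import Pool.Agent.Lib.THU.AN.Defs

/-!
Discreteness: an integral matrix that is conjugate to a matrix near the identity is trivial.
-/

namespace Pool.Agent.Lib.THU.AN

open Matrix OnePoint Filter Topology Set Metric
open scoped Classical
open Pool.Agent.Lib.THU

namespace DISC

/-- matrices near the identity move a given point very little -/
lemma near (y : S) {U : Set S} (hU : U ∈ 𝓝 y) : ∃ ε > 0, ∀ A : GC,
    (∀ i j, ‖(A : Matrix (Fin 2) (Fin 2) ℂ) i j - (1 : Matrix (Fin 2) (Fin 2) ℂ) i j‖ < ε) →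
    A • y ∈ U := by
  cases y using OnePoint.rec with
  | infty =>
    obtain ⟨K, ⟨-, hK⟩, h⟩ := hasBasis_nhds_infty.mem_iff.1 hU
    obtain ⟨R, hR, hK⟩ := hK.isBounded.exists_pos_norm_le
    refine ⟨1 / (R + 1), by positivity, fun A hA => h ?_⟩
    rw [smul_infty_eq_ite]
    split_ifs with e
    · exact Or.inr rfl
    refine Or.inl ⟨_, fun t => ?_, rfl⟩
    have h1 := hA 0 0
    have h2 := hA 1 0
    have h3 := hK _ t
    have h4 := norm_sub_norm_le (1 : ℂ) (A 0 0)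
    rw [norm_div, div_le_iff₀ (norm_pos_iff.2 e)] at h3
    rw [norm_sub_rev, norm_one] at h4
    simp only [one_apply_eq, ne_eq, one_ne_zero, not_false_eq_true, one_apply_ne, sub_zero,
      lt_div_iff₀ (show 0 < R + 1 by positivity)] at h1 h2
    nlinarith [norm_nonneg (A 1 0), mul_le_mul_of_nonneg_right h3 hR.le]
  | coe k =>
    have c : ContinuousAt (fun M : Fin 2 → Fin 2 → ℂ => (M 0 0 * k + M 0 1) / (M 1 0 * k + M 1 1))
        (1 : Matrix (Fin 2) (Fin 2) ℂ) := ContinuousAt.div (by fun_prop) (by fun_prop) (by simp)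
    have c' : ContinuousAt (fun M : Fin 2 → Fin 2 → ℂ => M 1 0 * k + M 1 1)
        (1 : Matrix (Fin 2) (Fin 2) ℂ) := by fun_prop
    have h1 := c.preimage_mem_nhds (t := (↑) ⁻¹' U)
      (by simpa using continuous_coe.continuousAt.preimage_mem_nhds hU)
    obtain ⟨ε, hε, h⟩ := Metric.mem_nhds_iff.1 (inter_mem h1 (c'.eventually_ne (y := 0) (by simp)))
    refine ⟨ε, hε, fun A hA => ?_⟩
    obtain ⟨h2, h3⟩ := h (a := (A : Matrix (Fin 2) (Fin 2) ℂ)) ((dist_pi_lt_iff hε).2 fun i =>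
      (dist_pi_lt_iff hε).2 fun j => by rw [dist_eq_norm]; exact hA i j)
    rw [smul_some_eq_ite, if_neg h3]
    exact h2

lemma emb_pt (a b : ℤ) : emb (FA.pt a b) = if b = 0 then ∞ else (((a : ℂ) / b : ℂ) : S) := by
  unfold FA.pt emb
  split_ifs <;> simp

lemma fin_part {a b : ℤ} {z : ℂ} {r : ℝ} (h : emb (FA.pt a b) ∈ ((↑) : ℂ → S) '' ball z r) :
    b ≠ 0 ∧ ‖(a : ℂ) / b - z‖ < r := by
  rw [emb_pt] at h
  obtain ⟨w, h1, h2⟩ := h
  split_ifs at h2 with e
  · exact (coe_ne_infty _ h2).elim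
  · exact ⟨e, by rwa [← coe_eq_coe.1 h2, ← dist_eq_norm]⟩

lemma arith {a b c d : ℤ} (h : a * d - b * c = 1 ∨ a * d - b * c = -1)
    (h1 : c = 0 ∨ 2 * |c| < |a|) (h2 : 2 * |b| < |d|) : c = 0 ∧ b = 0 ∧ |a| = 1 ∧ |d| = 1 := by
  have h3 : |a * d - b * c| = 1 := by rcases h with h | h <;> simp [h]
  have h4 := abs_sub_abs_le_abs_sub (a * d) (b * c)
  rw [h3, abs_mul, abs_mul] at h4
  have hb := abs_nonneg b
  obtain rfl : c = 0 := by
    by_contra e
    have := abs_pos.2 e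
    have := h1.resolve_left e
    nlinarith [mul_nonneg hb (abs_nonneg c)]
  rw [mul_zero, sub_zero, abs_mul] at h3
  obtain ⟨h5, h6⟩ | ⟨h5, h6⟩ := Int.eq_one_or_neg_one_of_mul_eq_one' h3
  · exact ⟨rfl, abs_eq_zero.1 (by omega), h5, h6⟩
  · have := abs_nonneg a
    omega

end DISC

open DISC in
theorem stDISC : St_DISC := by
  intro J
  have key : ∀ (p : FA.P) (V : Set S), IsOpen V → emb p ∈ V → ∃ ε > 0, ∀ A : GC,
      (∀ i j, ‖(A : Matrix (Fin 2) (Fin 2) ℂ) i j - (1 : Matrix (Fin 2) (Fin 2) ℂ) i j‖ < ε) →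
      A • J (emb p) ∈ J '' V := fun p V hV hp =>
    near _ ((J.isOpenMap V hV).mem_nhds ⟨_, hp, rfl⟩)
  obtain ⟨ε₁, p1, h1⟩ := key ∞ (((↑) : ℂ → S) '' closedBall (0 : ℂ) 2)ᶜ
    (isClosed_image_coe.2 ⟨isClosed_closedBall, isCompact_closedBall _ _⟩).isOpen_compl
    infty_notMem_image_coe
  obtain ⟨ε₂, p2, h2⟩ := key ((0 : ℚ) : FA.P) (((↑) : ℂ → S) '' ball (0 : ℂ) (1 / 2))
    (isOpen_image_coe.2 isOpen_ball) ⟨0, by simp, by simp [emb]⟩
  obtain ⟨ε₃, p3, h3⟩ := key ((1 : ℚ) : FA.P) (((↑) : ℂ → S) '' ball (1 : ℂ) 1)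
    (isOpen_image_coe.2 isOpen_ball) ⟨1, by simp, by simp [emb]⟩
  refine ⟨min ε₁ (min ε₂ ε₃), by positivity, fun A B hA hB => ?_⟩
  have q1 := h1 A fun i j => (hA i j).trans_le (min_le_left _ _)
  have q2 := h2 A fun i j => (hA i j).trans_le ((min_le_right _ _).trans (min_le_left _ _))
  have q3 := h3 A fun i j => (hA i j).trans_le ((min_le_right _ _).trans (min_le_right _ _))
  rw [hB, J.injective.mem_set_image] at q1 q2 q3
  rw [FA.smul_inf, emb_pt] at q1
  rw [FA.smul_zero'] at q2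
  rw [FA.smul_eq_pt] at q3
  obtain ⟨r1, r2⟩ := fin_part q2
  obtain ⟨-, r4⟩ := fin_part q3
  obtain ⟨a1, a2, a3, a4⟩ := arith (FA.det_eq B) (by
    refine or_iff_not_imp_left.2 fun e => ?_
    rw [if_neg e] at q1
    have : ¬ ‖((B 0 0 : ℤ) : ℂ) / (B 1 0 : ℤ)‖ ≤ 2 := fun t => q1 ⟨_, by simpa using t, rfl⟩
    rw [not_le, norm_div, lt_div_iff₀ (by simpa using e), Complex.norm_intCast,
      Complex.norm_intCast] at this
    exact_mod_cast this) (by
    rw [sub_zero, norm_div, div_lt_iff₀ (by simpa using r1), Complex.norm_intCast,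
      Complex.norm_intCast] at r2
    have : 2 * |((B 0 1 : ℤ) : ℝ)| < |((B 1 1 : ℤ) : ℝ)| := by linarith
    exact_mod_cast this)
  simp only [FA.nu_coe, FA.de_coe, Rat.num_one, Rat.den_one, Nat.cast_one, mul_one, a1, a2,
    add_zero, zero_add] at r4
  rcases (abs_eq zero_le_one).1 a3 with e | e <;> rcases (abs_eq zero_le_one).1 a4 with e' | e'
  · exact Or.inl (Units.ext (by ext i j; fin_cases i <;> fin_cases j <;> simp [e, e', a1, a2]))
  · norm_num [e, e'] at r4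
  · norm_num [e, e'] at r4
  · exact Or.inr (Units.ext (by ext i j; fin_cases i <;> fin_cases j <;> simp [e, e', a1, a2]))

end Pool.Agent.Lib.THU.AN
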