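import Pool.Agent.Lib.THU.AN.Defs
import Pool.Agent.Lib.THU.EC.CPT

/-!
The energy calculus gives an instance of the interface `EI`.
-/

namespace Pool.Agent.Lib.THU.AN

open Filter Topology MeasureTheory Set Metric
open scoped ComplexConjugate NNReal ENNReal
open Pool.Agent.Lib.THU

namespace EIp

lemma dist_ec {K : ℝ} {f : ℂ → ℂ} {T : Set ℂ} (h : ∀ z ∈ T, Dist K f z) :
    EC.Dist K.toNNReal f T := fun z hz =>
  (h z hz).2.2.trans (mul_le_mul_of_nonneg_right (Real.le_coe_toNNReal K) (abs_nonneg _))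

lemma cpt (hQ : EC.St_QC) (hC : EC.St_CPT2) (K : ℝ≥0) (U : Ultrafilter ℕ) (h : ℕ → ℂ ≃ₜ ℂ)
    (x y : ℕ → ℂ) (a b a' b' : ℂ) (hq : ∀ n, EC.QC K (h n)) (tx : Tendsto x U (𝓝 a))
    (ty : Tendsto y U (𝓝 b)) (hab : a ≠ b) (ta : Tendsto (fun n => h n (x n)) U (𝓝 a'))
    (tb : Tendsto (fun n => h n (y n)) U (𝓝 b')) (hab' : a' ≠ b') :
    ∃ g : ℂ ≃ₜ ℂ, EC.QC K g ∧ TendstoLocallyUniformly (fun n => (h n : ℂ → ℂ)) g U ∧
      TendstoLocallyUniformly (fun n => ((h n).symm : ℂ → ℂ)) g.symm U := by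
  classical
  have nab : b - a ≠ 0 := sub_ne_zero.2 hab.symm
  have ev : ∀ᶠ n in (U : Filter ℕ), y n - x n ≠ 0 := (ty.sub tx).eventually_ne nab
  let d : ℕ → ℂ := fun n => if y n - x n = 0 then 1 else y n - x n
  have d0 : ∀ n, d n ≠ 0 := fun n => by
    by_cases e : y n - x n = 0 <;> simp [d, e]
  have dev : ∀ᶠ n in (U : Filter ℕ), y n - x n = d n := ev.mono fun n e => by simp [d, e]
  have td : Tendsto d U (𝓝 (b - a)) := (ty.sub tx).congr' dev
  obtain ⟨g, q, t1, t2⟩ := hC ℕ U K (fun n => (EC.CPT.aff (d n) (x n) (d0 n)).trans (h n)) a' b'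
    hab' (by simpa [EC.CPT.aff_apply] using ta)
    (tb.congr' (dev.mono fun n e => by simp [EC.CPT.aff_apply, ← e]))
    (fun n => EC.CPT.qc_left hQ (hq n) _ _ _)
  rw [EC.CPT.tlu_iff g.continuous] at t1
  rw [EC.CPT.tlu_iff g.symm.continuous] at t2
  refine ⟨(EC.CPT.aff (b - a) a nab).symm.trans g, (EC.CPT.qc_right hQ q.symm _ _ nab).symm,
    (EC.CPT.tlu_iff (Homeomorph.continuous _)).2 fun z => ?_,
    (EC.CPT.tlu_iff (Homeomorph.continuous _)).2 fun z => ?_⟩
  · have tx' := tx.comp (tendsto_fst (f := (U : Filter ℕ)) (g := 𝓝 z))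
    have td' := td.comp (tendsto_fst (f := (U : Filter ℕ)) (g := 𝓝 z))
    have t3 := (t1 ((z - a) / (b - a))).comp (tendsto_fst.prodMk
      ((tendsto_snd.sub tx').div td' nab))
    rw [Homeomorph.trans_apply, EC.CPT.aff_symm]
    refine t3.congr fun w => ?_
    have := d0 w.1
    simp only [Function.comp, Homeomorph.trans_apply, EC.CPT.aff_apply, Pi.div_apply]
    congr 1
    field_simp; ring
  · have tx' := tx.comp (tendsto_fst (f := (U : Filter ℕ)) (g := 𝓝 z))
    have td' := td.comp (tendsto_fst (f := (U : Filter ℕ)) (g := 𝓝 z))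
    rw [Homeomorph.symm_trans_apply, Homeomorph.symm_symm, EC.CPT.aff_apply]
    refine ((td'.mul (t2 z)).add tx').congr fun w => ?_
    have := d0 w.1
    simp only [Function.comp, Homeomorph.symm_trans_apply, EC.CPT.aff_symm]
    field_simp; ring

lemma wk (hQ : EC.St_QC) (hR : EC.St_R) (hA : EC.St_AE) {K : ℝ≥0} {h : ℂ ≃ₜ ℂ} (q : EC.QC K h)
    (R : ℝ) : ∃ G, EC.Wk (ball 0 R) h G ∧ ∀ᵐ z, z ∈ ball (0 : ℂ) R → HasFDerivAt h (G z) z := by
  obtain ⟨R', hR'⟩ := (((isCompact_closedBall (0 : ℂ) R).image h.continuous).isBounded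
    ).subset_ball 0
  have h1 := hQ.2.2.2.2 K h R R' q.1 fun z hz => hR' ⟨z, ball_subset_closedBall hz, rfl⟩
  obtain ⟨G, hG, -⟩ := hR _ _ _ isOpen_ball h1
    (ENNReal.mul_lt_top ENNReal.coe_lt_top measure_ball_lt_top)
  exact ⟨G, hG, hA _ h G isOpen_ball h.continuous h.isOpenMap hG⟩

lemma diff (hQ : EC.St_QC) (hR : EC.St_R) (hA : EC.St_AE) (hW : EC.St_WEYL) {K : ℝ≥0}
    {h : ℂ ≃ₜ ℂ} (q : EC.QC K h) : (∀ᵐ z : ℂ, DifferentiableAt ℝ h z) ∧
    ((∀ᵐ z : ℂ, DifferentiableAt ℂ h z) → Differentiable ℂ h) := by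
  refine ⟨?_, fun hd z₀ => ?_⟩
  · have : ∀ᵐ z : ℂ, ∀ n : ℕ, z ∈ ball (0 : ℂ) n → DifferentiableAt ℝ h z :=
      ae_all_iff.2 fun n => by
        obtain ⟨G, -, hG⟩ := wk hQ hR hA q n
        exact hG.mono fun z hz hb => (hz hb).differentiableAt
    refine this.mono fun z hz => ?_
    obtain ⟨n, hn⟩ := exists_nat_gt ‖z‖
    exact hz n (mem_ball_zero_iff.2 hn)
  · obtain ⟨G, h3, hG⟩ := wk hQ hR hA q (‖z₀‖ + 1)
    have h4 := hW _ h isOpen_ball h.continuous.continuousOn fun η hη => by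
      rw [h3.ibp η hη, h3.ibp η hη]
      have : ∀ᵐ z, η z • G z Complex.I = Complex.I * η z • G z 1 := by
        filter_upwards [hG, hd] with z h5 h6
        by_cases h0 : η z = 0
        · simp [h0]
        have h7 := (h5 (hη.sub (subset_tsupport _ h0))).unique
          (h6.hasDerivAt.hasFDerivAt.restrictScalars ℝ)
        rw [h7]
        simp
        ring
      rw [integral_congr_ae this, integral_const_mul]
      linear_combination (-∫ z, η z • G z 1) * Complex.I_mul_I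
    exact h4.differentiableAt (isOpen_ball.mem_nhds (mem_ball_zero_iff.2 (lt_add_one _)))

end EIp

open EIp in
theorem stEI (hQ : EC.St_QC) (hS : EC.St_QS) (hC : EC.St_CPT2) (hRem : EC.St_REM)
    (hL : EC.St_LINE) (hW : EC.St_WEYL) (hR : EC.St_R) (hA : EC.St_AE) (hD : St_DIST)
    (hH : St_HOL) (hM : St_REMM) : St_EI := ⟨{
  QC := fun K h => EC.QC K.toNNReal h
  Rem := EC.Rem
  mono := fun K K' h hK q => ⟨q.1.mono subset_rfl (Real.toNNReal_le_toNNReal hK),
    q.2.mono subset_rfl (Real.toNNReal_le_toNNReal hK)⟩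
  symm := fun K h q => q.symm
  cnj := fun K h q => by simpa using hQ.1 _ _ _ _ q (hQ.2.2.2.1 cjc fun z => rfl)
  c1 := fun K => ⟨K, fun h H => hQ.2.1 _ h (contDiff_iff_contDiffAt.2 fun z => (H z).1)
    (fun z => (H z).2.1) (dist_ec fun z _ => H z)⟩
  qs := fun K R => by
    obtain ⟨M, hM⟩ := hS K.toNNReal
    refine ⟨M R, fun h q x y z hy => ?_⟩
    by_cases e : x = z
    · subst e
      have : y = x := by simpa [sub_eq_zero] using hy
      simp [this]
    · exact hM h q x y z R e hy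
  cpt := fun K => ⟨K, fun U h x y a b a' b' => cpt hQ hC _ U h x y a b a' b'⟩
  hol := hH
  rem := fun K K' W q H => hRem.2.1 EC.RL K'.toNNReal K.toNNReal W hL (fun z hz => (H z hz).1)
    (dist_ec fun z hz => H z hz) q.2
  remm := hM
  qoff := fun K => ⟨K, fun h Λ r1 r2 H => by
    have H' : ∀ w ∉ h '' Λ, Dist K h.symm w := fun w hw => by
      have := hD.2.1 K h h.symm (h.symm w) (H _ fun c => hw ⟨_, c, h.apply_symm_apply w⟩)
        h.symm.continuous.continuousAt (h.symm_apply_apply _)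
        (Eventually.of_forall h.apply_symm_apply)
      rwa [h.apply_symm_apply] at this
    exact ⟨hRem.2.2.2 Λ univ _ h r1 isOpen_univ h.continuous.continuousOn h.injective.injOn
      (fun z hz => (H z hz.2).1) (dist_ec fun z hz => H z hz.2),
      hRem.2.2.2 _ univ _ h.symm r2 isOpen_univ h.symm.continuous.continuousOn
      h.symm.injective.injOn (fun z hz => (H' z hz.2).1) (dist_ec fun z hz => H' z hz.2)⟩⟩
  hoff := fun h Λ r H => differentiableOn_univ.1 (hRem.2.2.1 Λ univ h r isOpen_univ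
    h.continuous.continuousOn h.injective.injOn fun z hz => H z hz.2)
  diff := fun K h q => diff hQ hR hA hW q }⟩

end Pool.Agent.Lib.THU.AN
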