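import Pool.Agent.Lib.THU.AN.Defs

/-!
A Koebe type estimate and the bound for the trace of a Moebius map seen from a univalent map.
-/

namespace Pool.Agent.Lib.THU.AN

open Matrix OnePoint Filter Topology Set Metric
open scoped Classical

namespace END

lemma open_image {f : ℂ → ℂ} (hd : DifferentiableOn ℂ f (ball 0 1)) (hi : InjOn f (ball 0 1)) :
    IsOpen (f '' ball 0 1) := by
  refine ((hd.analyticOnNhd isOpen_ball).is_constant_or_isOpen
    (convex_ball 0 1).isPreconnected).resolve_left ?_ _ subset_rfl isOpen_ball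
  rintro ⟨w, hw⟩
  have h0 : (0 : ℂ) ∈ ball (0 : ℂ) 1 := mem_ball_self one_pos
  have h1 : (1 / 2 : ℂ) ∈ ball (0 : ℂ) 1 := by simp; norm_num
  have := hi h0 h1 ((hw _ h0).trans (hw _ h1).symm)
  norm_num at this

lemma ex_sqrt {g : ℂ → ℂ} (hd : DifferentiableOn ℂ g (ball 0 1))
    (h0 : ∀ z ∈ ball (0 : ℂ) 1, g z ≠ 0) (h1 : g 0 = 1) :
    ∃ s : ℂ → ℂ, DifferentiableOn ℂ s (ball 0 1) ∧ s 0 = 1 ∧ ∀ z, s z ^ 2 = g z := by
  have : ContractibleSpace (ball (0 : ℂ) 1) :=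
    (convex_ball 0 1).contractibleSpace (nonempty_ball.2 one_pos)
  obtain ⟨s, hc, hs⟩ := Complex.exists_continuousOn_pow_eq (U := ball (0 : ℂ) 1)
    (SimplyConnectedSpace.ofContractible _) isOpen_ball hd.continuousOn
    (fun ⟨z, hz, e⟩ => h0 z hz e) two_ne_zero
  refine ⟨fun z => s z * s 0, DifferentiableOn.mul_const (fun z hz => ?_) _,
    (sq _).symm.trans ((hs 0).trans h1), fun z => by rw [mul_pow, hs, hs, h1, mul_one]⟩
  have hz' := isOpen_ball.mem_nhds hz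
  have hne : s z ≠ 0 := fun e => h0 z hz (by rw [← hs, e]; simp)
  exact (HasDerivAt.of_comp_left (hc.continuousAt hz') (hasDerivAt_pow 2 (s z))
    (hd.differentiableAt hz').hasDerivAt (by simpa using hne)
    (Eventually.of_forall hs)).differentiableAt.differentiableWithinAt

lemma koe_norm {g : ℂ → ℂ} (hd : DifferentiableOn ℂ g (ball 0 1)) (hi : InjOn g (ball 0 1))
    (h0 : ∀ z ∈ ball (0 : ℂ) 1, g z ≠ 0) (h1 : g 0 = 1) (hb : ball 1 1 ⊆ g '' ball 0 1) :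
    ‖deriv g 0‖ ≤ 32 := by
  obtain ⟨s, s1, s2, s3⟩ := ex_sqrt hd h0 h1
  have z0 : (0 : ℂ) ∈ ball (0 : ℂ) 1 := mem_ball_self one_pos
  have si : InjOn s (ball 0 1) := fun z hz w hw e => hi hz hw (by rw [← s3, ← s3, e])
  have so := open_image s1 si
  have hdis : Disjoint (s '' ball 0 1) (-(s '' ball 0 1)) := by
    rw [Set.disjoint_left]
    rintro _ ⟨z, hz, rfl⟩ ⟨w, hw, e⟩
    obtain rfl : w = z := hi hw hz (by rw [← s3, ← s3, e, neg_sq])
    refine h0 w hw ?_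
    rw [← s3, show s w = 0 by linear_combination e / 2]
    simp
  have hsub : ball (1 : ℂ) (2 / 5) ⊆ s '' ball 0 1 := by
    refine (convex_ball 1 _).isPreconnected.subset_left_of_subset_union so so.neg hdis
      (fun y hy => ?_) ⟨1, mem_ball_self (by norm_num), 0, z0, s2⟩
    have hy2 : y ^ 2 ∈ ball (1 : ℂ) 1 := by
      rw [mem_ball_iff_norm] at hy ⊢
      have e : y ^ 2 - 1 = (y - 1) * ((y - 1) + 2) := by ring
      have h2 : ‖(y - 1) + 2‖ ≤ ‖y - 1‖ + 2 := (norm_add_le _ _).trans_eq (by simp)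
      rw [e, norm_mul]
      nlinarith [norm_nonneg (y - 1), norm_nonneg (y - 1 + 2)]
    obtain ⟨z, hz, e⟩ := hb hy2
    rcases sq_eq_sq_iff_eq_or_eq_neg.1 ((s3 z).trans e) with t | t
    exacts [Or.inl ⟨z, hz, t⟩, Or.inr ⟨z, hz, t⟩]
  have hfar : ∀ z ∈ ball (0 : ℂ) 1, 2 / 5 ≤ ‖s z + 1‖ := fun z hz => by
    by_contra h
    refine Set.disjoint_left.1 hdis (hsub (a := -s z) ?_) ⟨z, hz, (neg_neg _).symm⟩
    rw [mem_ball_iff_norm, ← norm_neg, show -(-s z - 1) = s z + 1 by ring]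
    exact not_le.1 h
  have hne : ∀ z ∈ ball (0 : ℂ) 1, s z + 1 ≠ 0 := fun z hz e => by
    have := hfar z hz
    rw [e, norm_zero] at this
    norm_num at this
  have k := Complex.norm_deriv_le_div_of_mapsTo_ball (f := fun z => (s z + 1)⁻¹) (c := 0)
    (R₁ := 1) (R₂ := 4) ((s1.add_const 1).inv hne) (fun z hz => by
      rw [mem_closedBall_iff_norm, s2]
      have h2 : ‖(s z + 1)⁻¹‖ ≤ (2 / 5)⁻¹ := by
        rw [norm_inv]; exact inv_anti₀ (by norm_num) (hfar z hz)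
      have h3 : ‖((1 : ℂ) + 1)⁻¹‖ = 1 / 2 := by rw [one_add_one_eq_two]; simp
      linarith [norm_sub_le (s z + 1)⁻¹ ((1 : ℂ) + 1)⁻¹]) one_pos
  have d1 := (s1.differentiableAt (isOpen_ball.mem_nhds z0)).hasDerivAt
  have d2 : deriv (fun z => (s z + 1)⁻¹) 0 = -deriv s 0 / 4 := by
    rw [((d1.add_const 1).fun_inv (hne 0 z0)).deriv, s2]; norm_num
  have d3 : deriv g 0 = 2 * deriv s 0 := by
    rw [← funext s3, (d1.fun_pow 2).deriv, s2]; norm_num
  rw [d2, norm_div, norm_neg] at k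
  rw [d3, norm_mul]
  norm_num at k ⊢
  linarith

end END

theorem stKOE : St_KOE := by
  refine ⟨32, fun V a hd hi ha => ?_⟩
  have z0 : (0 : ℂ) ∈ ball (0 : ℂ) 1 := mem_ball_self one_pos
  have ha' : a ∈ (V '' ball 0 1)ᶜ := fun ⟨z, hz, e⟩ => ha z hz e
  obtain ⟨q, hq, e⟩ := (END.open_image hd hi).isClosed_compl.exists_infDist_eq_dist ⟨a, ha'⟩ (V 0)
  have hq' : ∀ z ∈ ball (0 : ℂ) 1, V z - q ≠ 0 := fun z hz t => hq ⟨z, hz, sub_eq_zero.1 t⟩
  have h0 := hq' 0 z0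
  have k := END.koe_norm (g := fun z => (V z - q) / (V 0 - q)) ((hd.sub_const q).div_const _)
    (fun z hz w hw t => hi hz hw (sub_left_injective ((div_left_inj' h0).1 t)))
    (fun z hz => div_ne_zero (hq' z hz) h0) (div_self h0) fun y hy => by
      have h1 : q + y * (V 0 - q) ∈ ball (V 0) (infDist (V 0) (V '' ball 0 1)ᶜ) := by
        rw [e, dist_eq_norm, mem_ball_iff_norm,
          show q + y * (V 0 - q) - V 0 = (y - 1) * (V 0 - q) by ring, norm_mul]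
        exact mul_lt_of_lt_one_left (norm_pos_iff.2 h0) (mem_ball_iff_norm.1 hy)
      obtain ⟨z, hz, t⟩ := not_not.1 (ball_infDist_subset_compl h1)
      exact ⟨z, hz, by simp only [t]; field_simp; ring⟩
  rw [deriv_div_const, deriv_sub_const, norm_div, div_le_iff₀ (norm_pos_iff.2 h0)] at k
  have h2 := infDist_le_dist_of_mem (x := V 0) ha'
  rw [e, dist_eq_norm, dist_eq_norm] at h2
  linarith

namespace END

lemma isOpen_Hs : IsOpen (Hs 1) := isOpen_lt continuous_const (by fun_prop)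

lemma deriv_le {c : ℝ} (hc : ∀ (V : ℂ → ℂ) (a : ℂ), DifferentiableOn ℂ V (ball 0 1) →
    InjOn V (ball 0 1) → (∀ z ∈ ball (0 : ℂ) 1, V z ≠ a) → ‖deriv V 0‖ ≤ c * ‖V 0 - a‖)
    {V : ℂ → ℂ} {a : ℂ} (hd : DifferentiableOn ℂ V (Hs 1)) (hi : InjOn V (Hs 1))
    (ha : ∀ z ∈ Hs 1, V z ≠ a) {z : ℂ} (hz : z ∈ Hs 1) :
    ‖deriv V z‖ * z.im ≤ |c| * ‖V z - a‖ := by
  have hp : 0 < z.im := by simpa [Hs] using hz
  have hm : MapsTo (fun w : ℂ => z + w * z.im) (ball 0 1) (Hs 1) := fun w hw => by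
    have h1 := (Complex.abs_im_le_norm w).trans_lt (mem_ball_zero_iff.1 hw)
    have h2 := (abs_lt.1 h1).1
    simp only [Hs, mem_ofPred_eq, Complex.add_im, Complex.mul_im, Complex.ofReal_re,
      Complex.ofReal_im]
    nlinarith
  have k := hc (V ∘ fun w : ℂ => z + w * z.im) a (hd.comp (by fun_prop) hm)
    (hi.comp (fun w _ w' _ e => mul_right_cancel₀ (Complex.ofReal_ne_zero.2 hp.ne')
      (add_left_cancel e)) hm) fun w hw => ha _ (hm hw)
  have d1 : HasDerivAt V (deriv V z) (z + 0 * z.im) := by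
    simpa using (hd.differentiableAt (isOpen_Hs.mem_nhds hz)).hasDerivAt
  have d2 := d1.comp (0 : ℂ) ((hasDerivAt_mul_const (z.im : ℂ)).const_add z)
  rw [d2.deriv, norm_mul, Complex.norm_real, Real.norm_of_nonneg hp.le] at k
  simp only [Function.comp, zero_mul, add_zero] at k
  exact k.trans (mul_le_mul_of_nonneg_right (le_abs_self c) (norm_nonneg _))

lemma ratio (hK : St_KOE) {z₀ z₁ : ℂ} (h0 : z₀ ∈ Hs 1) (h1 : z₁ ∈ Hs 1) : ∃ E : ℝ, 0 < E ∧
    ∀ (V : ℂ → ℂ) (a : ℂ), DifferentiableOn ℂ V (Hs 1) → InjOn V (Hs 1) →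
      (∀ z ∈ Hs 1, V z ≠ a) → ‖V z₁ - a‖ ≤ E * ‖V z₀ - a‖ := by
  obtain ⟨c, hc⟩ := hK
  have p0 : 0 < z₀.im := by simpa [Hs] using h0
  have p1 : 0 < z₁.im := by simpa [Hs] using h1
  have pm := lt_min p0 p1
  refine ⟨Real.exp (|c| * ‖z₁ - z₀‖ / min z₀.im z₁.im), Real.exp_pos _, fun V a hd hi ha => ?_⟩
  have him : ∀ t ∈ Icc (0 : ℝ) 1, min z₀.im z₁.im ≤ (z₀ + t * (z₁ - z₀)).im := fun t ht => by
    simp only [Complex.add_im, Complex.mul_im, Complex.ofReal_re, Complex.ofReal_im,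
      Complex.sub_im]
    nlinarith [min_le_left z₀.im z₁.im, min_le_right z₀.im z₁.im, ht.1, ht.2]
  have hm : ∀ t ∈ Icc (0 : ℝ) 1, z₀ + t * (z₁ - z₀) ∈ Hs 1 := fun t ht => by
    simpa only [Hs, mem_ofPred_eq, one_mul] using pm.trans_le (him t ht)
  have hder : ∀ t ∈ Icc (0 : ℝ) 1, HasDerivAt (fun t : ℝ => V (z₀ + t * (z₁ - z₀)) - a)
      (deriv V (z₀ + t * (z₁ - z₀)) * (z₁ - z₀)) t := fun t ht =>
    (((hd.differentiableAt (isOpen_Hs.mem_nhds (hm t ht))).hasDerivAt.comp (t : ℂ)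
      ((hasDerivAt_mul_const (z₁ - z₀)).const_add z₀)).sub_const a).comp_ofReal
  have k := norm_le_gronwallBound_of_norm_deriv_right_le
    (K := |c| * ‖z₁ - z₀‖ / min z₀.im z₁.im) (ε := 0)
    (fun t ht => (hder t ht).continuousAt.continuousWithinAt)
    (fun t ht => (hder t (Ico_subset_Icc_self ht)).hasDerivWithinAt) le_rfl (fun t ht => by
      have ht' := Ico_subset_Icc_self ht
      have k1 := deriv_le hc hd hi ha (hm t ht')
      have k2 := mul_le_mul_of_nonneg_left (him t ht') (norm_nonneg (deriv V (z₀ + t * (z₁ - z₀))))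
      rw [add_zero, norm_mul, div_mul_eq_mul_div, le_div_iff₀ pm]
      nlinarith [norm_nonneg (z₁ - z₀)]) 1 (right_mem_Icc.2 zero_le_one)
  rw [gronwallBound_ε0] at k
  simpa [mul_comm] using k

end END

theorem stEND (hK : St_KOE) : St_END := by
  intro z₀ z₁ h0 h1
  obtain ⟨E, e0, hE⟩ := END.ratio hK h0 h1
  obtain ⟨E', e0', hE'⟩ := END.ratio hK h1 h0
  refine ⟨2 + E + E' + 2 * (E * E'), fun V A hd hi hdet hA hfix => ?_⟩
  have e1 := mul_pos e0 e0'
  rw [det_fin_two] at hdet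
  rw [trace_fin_two]
  rw [smul_some_eq_ite] at hA
  simp only [smul_some_eq_ite] at hfix
  change A 0 0 * A 1 1 - A 0 1 * A 1 0 = 1 at hdet
  change ‖A 0 0 + A 1 1‖ ≤ _
  generalize A 0 0 = a, A 0 1 = b, A 1 0 = c, A 1 1 = d at *
  have hj : c * V z₀ + d ≠ 0 := fun e => by simp [e] at hA
  rw [if_neg hj, coe_eq_coe, div_eq_iff hj] at hA
  have key : ∀ l p : ℂ, l ≠ 0 → c * p + d = l → a * p + b = l * p →
      ‖(c * V z₀ + d) * l‖ ≤ E' ∧ 1 ≤ E * ‖(c * V z₀ + d) * l‖ := fun l p l0 l1 l2 => by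
    have ha : ∀ z ∈ Hs 1, V z ≠ p := fun z hz e => hfix z hz (by
      rw [e, l1, l2, if_neg l0, mul_div_cancel_left₀ _ l0])
    have k1 := hE V p hd hi ha
    have k2 := hE' V p hd hi ha
    have k3 : V z₀ - p = (c * V z₀ + d) * l * (V z₁ - p) := by
      subst l1
      linear_combination (c * p + d) * hA - (c * V z₀ + d) * l2 - (V z₀ - p) * hdet
    have k4 := norm_pos_iff.2 (sub_ne_zero.2 (ha z₁ h1))
    rw [k3, norm_mul] at k1 k2
    exact ⟨le_of_mul_le_mul_right k2 k4, le_of_mul_le_mul_right (by linarith) k4⟩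
  have sq : ∀ x : ℝ, x ≤ 1 + x * x := fun x => by nlinarith
  by_cases hc : c = 0
  · subst hc
    rw [mul_zero, sub_zero] at hdet
    have n1 : ‖a‖ * ‖d‖ = 1 := by rw [← norm_mul, hdet, norm_one]
    refine (norm_add_le _ _).trans ?_
    by_cases had : d - a = 0
    · rw [sub_eq_zero.1 had] at n1 ⊢
      nlinarith [norm_nonneg a]
    obtain ⟨k1, k2⟩ := key d (b / (d - a)) (right_ne_zero_of_mul_eq_one hdet) (by simp)
      (by field_simp; ring)
    rw [zero_mul, zero_add, norm_mul] at k1 k2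
    have k3 : ‖a‖ * ‖a‖ ≤ E := by
      have := mul_le_mul_of_nonneg_left k2 (mul_nonneg (norm_nonneg a) (norm_nonneg a))
      calc ‖a‖ * ‖a‖ ≤ E * (‖a‖ * ‖d‖ * (‖a‖ * ‖d‖)) := by linarith
        _ = E := by rw [n1]; ring
    linarith [sq ‖a‖, sq ‖d‖]
  · obtain ⟨w, hw⟩ := IsAlgClosed.exists_pow_nat_eq ((a + d) ^ 2 - 4) two_pos
    have fx : ∀ l l' : ℂ, l * l' = 1 → l + l' = a + d →
        ‖(c * V z₀ + d) * l‖ ≤ E' ∧ 1 ≤ E * ‖(c * V z₀ + d) * l‖ := fun l l' t1 t2 =>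
      key l ((l - d) / c) (left_ne_zero_of_mul_eq_one t1) (by field_simp; ring) (by
        field_simp
        linear_combination t1 - hdet - l * t2)
    have bd : ∀ l l' : ℂ, l * l' = 1 → l + l' = a + d → ‖l‖ ≤ 1 + E * E' := fun l l' t1 t2 => by
      have k1 := (fx l l' t1 t2).1
      have k2 := (fx l' l ((mul_comm _ _).trans t1) ((add_comm _ _).trans t2)).2
      have n1 : ‖l‖ * ‖l'‖ = 1 := by rw [← norm_mul, t1, norm_one]
      rw [norm_mul] at k1 k2
      have k3 := mul_le_mul_of_nonneg_left k2 (mul_nonneg (norm_nonneg l) (norm_nonneg l))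
      have k4 := mul_le_mul_of_nonneg_left k1 e0.le
      have k5 : ‖l‖ * ‖l‖ ≤ E * E' :=
        calc ‖l‖ * ‖l‖ ≤ E * (‖c * V z₀ + d‖ * ‖l‖) * (‖l‖ * ‖l'‖) := by linarith
          _ ≤ E * E' := by rw [n1, mul_one]; exact k4
      linarith [sq ‖l‖]
    have t1 : (a + d + w) / 2 * ((a + d - w) / 2) = 1 := by linear_combination -hw / 4
    have t2 : (a + d + w) / 2 + (a + d - w) / 2 = a + d := by ring
    have k1 := bd _ _ t1 t2
    have k2 := bd _ _ ((mul_comm _ _).trans t1) ((add_comm _ _).trans t2)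
    have k3 := norm_add_le ((a + d + w) / 2) ((a + d - w) / 2)
    rw [t2] at k3
    linarith

end Pool.Agent.Lib.THU.AN
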