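import Pool.Agent.Lib.THU.AN.Defs

/-!
Gluing two maps of the sphere along a welding curve.
-/

namespace Pool.Agent.Lib.THU.AN

open Matrix OnePoint Filter Topology Set
open scoped Classical ComplexConjugate

namespace GLUE

@[simp] lemma ext_coe (h : ℂ ≃ₜ ℂ) (z : ℂ) : ext h z = (h z : ℂ) := rfl

@[simp] lemma ext_inf (h : ℂ ≃ₜ ℂ) : ext h ∞ = ∞ := rfl

lemma ext_symm (h : ℂ ≃ₜ ℂ) : (ext h).symm = ext h.symm := rfl

lemma fn_eq {Θ : S → S} {z w : ℂ} (h : Θ z = w) : fn Θ z = w := by simp [fn, h]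

lemma coe_fn {Θ : S → S} {z : ℂ} (h : Θ z ≠ ∞) : ((fn Θ z : ℂ) : S) = Θ z := by
  obtain ⟨w, hw⟩ := ne_infty_iff_exists.1 h
  rw [fn_eq hw.symm, hw]

/-- a homeomorphism of the sphere that fixes infinity comes from the plane -/
lemma restr (Θ : S ≃ₜ S) (h : Θ ∞ = ∞) : ∃ g : ℂ ≃ₜ ℂ, ∀ x, Θ x = ext g x := by
  have key : ∀ Θ : S ≃ₜ S, Θ ∞ = ∞ →
      (∀ z : ℂ, ((fn Θ z : ℂ) : S) = Θ z) ∧ Continuous (fn Θ) := fun Θ h => by
    have a : ∀ z : ℂ, ((fn Θ z : ℂ) : S) = Θ z := fun z =>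
      coe_fn fun e => coe_ne_infty z (Θ.injective (e.trans h.symm))
    exact ⟨a, isOpenEmbedding_coe.isEmbedding.continuous_iff.2
      ((Θ.continuous.comp continuous_coe).congr fun z => (a z).symm)⟩
  obtain ⟨a, b⟩ := key Θ h
  obtain ⟨a', b'⟩ := key Θ.symm (Θ.symm_apply_eq.2 h.symm)
  refine ⟨⟨⟨fn Θ, fn Θ.symm, fun z => fn_eq (by rw [a, Θ.symm_apply_apply]),
    fun z => fn_eq (by rw [a', Θ.apply_symm_apply])⟩, b, b'⟩, fun x => ?_⟩
  induction x using OnePoint.rec with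
  | infty => exact h
  | coe z => exact (a z).symm

/-- a Moebius map as a homeomorphism -/
noncomputable def mob (hM : St_MOB) (A : GC) : S ≃ₜ S := ⟨MulAction.toPerm A, hM A, hM A⁻¹⟩

lemma aff {a : ℂ} (ha : a ≠ 0) (b : ℂ) :
    ∃ M : GC, M • (∞ : S) = ∞ ∧ ∀ z : ℂ, M • (z : S) = (a * z + b : ℂ) :=
  ⟨.mkOfDetNeZero !![a, b; 0, 1] (by simpa using ha), by simp [smul_infty_eq_ite],
    fun z => by simp [smul_some_eq_ite]⟩

/-- a half plane on the sphere -/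
def HS (s : ℝ) : Set S := {x | ∃ z ∈ Hs s, x = (z : S)}

lemma open_Hs (s : ℝ) : IsOpen (Hs s) := isOpen_lt continuous_const (by fun_prop)

lemma open_HS (s : ℝ) : IsOpen (HS s) := by
  have : HS s = (↑) '' Hs s := by ext; simp [HS, eq_comm]
  rw [this]; exact isOpen_image_coe.2 (open_Hs s)

lemma coe_HS {s : ℝ} {z : ℂ} : (z : S) ∈ HS s ↔ z ∈ Hs s := by simp [HS]

lemma mem_RR {x : S} : x ∈ RR ↔ x ∉ HS 1 ∧ x ∉ HS (-1) := by
  induction x using OnePoint.rec with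
  | infty => simp [RR, HS]
  | coe z =>
    simp only [RR, coe_HS, Hs, mem_ofPred_eq, coe_ne_infty, false_or, coe_eq_coe]
    exact ⟨by rintro ⟨r, rfl⟩; simp, fun h => ⟨z.re, Complex.ext rfl (by
      simp only [Complex.ofReal_im]; linarith [not_lt.1 h.1, not_lt.1 h.2])⟩⟩

lemma disj {x : S} (h : x ∈ HS 1) : x ∉ HS (-1) := by
  rintro ⟨z, hz, rfl⟩
  have := coe_HS.1 h
  simp only [Hs, mem_ofPred_eq] at *
  linarith

lemma glue (Ψ Φ : S ≃ₜ S) (h1 : ∀ x, Ψ x ∈ HS 1 ↔ x ∈ HS 1) (h2 : ∀ x, Φ x ∈ HS 1 ↔ x ∈ HS 1)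
    (h : ∀ x ∈ RR, Ψ x = Φ x) :
    ∃ Ξ : S ≃ₜ S, (∀ x ∈ HS 1, Ξ x = Φ x) ∧ ∀ x ∉ HS 1, Ξ x = Ψ x := by
  let e : S ≃ S := ⟨fun x => if x ∈ HS 1 then Φ x else Ψ x,
    fun x => if x ∈ HS 1 then Φ.symm x else Ψ.symm x,
    fun x => by by_cases hx : x ∈ HS 1 <;> simp [hx, h1, h2],
    fun x => by
      have a := h1 (Ψ.symm x)
      have b := h2 (Φ.symm x)
      by_cases hx : x ∈ HS 1 <;> simp_all⟩
  have c : Continuous e := Continuous.if (fun a ha => (h a (mem_RR.2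
    ⟨fun t => ((open_HS 1).inter_frontier_eq.subset ⟨t, ha⟩ :), fun t => by
      obtain ⟨y, y1, y2⟩ := mem_closure_iff.1 ha.1 _ (open_HS (-1)) t
      exact disj y2 y1⟩)).symm) Φ.continuous Ψ.continuous
  exact ⟨c.homeoOfEquivCompactToT2, fun x hx => if_pos hx, fun x hx => if_neg hx⟩

/-- conformal germs -/
def Cf (f : ℂ → ℂ) (z : ℂ) : Prop := DifferentiableAt ℂ f z ∧ Dist 1 f z

/-- properties of germs that are stable under conformal changes -/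
structure Stab (p : (ℂ → ℂ) → ℂ → Prop) : Prop where
  pre : ∀ f g z, Cf f z → p g (f z) → p (g ∘ f) z
  post : ∀ f g z, p f z → Cf g (f z) → p (g ∘ f) z
  congr : ∀ f g z, p f z → f =ᶠ[𝓝 z] g → p g z

lemma stab_dist (hD : St_DIST) (K : ℝ) : Stab (Dist K) :=
  ⟨fun f g z a b => one_mul K ▸ hD.1 _ _ f g z zero_le_one
      (zero_le_one.trans (hD.2.2.2.2.2.2 _ _ _ b)) a.2 b,
    fun f g z a b => mul_one K ▸ hD.1 _ _ f g z (zero_le_one.trans (hD.2.2.2.2.2.2 _ _ _ a))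
      zero_le_one a b.2,
    fun f g z a b => hD.2.2.2.2.2.1 _ _ f g z le_rfl a b⟩

lemma stab_hol : Stab (DifferentiableAt ℂ) :=
  ⟨fun _ _ z a b => b.comp z a.1, fun _ _ z a b => b.1.comp z a,
    fun _ _ _ a b => a.congr_of_eventuallyEq b.symm⟩

lemma stab_anti : Stab fun f z => DifferentiableAt ℂ (fun w => conj (f w)) z :=
  ⟨fun _ _ z a b => b.comp z a.1, fun _ _ z a b => by
      simpa [Function.comp_def] using b.1.conj_conj.comp z a,
    fun _ _ _ a b => a.congr_of_eventuallyEq (b.symm.mono fun _ h => congrArg conj h)⟩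

/-- the germ of `Θ` at the finite point `x` is finite and has the property `p` -/
def Loc (p : (ℂ → ℂ) → ℂ → Prop) (Θ : S → S) (x : S) : Prop :=
  ∃ z : ℂ, x = z ∧ Θ x ≠ ∞ ∧ ContinuousAt Θ x ∧ p (fn Θ) z

lemma Loc.comp {p q r : (ℂ → ℂ) → ℂ → Prop} (hr : Stab r)
    (H : ∀ f g z, p f z → q g (f z) → r (g ∘ f) z) {Θ Θ' : S → S} {x : S} (h : Loc p Θ x)
    (h' : Loc q Θ' (Θ x)) : Loc r (Θ' ∘ Θ) x := by
  obtain ⟨z, rfl, a, b, c⟩ := h
  obtain ⟨w, hw, a', b', c'⟩ := h'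
  refine ⟨z, rfl, a', b'.comp b, hr.congr _ _ _ (H _ _ z c (by rwa [fn_eq hw])) ?_⟩
  filter_upwards [(b.comp continuous_coe.continuousAt).eventually_ne a] with u hu
  simp only [Function.comp, fn] at hu ⊢
  rw [show (((Θ u).elim 0 id : ℂ) : S) = Θ u from coe_fn hu]

lemma Loc.congr {p : (ℂ → ℂ) → ℂ → Prop} (hp : Stab p) {Θ Θ' : S → S} {x : S} (h : Loc p Θ x)
    (e : Θ =ᶠ[𝓝 x] Θ') : Loc p Θ' x := by
  obtain ⟨z, rfl, a, b, c⟩ := h
  refine ⟨z, rfl, e.eq_of_nhds ▸ a, b.congr e, hp.congr _ _ _ c ?_⟩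
  filter_upwards [continuous_coe.continuousAt.eventually e] with u hu
  simp only [fn, hu]

lemma loc_ext {p : (ℂ → ℂ) → ℂ → Prop} {h : ℂ ≃ₜ ℂ} {z : ℂ} (H : p h z) : Loc p (ext h) z :=
  ⟨z, rfl, coe_ne_infty _, (ext h).continuous.continuousAt, H⟩

lemma loc_mob (hM : St_MOB) (hD : St_DIST) {A : GC} {z : ℂ} (h : A • (z : S) ≠ ∞) :
    Loc Cf (fun x => A • x) z := by
  have o : IsOpen {w : ℂ | A • (w : S) ≠ ∞} := isOpen_ne.preimage ((hM A).comp continuous_coe)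
  have d : DifferentiableOn ℂ (fn fun x => A • x) {w : ℂ | A • (w : S) ≠ ∞} := by
    have n : ∀ w : ℂ, A • (w : S) ≠ ∞ → A 1 0 * w + A 1 1 ≠ 0 := fun w hw e =>
      hw (by rw [smul_some_eq_ite, if_pos e])
    refine DifferentiableOn.congr (f := fun w => (A 0 0 * w + A 0 1) / (A 1 0 * w + A 1 1))
      (DifferentiableOn.div (by fun_prop) (by fun_prop) n) fun w hw => fn_eq ?_
    rw [smul_some_eq_ite, if_neg (n w hw)]
  exact ⟨z, rfl, h, (hM A).continuousAt, d.differentiableAt (o.mem_nhds h),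
    (hD.2.2.1 _ _ o d (fun u hu w hw e => coe_injective (MulAction.injective A
      ((coe_fn (Θ := fun x => A • x) hu).symm.trans (e ▸ coe_fn (Θ := fun x => A • x) hw)))) z h).2⟩

lemma cf_of (hD : St_DIST) {V : ℂ ≃ₜ ℂ} {s : ℝ} (hV : DifferentiableOn ℂ V (Hs s)) {z : ℂ}
    (hz : z ∈ Hs s) : Cf V z ∧ Cf V.symm (V z) := by
  obtain ⟨a, b⟩ := hD.2.2.1 _ _ (open_Hs s) hV V.injective.injOn z hz
  have n := (open_Hs s).mem_nhds hz
  exact ⟨⟨hV.differentiableAt n, b⟩,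
    hD.2.2.2.1 V _ z (hV.eventually_differentiableAt n) a V.symm.continuous.continuousAt
      (V.symm_apply_apply z) (.of_forall V.apply_symm_apply),
    hD.2.1 _ V _ z b V.symm.continuous.continuousAt (V.symm_apply_apply z)
      (.of_forall V.apply_symm_apply)⟩

lemma side (hD : St_DIST) {p : (ℂ → ℂ) → ℂ → Prop} (hp : Stab p) {V : ℂ ≃ₜ ℂ} {s : ℝ}
    (hV : DifferentiableOn ℂ V (Hs s)) {Φ : S ≃ₜ S} (hk : Keeps s Φ)
    (hΦ : ∀ z ∈ Hs s, p (fn Φ) z) {Θ : S → S} (e : ∀ z ∈ Hs s, Θ (ext V z) = ext V (Φ z))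
    {z : ℂ} (hz : z ∈ Hs s) : Loc p Θ (ext V z) := by
  obtain ⟨w, hw, ew⟩ := (hk z).2 ⟨z, hz, rfl⟩
  have l1 : Loc Cf (ext V.symm) (ext V z) := loc_ext (cf_of hD hV hz).2
  have e1 : ext V.symm (ext V z) = z := (ext V).symm_apply_apply _
  have l2 : Loc p Φ (ext V.symm (ext V z)) :=
    ⟨z, e1, by rw [e1, ew]; exact coe_ne_infty w, Φ.continuous.continuousAt, hΦ z hz⟩
  have l3 : Loc Cf (ext V) ((Φ ∘ ext V.symm) (ext V z)) := by
    rw [Function.comp, e1, ew]; exact loc_ext (cf_of hD hV hw).1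
  refine ((l1.comp hp hp.pre l2).comp hp hp.post l3).congr hp ?_
  filter_upwards [(ext V).isOpenMap.image_mem_nhds ((open_HS s).mem_nhds (coe_HS.2 hz))]
  rintro _ ⟨_, ⟨u, hu, rfl⟩, rfl⟩
  rw [e u hu, Function.comp, Function.comp, ← ext_symm, Homeomorph.symm_apply_apply]

end GLUE

open GLUE in
theorem stGLUE (hM : St_MOB) (hD : St_DIST) (hA : St_AFF) (hV : St_VEC) : St_GLUE := by
  intro E K
  obtain ⟨K', hK'⟩ := E.qoff K
  refine ⟨K', fun e W w Ψ Φ hΨ hΦ hR => ?_⟩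
  have ke : ∀ s, s = 1 ∨ s = -1 → ∀ x, ext e x ∈ HS s ↔ x ∈ HS s := fun s hs x => by
    induction x using OnePoint.rec with
    | infty => rfl
    | coe z => rw [ext_coe, coe_HS, coe_HS, w.keep s hs]
  have kΦ : ∀ s, s = 1 ∨ s = -1 → Keeps s Φ → ∀ x, (ext e).symm (Φ (ext e x)) ∈ HS s ↔ x ∈ HS s :=
    fun s hs k x => by rw [← ke s hs, Homeomorph.apply_symm_apply, ← ke s hs x]; exact k _
  obtain ⟨Ξ, up, lo⟩ := glue Ψ ((ext e).trans (Φ.trans (ext e).symm)) hΨ.1 (kΦ 1 (.inl rfl) hΦ.1)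
    fun x hx => ((ext e).symm_apply_eq.2 (hR x hx).symm).symm
  have kR : ∀ x, Ξ x ∈ RR ↔ x ∈ RR := fun x => by
    rw [mem_RR, mem_RR]
    by_cases hx : x ∈ HS 1
    · rw [up x hx]; exact iff_of_false (fun t => t.1 ((kΦ 1 (.inl rfl) hΦ.1 x).2 hx)) fun t => t.1 hx
    · rw [lo x hx]; exact and_congr (hΨ.1 x).not (hΨ.2.1 x).not
  set Θ := (ext W).symm.trans (Ξ.trans (ext W))
  have tΘ : ∀ x, Θ (ext W x) = ext W (Ξ x) := fun x => by simp [Θ]
  have t1 : ∀ x : S, (x ∈ RR ∨ ∃ z ∈ Hs (-1), x = (z : S)) → Θ (ext W x) = ext W (Ψ x) :=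
    fun x hx => by rw [tΘ, lo x (hx.elim (fun h => (mem_RR.1 h).1) fun h t => disj t h)]
  have t2 : ∀ z ∈ Hs 1, Θ (ext W ((ext e).symm (z : S))) = ext W ((ext e).symm (Φ z)) :=
    fun z hz => by
      rw [tΘ, up _ (by rw [← ke 1 (.inl rfl), Homeomorph.apply_symm_apply]; exact coe_HS.2 hz)]
      simp
  have hup : DifferentiableOn ℂ (e.symm.trans W) (Hs 1) := w.up
  have eV : ∀ x, ext (e.symm.trans W) x = ext W ((ext e).symm x) := fun x => by cases x <;> rfl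
  set L := W '' {z | z.im = 0}
  have iL : ∀ x, (ext W x = ∞ ∨ ∃ u ∈ L, ext W x = (u : S)) ↔ x ∈ RR := fun x => by
    induction x using OnePoint.rec with
    | infty => simp [RR]
    | coe z =>
      simp only [ext_coe, coe_ne_infty, false_or, coe_eq_coe, exists_eq_right', L,
        W.injective.mem_set_image, RR, mem_ofPred_eq]
      exact ⟨fun h => ⟨z.re, Complex.ext rfl h⟩, by rintro ⟨r, rfl⟩; rfl⟩
  have rL : E.Rem L := by
    obtain ⟨K1, h1⟩ := w.qc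
    obtain ⟨K2, h2⟩ := w.dist
    refine E.rem K1 (max K2 1) W h1 fun z hz => ?_
    rcases hz.lt_or_gt with h | h
    · exact hD.2.2.2.2.2.1 _ _ _ _ _ (le_max_right _ _)
        (cf_of hD w.lo (by simpa [Hs] using h)).1.2 .rfl
    · have hz : z ∈ Hs 1 := by simpa [Hs] using h
      exact hD.2.2.2.2.2.1 _ _ _ _ _ (le_max_left _ _) ((stab_dist hD K2).post _ _ z (h2 z hz)
        (cf_of hD hup ((w.keep 1 (.inl rfl) z).2 hz)).1) (.of_forall fun u => by simp)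
  have main : ∀ A B : GC, B • Θ (A • (∞ : S)) = ∞ → ∃ (h : ℂ ≃ₜ ℂ) (Λ : Set ℂ), E.Rem Λ ∧
      E.Rem (h '' Λ) ∧ (∀ x : S, B • Θ (A • x) = ext h x) ∧ ∀ p, Stab p →
      (∀ z ∈ Hs (-1), p (fn Ψ) z) → (∀ z ∈ Hs 1, p (fn Φ) z) → ∀ z ∉ Λ, p h z := fun A B hB => by
    obtain ⟨h, hh⟩ := restr ((mob hM A).trans (Θ.trans (mob hM B))) hB
    replace hh : ∀ x : S, B • Θ (A • x) = ext h x := hh
    refine ⟨h, _, E.remm L A rL, ?_, hh, fun p hp p1 p2 z hz => ?_⟩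
    · convert E.remm L B⁻¹ rL using 1
      ext z
      obtain ⟨z, rfl⟩ := h.surjective z
      obtain ⟨y, hy⟩ := (ext W).surjective (A • (z : S))
      rw [h.injective.mem_set_image, mem_ofPred_eq, mem_ofPred_eq, ← ext_coe, ← hh, inv_smul_smul,
        ← hy, tΘ, iL, iL, kR]
    obtain ⟨y, hy⟩ := (ext W).surjective (A • (z : S))
    have l1 := loc_mob hM hD (A := A) (z := z) fun t => hz (.inl t)
    have l2 : Loc p Θ (A • (z : S)) := by
      rw [mem_ofPred_eq, ← hy, iL, mem_RR, not_and_or, not_not, not_not] at hz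
      rcases hz with hz | ⟨u, hu, rfl⟩
      · obtain ⟨u, hu, eu⟩ := (ke 1 (.inl rfl) y).2 hz
        rw [← hy, ← (ext e).symm_apply_apply y, eu, ← eV]
        exact side hD hp hup hΦ.1 p2 (fun z hz => by rw [eV, eV, t2 z hz]) hu
      · rw [← hy]
        exact side hD hp w.lo hΨ.2.1 p1 (fun z hz => t1 _ (.inr ⟨z, hz, rfl⟩)) hu
    obtain ⟨u, hu⟩ := ne_infty_iff_exists.1 l2.choose_spec.2.1
    have l3 : Loc Cf (fun x => B • x) ((Θ ∘ fun x => A • x) z) := by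
      rw [Function.comp, ← hu]
      exact loc_mob hM hD (by rw [hu, hh]; exact coe_ne_infty _)
    obtain ⟨z', e', -, -, l4⟩ := (l1.comp hp hp.pre l2).comp hp hp.post l3
    rw [← coe_injective e'] at l4
    exact hp.congr _ _ _ l4 (.of_forall fun v => fn_eq (hh v))
  obtain ⟨B, hB⟩ := hV.2.2.2.2.2.2.2.2.1 (Θ ∞)
  obtain ⟨h, Λ, r1, -, hh, hp⟩ := main 1 B⁻¹ (by rw [one_smul, ← hB, inv_smul_smul])
  simp only [one_smul, inv_smul_eq_iff] at hh
  refine ⟨Θ, t1, t2, fun A B hB => ?_, fun p1 p2 => ?_, fun p1 p2 => ?_⟩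
  · obtain ⟨h, Λ, r1, r2, hh, hp⟩ := main A B hB
    exact ⟨h, hK' h Λ r1 r2 (hp _ (stab_dist hD K) hΨ.2.2 hΦ.2.2), hh⟩
  · obtain ⟨a, b, ha, hab⟩ := hA h (E.hoff h Λ r1 (hp _ stab_hol p1 p2))
    obtain ⟨M, M1, M2⟩ := aff ha b
    refine ⟨B * M, fun x => ?_⟩
    rw [hh, mul_smul]
    induction x using OnePoint.rec with
    | infty => rw [M1, ext_inf]
    | coe z => rw [M2, ext_coe, hab]
  · obtain ⟨a, b, ha, hab⟩ := hA (h.trans cjc) (E.hoff _ Λ r1 (hp _ stab_anti p1 p2))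
    obtain ⟨M, M1, M2⟩ := aff ((_root_.map_ne_zero conj).2 ha) (conj b)
    refine ⟨B * M, fun x => ?_⟩
    rw [hh, mul_smul, cj]
    induction x using OnePoint.rec with
    | infty => rw [ext_inf, ext_inf, M1]
    | coe z =>
      rw [ext_coe, ext_coe, M2]
      have : conj (conj (h z)) = conj (a * z + b) := congrArg conj (hab z)
      rw [Complex.conj_conj, map_add, map_mul] at this
      rw [this]; rfl

end Pool.Agent.Lib.THU.AN
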