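import Pool.Agent.Lib.THU.AN.MOB
import Pool.Agent.Lib.THU.FA.Cusp

/-! Integral matrices on the sphere, density of the cusps, fixed points. -/

namespace Pool.Agent.Lib.THU.AN

open Matrix OnePoint Filter Topology Set
open scoped Classical ComplexConjugate
open Pool.Agent.Lib.THU

namespace GZ

@[simp] lemma cst_apply (A : FA.GZ) (i j : Fin 2) : FA.cst ℂ A i j = ((A i j : ℤ) : ℂ) := rfl

@[simp] lemma cj_coe (z : ℂ) : cj (z : S) = ((conj z : ℂ) : S) := rfl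

@[simp] lemma cj_infty : cj (∞ : S) = ∞ := rfl

lemma mem_RR {x : S} : x ∈ RR ↔ cj x = x := by
  cases x using OnePoint.rec with
  | infty => simp [RR]
  | coe z => simp [RR, Complex.conj_eq_iff_real]

lemma coe_mem_RR {z : ℂ} : (z : S) ∈ RR ↔ z.im = 0 := by
  rw [mem_RR, cj_coe, coe_eq_coe, Complex.conj_eq_iff_im]

lemma RR_or (x : S) : x ∈ RR ∨ ∃ z : ℂ, z.im ≠ 0 ∧ x = z := by
  cases x using OnePoint.rec with
  | infty => exact .inl (.inl rfl)
  | coe z => exact (em _).imp coe_mem_RR.2 fun h => ⟨z, h, rfl⟩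

lemma emb_mem (p : FA.P) : emb p ∈ RR := by
  cases p using OnePoint.rec with
  | infty => exact .inl rfl
  | coe q => exact .inr ⟨q, by simp [emb]⟩

lemma cj_smul (A : FA.GZ) (x : S) : cj (FA.cst ℂ A • x) = FA.cst ℂ A • cj x := by
  have := OnePoint.map_smul (starRingEnd ℂ) (FA.cst ℂ A) x
  rwa [show (FA.cst ℂ A).map (starRingEnd ℂ) = FA.cst ℂ A from
    Units.ext (by ext i j; simp)] at this

lemma emb_smul (A : FA.GZ) (p : FA.P) : emb (A • p) = FA.cst ℂ A • emb p := by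
  have := OnePoint.map_smul (Rat.castHom ℂ) (FA.cst ℚ A) p
  rw [show (FA.cst ℚ A).map (Rat.castHom ℂ) = FA.cst ℂ A from
    Units.ext (by ext i j; simp)] at this
  convert this <;> rfl

lemma smul_mem (A : FA.GZ) {x : S} (h : x ∈ RR) : FA.cst ℂ A • x ∈ RR := by
  rw [mem_RR] at h ⊢
  rw [cj_smul, h]

lemma den_ne (A : FA.GZ) {z : ℂ} (h : z.im ≠ 0) : (A 1 0 : ℂ) * z + (A 1 1 : ℤ) ≠ 0 := fun e => by
  have h1 : A 1 0 = 0 := by simpa [h] using congrArg Complex.im e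
  have h2 : A 1 1 = 0 := by simpa [h1] using e
  simpa [h1, h2] using FA.det_eq A

lemma fin_of (A : FA.GZ) {z : ℂ} (h : z.im ≠ 0) : FA.cst ℂ A • (z : S) ≠ ∞ :=
  mt smul_coe_eq_infty.1 (den_ne A h)

lemma im_smul (A : FA.GZ) {z : ℂ} (h : z.im ≠ 0) : ∃ (w : ℂ) (t : ℝ), 0 < t ∧
    FA.cst ℂ A • (z : S) = w ∧ w.im = t * ((A : Matrix (Fin 2) (Fin 2) ℤ).det * z.im) := by
  refine ⟨_, _, inv_pos.2 (Complex.normSq_pos.2 (den_ne A h)), smul_fin (den_ne A h), ?_⟩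
  simp [Complex.div_im, det_fin_two]
  ring

lemma det_or (A : FA.GZ) : (A : Matrix (Fin 2) (Fin 2) ℤ).det = 1 ∨
    (A : Matrix (Fin 2) (Fin 2) ℤ).det = -1 := by
  rw [det_fin_two]; exact FA.det_eq A

lemma keeps {Ψ : S → S} (h : ∀ x ∈ RR, Ψ x ∈ RR)
    (h' : ∀ z : ℂ, z.im ≠ 0 → ∃ (w : ℂ) (t : ℝ), 0 < t ∧ Ψ z = w ∧ w.im = t * z.im) (s : ℝ) :
    Keeps s Ψ := fun x => by
  have k : ∀ y ∈ RR, ¬ ∃ z ∈ Hs s, y = (z : S) := by
    rintro _ hy ⟨z, hz, rfl⟩
    simp [Hs, coe_mem_RR.1 hy] at hz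
  rcases RR_or x with hx | ⟨z, hz, rfl⟩
  · exact iff_of_false (k _ (h x hx)) (k _ hx)
  · obtain ⟨w, t, ht, e, e'⟩ := h' z hz
    simp only [e, coe_eq_coe, exists_eq_right', Hs, mem_ofPred_eq, e', mul_left_comm s,
      mul_pos_iff_of_pos_left ht]

lemma ne_of_Hs {s : ℝ} {z : ℂ} (h : z ∈ Hs s) : z.im ≠ 0 := fun e => by simp [Hs, e] at h

lemma neg_smul' (A : FA.GZ) (x : S) : FA.cst ℂ (-A) • x = FA.cst ℂ A • x := by
  cases x using OnePoint.rec with
  | infty => simp [smul_infty_eq_ite, neg_div_neg_eq]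
  | coe z =>
    have e : ∀ a b : ℂ, -(a * z) + -b = -(a * z + b) := fun a b => by ring
    simp only [smul_some_eq_ite, cst_apply, Units.val_neg, Matrix.neg_apply, Int.cast_neg, neg_mul,
      e, neg_eq_zero, neg_div_neg_eq]

/-- an integral matrix of determinant one with a non real fixed point has finite order -/
lemma ell (A : FA.GZ) (hd : (A : Matrix (Fin 2) (Fin 2) ℤ).det = 1) {z : ℂ} (h : z.im ≠ 0)
    (e : FA.cst ℂ A • (z : S) = z) : ∃ n, 0 < n ∧ (A ^ n = 1 ∨ A ^ n = -1) := by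
  rw [smul_fin (den_ne A h), coe_eq_coe] at e
  replace e := (div_eq_iff (den_ne A h)).1 e
  rw [det_fin_two] at hd
  have h1 := congrArg Complex.re e
  have h2 := congrArg Complex.im e
  simp only [cst_apply, Complex.add_re, Complex.mul_re, Complex.intCast_re, Complex.intCast_im,
    Complex.add_im, Complex.mul_im, zero_mul, sub_zero, add_zero] at h1 h2
  have h3 : (A 0 0 : ℝ) - (A 1 1 : ℤ) = 2 * (A 1 0 : ℤ) * z.re :=
    mul_right_cancel₀ h (by linear_combination h2)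
  have h4 : ((A 0 1 : ℤ) : ℝ) = -(A 1 0 : ℤ) * (z.re ^ 2 + z.im ^ 2) := by
    linear_combination h1 - z.re * h3
  have h5 : ((A 0 0 : ℤ) : ℝ) * (A 1 1 : ℤ) - (A 0 1 : ℤ) * (A 1 0 : ℤ) = 1 := by exact_mod_cast hd
  by_cases hc : A 1 0 = 0
  · have e1 : A 0 0 = A 1 1 := by exact_mod_cast (by simpa [hc, sub_eq_zero] using h3 :
      ((A 0 0 : ℤ) : ℝ) = (A 1 1 : ℤ))
    have e2 : A 0 1 = 0 := by simpa [hc] using h4
    rw [hc, mul_zero, sub_zero] at hd
    refine ⟨1, one_pos, ?_⟩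
    rw [pow_one]
    rcases Int.eq_one_or_neg_one_of_mul_eq_one' hd with ⟨a, b⟩ | ⟨a, b⟩
    exacts [.inl (FA.gz_ext a e2 hc b), .inr (FA.gz_ext a e2 hc b)]
  have h6 : ((A 0 0 : ℝ) + (A 1 1 : ℤ)) ^ 2 = 4 - 4 * ((A 1 0 : ℤ) * z.im) ^ 2 := by
    linear_combination (A 0 0 - A 1 1 + 2 * A 1 0 * z.re : ℝ) * h3 + 4 * h5 + 4 * (A 1 0 : ℝ) * h4
  have h7 : (A 0 0 + A 1 1) ^ 2 < 4 := by
    have : 0 < (((A 1 0 : ℤ) : ℝ) * z.im) ^ 2 := by positivity
    exact_mod_cast (by linarith : ((A 0 0 : ℝ) + (A 1 1 : ℤ)) ^ 2 < 4)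
  obtain t | t | t : A 0 0 + A 1 1 = 0 ∨ A 0 0 + A 1 1 = 1 ∨ A 0 0 + A 1 1 = -1 := by
    have : -2 < A 0 0 + A 1 1 := by nlinarith
    have : A 0 0 + A 1 1 < 2 := by nlinarith
    omega
  · refine ⟨2, two_pos, .inr (FA.gz_ext ?_ ?_ ?_ ?_)⟩ <;>
      simp [sq, FA.gz_mul, -Units.val_mul] <;> grind
  · refine ⟨3, three_pos, .inr (FA.gz_ext ?_ ?_ ?_ ?_)⟩ <;>
      simp [pow_succ, FA.gz_mul, -Units.val_mul] <;> grind
  · refine ⟨3, three_pos, .inl (FA.gz_ext ?_ ?_ ?_ ?_)⟩ <;>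
      simp [pow_succ, FA.gz_mul, -Units.val_mul] <;> grind

end GZ

open GZ

theorem stGZ (hD : St_DIST) : St_GZ := fun A => by
  have D1 : ∀ z : ℂ, z.im ≠ 0 → Dist 1 (fn fun x => FA.cst ℂ A • x) z := fun z hz =>
    (hD.2.2.1 _ _ (isOpen_fin _) (differentiableOn_fn_smul _) (injOn_fn_smul _) z (fin_of A hz)).2
  by_cases hd : (A : Matrix (Fin 2) (Fin 2) ℤ).det = 1
  · have K := keeps (Ψ := mob (FA.cst ℂ A)) (fun x => smul_mem A) fun z hz => by
      simpa [hd] using im_smul A hz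
    exact ⟨mob (FA.cst ℂ A), fun x => (if_pos hd).symm, ⟨K _, K _, fun z hz => D1 z (ne_of_Hs hz)⟩,
      ⟨K _, K _, fun z hz => D1 z (ne_of_Hs hz)⟩, fun _ _ => rfl, fun p => (emb_smul A p).symm,
      fun z hz => by rw [if_pos hd]; exact differentiableAt_fn_smul (fin_of A hz)⟩
  · have K := keeps (Ψ := cj.trans (mob (FA.cst ℂ A))) (fun x hx => smul_mem A ((mem_RR.1 hx).symm ▸ hx))
      fun z hz => by simpa [(det_or A).resolve_left hd] using im_smul A (z := conj z) (by simpa)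
    have D2 : ∀ z : ℂ, z.im ≠ 0 → Dist 1 (fn (cj.trans (mob (FA.cst ℂ A)))) z := fun z hz => by
      have := hD.1 1 1 _ _ z zero_le_one zero_le_one (hD.2.2.2.2.1 z) (D1 _ (by simpa))
      rw [mul_one] at this
      exact this
    have R : ∀ x ∈ RR, cj.trans (mob (FA.cst ℂ A)) x = FA.cst ℂ A • x := fun x hx =>
      congrArg (FA.cst ℂ A • ·) (mem_RR.1 hx)
    refine ⟨cj.trans (mob (FA.cst ℂ A)), fun x => (if_neg hd).symm,
      ⟨K _, K _, fun z hz => D2 z (ne_of_Hs hz)⟩, ⟨K _, K _, fun z hz => D2 z (ne_of_Hs hz)⟩, R,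
      fun p => (R _ (emb_mem p)).trans (emb_smul A p).symm, fun z hz => ?_⟩
    rw [if_neg hd]
    convert differentiableAt_fn_smul (fin_of A hz) using 2 with w
    change conj (fn (fun x => FA.cst ℂ A • x) (conj w)) = _
    simp [fn_smul]

theorem stDENSE : St_DENSE := by
  refine ⟨emb_mem, fun p q e => ?_, ?_, fun f g hf hg e x hx => ?_⟩
  · cases p using OnePoint.rec <;> cases q using OnePoint.rec <;> simp_all [emb]
  · rw [show RR = {x | cj x = x} from Set.ext fun _ => mem_RR]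
    exact isClosed_eq cj.continuous continuous_id
  · rcases hx with rfl | ⟨r, rfl⟩
    · exact e ∞
    · have c : Continuous fun r : ℝ => ((r : ℂ) : S) := continuous_coe.comp Complex.continuous_ofReal
      exact congrFun (Rat.denseRange_cast.equalizer (hf.comp c) (hg.comp c)
        (funext fun q => by simpa [emb] using e q)) r

theorem stFIXZ : St_FIXZ := by
  intro F _ σ hσ x hx
  refine ⟨fun hd z hz e => ?_, fun a ha => ?_⟩
  · obtain ⟨n, h1, h2⟩ := ell _ hd hz e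
    exact hx (hσ.tf x n h1 (hσ.inj _ (by rwa [map_pow])))
  · obtain ⟨B, rfl⟩ := FA.exists_inf a
    obtain ⟨n, hn⟩ := hσ.par ha
    have h0 : n ≠ 0 := by
      rintro rfl
      exact hx (hσ.inj _ (by simpa [FA.Tn_zero, FA.PM] using hn))
    have h1 : ((B * FA.Tn n * B⁻¹ : FA.GZ) : Matrix (Fin 2) (Fin 2) ℤ).det = 1 := by
      rw [Units.val_mul, Units.val_mul, det_mul_right_comm, Units.mul_inv, one_mul, det_fin_two]
      simp [FA.Tn]
    refine ⟨?_, fun y _ e => ?_⟩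
    · rcases hn with e | e <;> rw [e]
      · exact h1
      · rw [Units.val_neg, det_neg, h1]; simp
    · have e' : FA.cst ℂ (B * FA.Tn n * B⁻¹) • y = y := by
        rcases hn with h | h <;> rw [h] at e
        · exact e
        · rwa [neg_smul'] at e
      rw [map_mul, map_mul, map_inv, mul_smul, mul_smul, ← eq_inv_smul_iff] at e'
      rw [emb_smul, ← inv_smul_eq_iff]
      generalize (FA.cst ℂ B)⁻¹ • y = w at e'
      cases w using OnePoint.rec with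
      | infty => rfl
      | coe w => simp [smul_some_eq_ite, FA.Tn, h0] at e'

end Pool.Agent.Lib.THU.AN
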