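import Pool.Agent.Lib.THU.AN.Defs
import Pool.Agent.Lib.THU.EC.Basic

/-!
Limits of asymptotically conformal maps are holomorphic.
-/

namespace Pool.Agent.Lib.THU.AN

open Filter Topology MeasureTheory Set Metric
open scoped ENNReal

namespace HOL

lemma lim {U : Filter ℕ} {φ : ℂ → ℝ} {Q : Set ℂ} {g : ℕ → ℂ → ℂ} {f : ℂ → ℂ} (hφ : Continuous φ)
    (hQ : IsCompact Q) (hS : tsupport φ ⊆ Q) (hg : ∀ n, ContinuousOn (g n) Q)
    (hf : ContinuousOn f Q) (H : TendstoUniformlyOn g f U Q) :
    Tendsto (fun n => ∫ z, φ z • g n z) U (𝓝 (∫ z, φ z • f z)) := by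
  have i0 : Integrable fun z => ‖φ z‖ :=
    (hφ.integrable_of_hasCompactSupport (hQ.of_isClosed_subset (isClosed_tsupport φ) hS)).norm
  have c0 : 0 ≤ ∫ z, ‖φ z‖ := integral_nonneg fun _ => norm_nonneg _
  refine Metric.tendsto_nhds.2 fun ε hε => ?_
  have hε' : 0 < ε / ((∫ z, ‖φ z‖) + 1) := by positivity
  filter_upwards [Metric.tendstoUniformlyOn_iff.1 H _ hε'] with n hn
  rw [dist_eq_norm, ← integral_sub (EC.integrable_smul_of hφ hQ hS (hg n))
    (EC.integrable_smul_of hφ hQ hS hf)]
  refine (norm_integral_le_of_norm_le (i0.mul_const (ε / ((∫ z, ‖φ z‖) + 1)))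
    (Eventually.of_forall fun z => ?_)).trans_lt ?_
  · rw [← smul_sub, norm_smul]
    by_cases hz : z ∈ Q
    · exact mul_le_mul_of_nonneg_left (by rw [← dist_eq_norm, dist_comm]; exact (hn z hz).le)
        (norm_nonneg _)
    · simp [image_eq_zero_of_notMem_tsupport fun h => hz (hS h)]
  · rw [integral_mul_const, mul_div_assoc', div_lt_iff₀ (by positivity)]
    nlinarith

end HOL

theorem stHOL (hCV : EC.St_CV) (hW : EC.St_WEYL) : St_HOL := by
  intro K U O g f hO hi hD hl he
  have hg : ∀ n, ContinuousOn (g n) O := fun n z hz =>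
    (hD n z hz).1.continuousAt.continuousWithinAt
  have hf : ContinuousOn f O := hl.continuousOn (Eventually.of_forall hg).frequently
  refine hW O f hO hf fun η hη => ?_
  have hQ : IsCompact (tsupport η) := hη.cs
  have hu := (tendstoLocallyUniformlyOn_iff_forall_isCompact hO).1 hl _ hη.sub hQ
  have L := fun e => HOL.lim (EC.continuous_fderiv_apply' hη.cd e) hQ
    (EC.tsupport_fderiv_apply η e) (fun n => (hg n).mono hη.sub) (hf.mono hη.sub) hu
  have L2 := ((L 1).add ((L Complex.I).const_mul Complex.I)).norm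
  obtain ⟨R, hR⟩ := hQ.exists_bound_of_continuousOn (hf.mono hη.sub)
  obtain ⟨B, hB⟩ := hQ.exists_bound_of_continuousOn hη.cd.continuous.continuousOn
  set C : ℝ≥0∞ := ENNReal.ofReal (B ^ 2) * volume (tsupport η) +
    K.toNNReal * volume (closedBall (0 : ℂ) (R + 1)) with hC
  have Ct : C ≠ ∞ := ENNReal.add_ne_top.2
    ⟨ENNReal.mul_ne_top ENNReal.ofReal_ne_top hQ.measure_lt_top.ne,
      ENNReal.mul_ne_top ENNReal.coe_ne_top measure_closedBall_lt_top.ne⟩
  have key : ∀ ε : ℝ, 0 < ε → ‖(∫ z, fderiv ℝ η z 1 • f z) +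
      Complex.I * ∫ z, fderiv ℝ η z Complex.I • f z‖ ≤ ε * C.toReal := fun ε hε => by
    refine le_of_tendsto L2 ?_
    filter_upwards [he _ hη.sub hQ ε hε, Metric.tendstoUniformlyOn_iff.1 hu 1 one_pos] with n h1 h2
    have hc : ∀ z ∈ tsupport η, ContDiffAt ℝ 1 (g n) z := fun z hz => (hD n z (hη.sub hz)).1
    have i1 : ∀ e, Integrable fun z => η z • fderiv ℝ (g n) z e := fun e =>
      EC.integrable_smul_of hη.cd.continuous hQ subset_rfl fun z hz =>
        (((hc z hz).continuousAt_fderiv one_ne_zero).clm_apply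
          continuousAt_const).continuousWithinAt
    have hE : EC.En (g n) (tsupport η) ≤ K.toNNReal * volume (closedBall (0 : ℂ) (R + 1)) := by
      refine (hCV K.toNNReal (g n) id _ hQ.measurableSet ((hi n).mono hη.sub)
        (fun z hz => (hc z hz).differentiableAt one_ne_zero) (fun z _ => differentiableAt_id)
        fun z hz => (hD n z (hη.sub hz)).2.2.trans (mul_le_mul_of_nonneg_right
          (Real.le_coe_toNNReal K) (abs_nonneg _))).trans ?_
      rw [EC.En_id]
      gcongr
      rintro _ ⟨z, hz, rfl⟩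
      have := h2 z hz
      have := hR z hz
      have := dist_triangle_left (g n z) 0 (f z)
      rw [mem_closedBall]
      simp only [dist_zero_right] at *
      linarith
    rw [EC.stIBP0 η (g n) 1 hη.cd hη.cs hc, EC.stIBP0 η (g n) Complex.I hη.cd hη.cs hc, mul_neg,
      ← neg_add, norm_neg, ← integral_const_mul, ← integral_add (i1 1) ((i1 _).const_mul _),
      ← ENNReal.toReal_ofReal hε.le, ← ENNReal.toReal_mul, ← toReal_enorm]
    refine ENNReal.toReal_mono (ENNReal.mul_ne_top ENNReal.ofReal_ne_top Ct)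
      ((enorm_integral_le_lintegral_enorm _).trans ?_)
    calc _ ≤ ∫⁻ z, (tsupport η).indicator (fun z => ENNReal.ofReal ε *
          (ENNReal.ofReal (B ^ 2) + ‖fderiv ℝ (g n) z‖ₑ ^ 2)) z := lintegral_mono fun z => by
          by_cases hz : z ∈ tsupport η
          · rw [indicator_of_mem hz, ← ofReal_norm, ← ofReal_norm,
              ← ENNReal.ofReal_pow (norm_nonneg _), ← ENNReal.ofReal_add (sq_nonneg _) (sq_nonneg _),
              ← ENNReal.ofReal_mul hε.le]
            refine ENNReal.ofReal_le_ofReal ?_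
            have e : η z • fderiv ℝ (g n) z 1 + Complex.I * η z • fderiv ℝ (g n) z Complex.I =
                η z • (Complex.I * (fderiv ℝ (g n) z (Complex.I * 1) -
                  Complex.I * fderiv ℝ (g n) z 1)) := by
              simp only [mul_one, Complex.real_smul]
              linear_combination (η z * fderiv ℝ (g n) z 1) * Complex.I_mul_I
            have h3 := h1 z hz 1
            have h4 := hB z hz
            rw [e, norm_smul, norm_mul, Complex.norm_I, one_mul]
            rw [norm_one, mul_one (_ * _)] at h3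
            have h5 := mul_le_mul h4 h3 (norm_nonneg _) ((norm_nonneg _).trans h4)
            nlinarith [mul_nonneg hε.le (sq_nonneg (B - ‖fderiv ℝ (g n) z‖)),
              mul_nonneg hε.le (sq_nonneg B), mul_nonneg hε.le (sq_nonneg ‖fderiv ℝ (g n) z‖)]
          · simp [image_eq_zero_of_notMem_tsupport hz]
      _ ≤ _ := by
          rw [lintegral_indicator hQ.measurableSet, lintegral_const_mul' _ _ ENNReal.ofReal_ne_top,
            lintegral_add_left measurable_const, lintegral_const, Measure.restrict_apply_univ]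
          gcongr
          exact add_le_add_right hE _
  refine norm_le_zero_iff.1 (le_of_forall_pos_le_add fun ε hε => ?_)
  have := key (ε / (C.toReal + 1)) (by positivity)
  rw [div_mul_eq_mul_div, le_div_iff₀ (by positivity)] at this
  nlinarith [norm_nonneg ((∫ z, fderiv ℝ η z 1 • f z) +
      Complex.I * ∫ z, fderiv ℝ η z Complex.I • f z), C.toReal_nonneg]

end Pool.Agent.Lib.THU.AN
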