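import Pool.Agent.Lib.THU.AN.Defs

/-! Moebius maps are continuous on the sphere; the finite formula. -/

namespace Pool.Agent.Lib.THU.AN

open Matrix OnePoint Filter Topology Set
open scoped Classical

namespace MOB

/-- the quotient on the sphere -/
noncomputable def qt (u v : ℂ) : S := if v = 0 then ∞ else ((u / v : ℂ) : S)

lemma tendsto_qt {ι : Type*} {l : Filter ι} {u v : ι → ℂ} {a b : ℂ} (hu : Tendsto u l (𝓝 a))
    (hv : Tendsto v l (𝓝 b)) (h : a ≠ 0 ∨ b ≠ 0) :
    Tendsto (fun i => qt (u i) (v i)) l (𝓝 (qt a b)) := by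
  by_cases hb : b = 0
  · have ha := norm_pos_iff.2 (h.resolve_right (not_not.2 hb))
    rw [qt, if_pos hb, hasBasis_nhds_infty.tendsto_right_iff]
    rintro s ⟨-, hs⟩
    obtain ⟨R, hR⟩ := hs.isBounded.exists_norm_le
    filter_upwards [(hv.norm.const_mul R).eventually_lt hu.norm (by simpa [hb] using ha)] with i hi
    unfold qt
    split_ifs with c
    · exact Or.inr rfl
    · refine Or.inl ⟨_, fun t => ?_, rfl⟩
      have := hR _ t
      rw [norm_div, div_le_iff₀ (norm_pos_iff.2 c)] at this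
      linarith
  · rw [qt, if_neg hb]
    refine ((continuous_coe.tendsto _).comp (hu.div hv hb)).congr' ?_
    filter_upwards [hv.eventually_ne hb] with i hi
    exact (if_neg hi).symm

lemma qt_mul (u v : ℂ) {t : ℂ} (ht : t ≠ 0) : qt (u * t) (v * t) = qt u v := by
  simp [qt, ht, mul_div_mul_right]

lemma smul_coe (A : GC) (z : ℂ) : A • (z : S) = qt (A 0 0 * z + A 0 1) (A 1 0 * z + A 1 1) :=
  smul_some_eq_ite

lemma smul_infty (A : GC) : A • (∞ : S) = qt (A 0 0) (A 1 0) := smul_infty_eq_ite A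

lemma det_ne (A : GC) : A 0 0 * A 1 1 - A 0 1 * A 1 0 ≠ 0 := by
  have := A.det_ne_zero
  rwa [det_fin_two] at this

lemma ne_coe (A : GC) (z : ℂ) : A 0 0 * z + A 0 1 ≠ 0 ∨ A 1 0 * z + A 1 1 ≠ 0 := by
  by_contra h
  push Not at h
  exact det_ne A (by linear_combination A 0 0 * h.2 - A 1 0 * h.1)

lemma ne_infty (A : GC) : A 0 0 ≠ 0 ∨ A 1 0 ≠ 0 := by
  by_contra h
  push Not at h
  exact det_ne A (by rw [h.1, h.2]; ring)

end MOB

open MOB

/-- `pt` is continuous away from the zero vector -/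
lemma continuousAt_pt {x : Fin 2 → ℂ} (h : x ≠ 0) : ContinuousAt pt x :=
  tendsto_qt ((continuous_apply 0).tendsto x) ((continuous_apply 1).tendsto x) (by
    by_contra c
    push Not at c
    exact h (funext fun i => by fin_cases i; exacts [c.1, c.2]))

theorem stMOB : St_MOB := fun A => by
  rw [OnePoint.continuous_iff]
  refine ⟨?_, continuous_iff_continuousAt.2 fun z => ?_⟩
  · rw [coclosedCompact_eq_cocompact, ← Metric.cobounded_eq_cocompact, smul_infty]
    have t : ∀ a b : ℂ, Tendsto (fun z : ℂ => a + b * z⁻¹) (Bornology.cobounded ℂ) (𝓝 a) :=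
      fun a b => by simpa using (tendsto_inv₀_cobounded.const_mul b).const_add a
    refine (tendsto_qt (t _ (A 0 1)) (t _ (A 1 1)) (ne_infty A)).congr' ?_
    filter_upwards [Bornology.eventually_ne_cobounded 0] with z hz
    rw [smul_coe, ← qt_mul _ _ hz]
    congr 1 <;> field_simp
  · simp only [smul_coe]
    exact tendsto_qt (ContinuousAt.tendsto (by fun_prop)) (ContinuousAt.tendsto (by fun_prop))
      (ne_coe A z)

/-- continuity in the matrix -/
lemma tendsto_smul {ι : Type*} {l : Filter ι} {A : ι → GC} {B : GC}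
    (h : ∀ i j, Tendsto (fun n => A n i j) l (𝓝 (B i j))) (x : S) :
    Tendsto (fun n => A n • x) l (𝓝 (B • x)) := by
  induction x using OnePoint.rec with
  | infty => simp only [smul_infty]; exact tendsto_qt (h 0 0) (h 1 0) (ne_infty B)
  | coe z =>
    simp only [smul_coe]
    exact tendsto_qt (((h 0 0).mul_const z).add (h 0 1)) (((h 1 0).mul_const z).add (h 1 1))
      (ne_coe B z)

/-- a Moebius map as a homeomorphism -/
noncomputable def mob (A : GC) : S ≃ₜ S where
  toEquiv := MulAction.toPerm A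
  continuous_toFun := stMOB A
  continuous_invFun := stMOB A⁻¹

@[simp] lemma mob_apply (A : GC) (x : S) : mob A x = A • x := rfl

@[simp] lemma mob_symm_apply (A : GC) (x : S) : (mob A).symm x = A⁻¹ • x := rfl

lemma smul_coe_eq_infty {A : GC} {z : ℂ} : A • (z : S) = ∞ ↔ A 1 0 * z + A 1 1 = 0 := by
  rw [smul_some_eq_ite]; split_ifs with h <;> simp [h]

/-- the finite formula -/
lemma smul_fin {A : GC} {z : ℂ} (h : A 1 0 * z + A 1 1 ≠ 0) :
    A • (z : S) = (((A 0 0 * z + A 0 1) / (A 1 0 * z + A 1 1) : ℂ) : S) := by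
  rw [smul_some_eq_ite, if_neg h]

lemma fn_smul (A : GC) :
    fn (fun x => A • x) = fun z => (A 0 0 * z + A 0 1) / (A 1 0 * z + A 1 1) := funext fun z => by
  rw [fn, smul_some_eq_ite]
  split_ifs with h
  · simp [h]
  · rfl

lemma coe_fn {Θ : S → S} {z : ℂ} (h : Θ z ≠ ∞) : (fn Θ z : S) = Θ z := by
  obtain ⟨w, hw⟩ := ne_infty_iff_exists.1 h
  rw [fn, ← hw]; rfl

lemma fn_eq {Θ : S → S} {z w : ℂ} (h : Θ z = w) : fn Θ z = w := by rw [fn, h]; rfl

lemma hasDerivAt_fn_smul {A : GC} {z : ℂ} (h : A • (z : S) ≠ ∞) :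
    HasDerivAt (fn fun x => A • x)
      ((A 0 0 * A 1 1 - A 0 1 * A 1 0) / (A 1 0 * z + A 1 1) ^ 2) z := by
  rw [fn_smul]
  have t : ∀ a b : ℂ, HasDerivAt (fun w => a * w + b) a z := fun a b => by
    simpa using ((hasDerivAt_id z).const_mul a).add_const b
  refine ((t (A 0 0) (A 0 1)).div (t (A 1 0) (A 1 1)) (mt smul_coe_eq_infty.2 h)).congr_deriv ?_
  ring

lemma differentiableAt_fn_smul {A : GC} {z : ℂ} (h : A • (z : S) ≠ ∞) :
    DifferentiableAt ℂ (fn fun x => A • x) z := (hasDerivAt_fn_smul h).differentiableAt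

lemma deriv_fn_smul_ne {A : GC} {z : ℂ} (h : A • (z : S) ≠ ∞) :
    deriv (fn fun x => A • x) z ≠ 0 := by
  rw [(hasDerivAt_fn_smul h).deriv]
  exact div_ne_zero (det_ne A) (pow_ne_zero _ (mt smul_coe_eq_infty.2 h))

lemma isOpen_fin (A : GC) : IsOpen {z : ℂ | A • (z : S) ≠ ∞} :=
  (isClosed_infty.preimage ((stMOB A).comp continuous_coe)).isOpen_compl

lemma eventually_fin {A : GC} {z : ℂ} (h : A • (z : S) ≠ ∞) : ∀ᶠ w : ℂ in 𝓝 z, A • (w : S) ≠ ∞ :=
  (isOpen_fin A).mem_nhds h

lemma differentiableOn_fn_smul (A : GC) :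
    DifferentiableOn ℂ (fn fun x => A • x) {z : ℂ | A • (z : S) ≠ ∞} := fun _ h =>
  (differentiableAt_fn_smul h).differentiableWithinAt

lemma injOn_fn_smul (A : GC) : InjOn (fn fun x => A • x) {z : ℂ | A • (z : S) ≠ ∞} :=
  fun _ hz _ hw e => coe_injective (MulAction.injective A
    ((coe_fn (Θ := fun x => A • x) hz).symm.trans
      ((congrArg _ e).trans (coe_fn (Θ := fun x => A • x) hw))))

end Pool.Agent.Lib.THU.AN
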