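import Pool.Agent.Lib.THU.AN.Defs
import Pool.Agent.Lib.THU.NB.PQM

/-!
Power quasi Moebius bound for quasiconformal homeomorphisms of the sphere.
-/

namespace Pool.Agent.Lib.THU.AN

open Matrix OnePoint
open Pool.Agent.Lib.THU

namespace QMa

lemma pt_eq_inf {x : Fin 2 → ℂ} : pt x = ∞ ↔ x 1 = 0 := by
  unfold pt
  split_ifs with h <;> simp [h]

lemma pt_fin {x : Fin 2 → ℂ} (h : x 1 ≠ 0) : pt x = ((x 0 / x 1 : ℂ) : S) := by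
  simp [pt, h]

lemma ext_coe (h : ℂ ≃ₜ ℂ) (z : ℂ) : ext h (z : S) = (h z : ℂ) := rfl

lemma fin_of {P : Type} (u : P → Fin 2 → ℂ) (X : Matrix (Fin 2) (Fin 2) ℂ) {p q : P}
    (h1 : X.det ≠ 0) (h2 : (X *ᵥ u q) 1 = 0) (h3 : NB.om (u p) (u q) ≠ 0) : (X *ᵥ u p) 1 ≠ 0 := by
  intro h4
  apply mul_ne_zero h1 h3
  rw [← NB.om_mulVec, NB.om, h2, h4]; simp

lemma dis_of {P : Type} (u : P → Fin 2 → ℂ) (X : Matrix (Fin 2) (Fin 2) ℂ) {p q : P}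
    (h1 : X.det ≠ 0) (h2 : NB.om (u p) (u q) ≠ 0) (h3 : (X *ᵥ u p) 1 ≠ 0)
    (h4 : (X *ᵥ u q) 1 ≠ 0) : (X *ᵥ u p) 0 / (X *ᵥ u p) 1 ≠ (X *ᵥ u q) 0 / (X *ᵥ u q) 1 := by
  intro h5
  apply mul_ne_zero h1 h2
  rw [div_eq_div_iff h3 h4] at h5
  rw [← NB.om_mulVec, NB.om]; linear_combination h5

lemma key {M : ℝ} (hM : 1 ≤ M) {P : Type} (v w : P → Fin 2 → ℂ) (N N' : Matrix (Fin 2) (Fin 2) ℂ)
    (h : ℂ ≃ₜ ℂ) (H : ∀ x y z : ℂ, ‖y - x‖ ≤ 2 * ‖z - x‖ → ‖h y - h x‖ ≤ M * ‖h z - h x‖)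
    (hN : N.det ≠ 0) (hN' : N'.det ≠ 0) (hv : ∀ a b, a ≠ b → NB.om (v a) (v b) ≠ 0)
    (hw : ∀ a b, a ≠ b → NB.om (w a) (w b) ≠ 0) {a b c e : P} (hd : NB.Dis a b c e)
    (he : (N *ᵥ v e) 1 = 0) (he' : (N' *ᵥ w e) 1 = 0)
    (hp : ∀ p, p ≠ e → h ((N *ᵥ v p) 0 / (N *ᵥ v p) 1) = (N' *ᵥ w p) 0 / (N' *ᵥ w p) 1) :
    NB.crl w a b c e ≤ Real.log M / Real.log 2 * max (NB.crl v a b c e) 0 + 2 * Real.log M := by
  obtain ⟨ab, ac, ae, -, be, ce⟩ := hd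
  have fa := fin_of v N hN he (hv a e ae)
  rw [NB.crl_frame v N hN he (hv a b ab) (hv c e ce) (hv a c ac) (hv b e be) fa,
    NB.crl_frame w N' hN' he' (hw a b ab) (hw c e ce) (hw a c ac) (hw b e be)
      (fin_of w N' hN' he' (hw a e ae)), ← hp a ae, ← hp b be, ← hp c ce]
  exact NB.qs_log hM h.injective (fun x y z _ h2 => H x y z h2)
    (dis_of v N hN (hv a c ac) fa (fin_of v N hN he (hv c e ce)))
    (dis_of v N hN (hv a b ab) fa (fin_of v N hN he (hv b e be)))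

end QMa

open QMa in
theorem stQM (hV : St_VEC) : St_QM := by
  intro E K
  obtain ⟨-, -, v3, v4, -, -, -, -, v9, -⟩ := hV
  obtain ⟨M, hM⟩ := E.qs K 2
  refine ⟨Real.log (max M 1) / Real.log 2, 2 * Real.log (max M 1), ?_⟩
  intro P Θ v w hq hv0 hw0 hvw hv a b c e hd
  have hw : ∀ a b, a ≠ b → NB.om (w a) (w b) ≠ 0 := fun a b hab h0 => by
    rw [v3 _ _ (hw0 a) (hw0 b), hvw, hvw] at h0
    exact hv a b hab ((v3 _ _ (hv0 a) (hv0 b)).2 (Θ.injective h0))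
  obtain ⟨A, hA⟩ := v9 (pt (v e))
  obtain ⟨A', hA'⟩ := v9 (pt (w e))
  obtain ⟨h, hh, hx⟩ := hq A A'⁻¹ (by rw [hA, ← hvw, ← hA', inv_smul_smul])
  have dN : ∀ X : GC, (X : Matrix (Fin 2) (Fin 2) ℂ).det ≠ 0 := fun X =>
    (Matrix.isUnits_det_units X).ne_zero
  have he : (((A⁻¹ : GC) : Matrix (Fin 2) (Fin 2) ℂ) *ᵥ v e) 1 = 0 := by
    rw [← pt_eq_inf, v4 _ _ (hv0 e), ← hA, inv_smul_smul]
  have he' : (((A'⁻¹ : GC) : Matrix (Fin 2) (Fin 2) ℂ) *ᵥ w e) 1 = 0 := by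
    rw [← pt_eq_inf, v4 _ _ (hw0 e), ← hA', inv_smul_smul]
  have hp : ∀ p, p ≠ e →
      h ((((A⁻¹ : GC) : Matrix (Fin 2) (Fin 2) ℂ) *ᵥ v p) 0 /
        (((A⁻¹ : GC) : Matrix (Fin 2) (Fin 2) ℂ) *ᵥ v p) 1) =
      (((A'⁻¹ : GC) : Matrix (Fin 2) (Fin 2) ℂ) *ᵥ w p) 0 /
        (((A'⁻¹ : GC) : Matrix (Fin 2) (Fin 2) ℂ) *ᵥ w p) 1 := by
    intro p hpe
    have h1 := hx (A⁻¹ • pt (v p))
    rw [smul_inv_smul, ← hvw, ← v4 _ _ (hw0 p), ← v4 _ _ (hv0 p),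
      pt_fin (fin_of v _ (dN _) he (hv p e hpe)), pt_fin (fin_of w _ (dN _) he' (hw p e hpe)),
      ext_coe] at h1
    exact (OnePoint.coe_eq_coe.1 h1).symm
  have qs : ∀ g : ℂ ≃ₜ ℂ, E.QC K g → ∀ x y z : ℂ, ‖y - x‖ ≤ 2 * ‖z - x‖ →
      ‖g y - g x‖ ≤ max M 1 * ‖g z - g x‖ := fun g hg x y z h2 =>
    (hM g hg x y z h2).trans (mul_le_mul_of_nonneg_right (le_max_left _ _) (norm_nonneg _))
  exact ⟨key (le_max_right _ _) v w _ _ h (qs h hh) (dN _) (dN _) hv hw hd he he' hp,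
    key (le_max_right _ _) w v _ _ h.symm (qs _ (E.symm K h hh)) (dN _) (dN _) hw hv hd he' he
      fun p hpe => by rw [← hp p hpe, Homeomorph.symm_apply_apply]⟩

end Pool.Agent.Lib.THU.AN
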