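import Pool.Agent.Lib.THU.AN.Defs
import Pool.Agent.Lib.THU.EC.REM

/-! Removable sets are invariant under Moebius maps. -/

namespace Pool.Agent.Lib.THU.AN

open Matrix OnePoint Filter Topology MeasureTheory Set
open scoped Classical ENNReal NNReal
open Pool.Agent.Lib.THU

namespace REMM

theorem pull (hR : EC.St_REM) (hP : EC.St_PT) (hT : EC.St_TR) (hV : EC.St_CV) (hM : EC.St_M)
    (hD : EC.St_DIST) {Λ P P' : Set ℂ} {f g : ℂ → ℂ} (hΛ : EC.Rem Λ) (fin : P.Finite)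
    (cl : IsClosed P') (hf : ∀ z ∉ P, ContDiffAt ℂ 1 f z) (hg : ∀ w ∉ P', ContDiffAt ℂ 1 g w)
    (h1 : ∀ z ∉ P, f z ∉ P' ∧ g (f z) = z) (h2 : ∀ w ∉ P', g w ∉ P ∧ f (g w) = w) :
    EC.Rem (P ∪ f ⁻¹' Λ) := by
  have cf : ContinuousOn f Pᶜ := fun z hz => (hf z hz).continuousAt.continuousWithinAt
  have cg : ContinuousOn g P'ᶜ := fun z hz => (hg z hz).continuousAt.continuousWithinAt
  have hZ : IsClosed (P ∪ f ⁻¹' Λ) := by
    rw [← isOpen_compl_iff, compl_union]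
    exact cf.isOpen_inter_preimage fin.isClosed.isOpen_compl hΛ.1.isOpen_compl
  refine hR.1 _ 4 hZ fun O v hO hv hd _ => ?_
  have hO' : IsOpen (P'ᶜ ∩ g ⁻¹' O) := cg.isOpen_inter_preimage cl.isOpen_compl hO
  have hm : ∀ w ∈ (P'ᶜ ∩ g ⁻¹' O) \ Λ, g w ∈ O \ (P ∪ f ⁻¹' Λ) := fun w hw =>
    ⟨hw.1.2, fun h => h.elim (h2 w hw.1.1).1 fun h => hw.2 ((h2 w hw.1.1).2 ▸ h)⟩
  have a1 : EC.App (P'ᶜ ∩ g ⁻¹' O) (v ∘ g) (EC.En (v ∘ g) ((P'ᶜ ∩ g ⁻¹' O) \ Λ)) :=
    hΛ.app hM hO' (hv.comp (cg.mono inter_subset_left) fun w hw => hw.2) fun w hw =>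
      (hd _ (hm w hw)).comp w ((hg w hw.1.1).restrict_scalars ℝ)
  have a2 : EC.En (v ∘ g) ((P'ᶜ ∩ g ⁻¹' O) \ Λ) ≤ EC.En v (O \ (P ∪ f ⁻¹' Λ)) := by
    refine (hV 1 g v _ (hO'.measurableSet.diff hΛ.1.measurableSet) (fun x hx y hy e => ?_)
      (fun w hw => ((hg w hw.1.1).restrict_scalars ℝ).differentiableAt one_ne_zero)
      (fun w hw => (hd _ (hm w hw)).differentiableAt one_ne_zero)
      (hD.1 g _ fun w hw => (hg w hw.1.1).differentiableAt one_ne_zero)).trans ?_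
    · rw [← (h2 x hx.1.1).2, e, (h2 y hy.1.1).2]
    · rw [ENNReal.coe_one, one_mul]
      exact EC.En_mono v (image_subset_iff.2 hm)
  have a3 := hT.1 Pᶜ 1 f (fun x hx y hy e => by rw [← (h1 x hx).2, e, (h1 y hy).2])
    (fun z hz => (hf z hz).restrict_scalars ℝ)
    (hD.1 f _ fun z hz => (hf z hz).differentiableAt one_ne_zero) _ _ _ hO' a1
  have a4 : EC.App (O \ P) v (EC.En v (O \ (P ∪ f ⁻¹' Λ))) := by
    refine (a3.mono (fun z hz => ⟨hz.2, (h1 z hz.2).1, ?_⟩) ?_).congr fun z hz => ?_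
    · rw [mem_preimage, (h1 z hz.2).2]
      exact hz.1
    · rwa [ENNReal.coe_one, one_mul]
    · rw [Function.comp_apply, Function.comp_apply, (h1 z hz.2).2]
  exact_mod_cast hP O P v _ hO fin hv a4

lemma cd (a b c d z : ℂ) (h : c * z + d ≠ 0) :
    ContDiffAt ℂ 1 (fun z : ℂ => (a * z + b) / (c * z + d)) z :=
  ContDiffAt.div (by fun_prop) (by fun_prop) h

lemma inv (a b c d z : ℂ) (hd : a * d - b * c ≠ 0) (h : c * z + d ≠ 0) :
    -c * ((a * z + b) / (c * z + d)) + a ≠ 0 ∧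
      (d * ((a * z + b) / (c * z + d)) + -b) / (-c * ((a * z + b) / (c * z + d)) + a) = z := by
  have e : -c * ((a * z + b) / (c * z + d)) + a = (a * d - b * c) / (c * z + d) := by
    field_simp
    ring
  have e' : d * ((a * z + b) / (c * z + d)) + -b = z * ((a * d - b * c) / (c * z + d)) := by
    rw [← mul_div_assoc, ← mul_div_assoc, div_add' _ _ _ h]
    congr 1
    ring
  have h0 : (a * d - b * c) / (c * z + d) ≠ 0 := div_ne_zero hd h
  rw [e, e']
  exact ⟨h0, mul_div_cancel_right₀ z h0⟩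

end REMM

theorem stREMM (hR : EC.St_REM) (hP : EC.St_PT) (hT : EC.St_TR) (hV : EC.St_CV) (hM : EC.St_M)
    (hD : EC.St_DIST) : St_REMM := by
  intro Λ A hΛ
  have hd : A 0 0 * A 1 1 - A 0 1 * A 1 0 ≠ 0 := by
    have := A.det_ne_zero
    rwa [Matrix.det_fin_two] at this
  have key := REMM.pull hR hP hT hV hM hD (P := {z | A 1 0 * z + A 1 1 = 0})
    (P' := {w | -A 1 0 * w + A 0 0 = 0})
    (f := fun z => (A 0 0 * z + A 0 1) / (A 1 0 * z + A 1 1))
    (g := fun w => (A 1 1 * w + -A 0 1) / (-A 1 0 * w + A 0 0)) hΛ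
    (Set.Subsingleton.finite fun x hx y hy => by
      by_contra hn
      have e1 : A 1 0 * (x - y) = 0 := by
        rw [mem_ofPred_eq] at hx hy
        linear_combination hx - hy
      have e2 : A 1 0 = 0 := (mul_eq_zero.1 e1).resolve_right (sub_ne_zero.2 hn)
      have e3 : A 1 1 = 0 := by simpa [e2] using hx
      exact hd (by rw [e2, e3]; ring))
    (isClosed_eq (by fun_prop) continuous_const) (fun z hz => REMM.cd _ _ _ _ z hz)
    (fun z hz => REMM.cd _ _ _ _ z hz) (fun z hz => REMM.inv _ _ _ _ z hd hz) fun w hw => by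
      have := REMM.inv (A 1 1) (-A 0 1) (-A 1 0) (A 0 0) w
        (fun e => hd (by linear_combination e)) hw
      rwa [neg_neg, neg_neg] at this
  convert key using 1
  ext z
  simp only [mem_ofPred_eq, mem_union, mem_preimage, smul_some_eq_ite]
  split_ifs with h
  · simp [h]
  · simp [h]

end Pool.Agent.Lib.THU.AN
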