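import Pool.Agent.Lib.THU.AN.Defs

/-!
Rigidity: a quasiconformal homeomorphism that is thick at all but countably many points is
conformal or anticonformal affine.
-/

namespace Pool.Agent.Lib.THU.AN

open Filter Topology MeasureTheory Set Complex
open scoped ComplexConjugate
open Pool.Agent.Lib.THU

namespace RIG

/-- the real linear map `v ↦ α v + β conj v` -/
noncomputable def lin (α β : ℂ) : ℂ →L[ℝ] ℂ :=
  α • (ContinuousLinearMap.id ℝ ℂ) + β • (Complex.conjCLE : ℂ →L[ℝ] ℂ)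

lemma lin_apply (α β v : ℂ) : lin α β v = α * v + β * conj v := by
  simp [lin]

lemma det_eq (A : ℂ →L[ℝ] ℂ) : A.det = (A 1).re * (A I).im - (A I).re * (A 1).im := by
  rw [ContinuousLinearMap.det, ← LinearMap.det_toMatrix basisOneI, Matrix.det_fin_two]
  simp [LinearMap.toMatrix_apply]

lemma det_lin (α β : ℂ) : (lin α β).det = normSq α - normSq β := by
  rw [det_eq, lin_apply, lin_apply, normSq_apply, normSq_apply]
  simp
  ring

lemma exists_lin (A : ℂ →L[ℝ] ℂ) : ∃ α β, A = lin α β := by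
  refine ⟨(A 1 - I * A I) / 2, (A 1 + I * A I) / 2, ?_⟩
  ext v
  have h : A v = v.re * A 1 + v.im * A I := by
    conv_lhs => rw [show v = v.re • (1 : ℂ) + v.im • I by simp [Complex.re_add_im]]
    rw [map_add, map_smul, map_smul]
    simp
  rw [lin_apply, h]
  have h1 : conj v = v.re - v.im * I := by
    apply Complex.ext <;> simp
  rw [h1]
  conv_rhs => rw [show v = v.re + v.im * I from (Complex.re_add_im v).symm]
  simp only [add_re, ofReal_re, mul_re, I_re, mul_zero, ofReal_im, I_im, mul_one, sub_self,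
    add_zero, add_im, mul_im, zero_add]
  linear_combination (↑v.im * A I) * I_mul_I

lemma hd_lin {h : ℂ → ℂ} {α ξ : ℂ} (H : HasDerivAt h α ξ) : HasFDerivAt h (lin α 0) ξ := by
  refine (H.hasFDerivAt.restrictScalars ℝ).congr_fderiv (ContinuousLinearMap.ext fun v => ?_)
  simp [lin_apply, mul_comm]

lemma hd_of_lin {h : ℂ → ℂ} {α ξ : ℂ} (H : HasFDerivAt h (lin α 0) ξ) : HasDerivAt h α ξ := by
  rw [hasDerivAt_iff_hasFDerivAt]
  refine hasFDerivAt_of_restrictScalars ℝ H ?_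
  ext v
  simp [lin_apply, mul_comm]

lemma hd_conj {h : ℂ → ℂ} {α β ξ : ℂ} (H : HasFDerivAt h (lin α β) ξ) :
    HasFDerivAt (fun z => conj (h z)) (lin (conj β) (conj α)) ξ := by
  refine ((Complex.conjCLE : ℂ →L[ℝ] ℂ).hasFDerivAt.comp ξ H).congr_fderiv
    (ContinuousLinearMap.ext fun v => ?_)
  simp [lin_apply, add_comm]

lemma slope {h : ℂ → ℂ} {A : ℂ →L[ℝ] ℂ} {ξ : ℂ} (H : HasFDerivAt h A ξ) (w : ℂ) :
    Tendsto (fun t : ℝ => t⁻¹ • (h (ξ + t • w) - h ξ)) (𝓝[≠] 0) (𝓝 (A w)) :=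
  (H.hasLineDerivAt w).tendsto_slope_zero

/-- quasisymmetry passes to the derivative -/
lemma qs_lin {h : ℂ → ℂ} {A : ℂ →L[ℝ] ℂ} {ξ : ℂ} {M : ℝ} (H : HasFDerivAt h A ξ)
    (hq : ∀ x y z : ℂ, ‖y - x‖ ≤ 1 * ‖z - x‖ → ‖h y - h x‖ ≤ M * ‖h z - h x‖)
    (u w : ℂ) (huw : ‖u‖ ≤ ‖w‖) : ‖A u‖ ≤ M * ‖A w‖ := by
  refine le_of_tendsto_of_tendsto' (slope H u).norm ((slope H w).norm.const_mul M) fun t => ?_
  rw [norm_smul, norm_smul, mul_left_comm]
  refine mul_le_mul_of_nonneg_left (hq _ _ _ ?_) (norm_nonneg _)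
  simp only [add_sub_cancel_left, norm_smul, one_mul]
  gcongr

lemma zero_of_qs {α β : ℂ} {M : ℝ} (hn : ‖α‖ = ‖β‖)
    (hq : ∀ u w : ℂ, ‖u‖ ≤ ‖w‖ → ‖lin α β u‖ ≤ M * ‖lin α β w‖) : α = 0 := by
  by_contra h0
  obtain ⟨w, hw⟩ := IsAlgClosed.exists_pow_nat_eq (-β / α) (n := 2) (by norm_num)
  have hw1 : ‖w‖ = 1 := by
    have : ‖w‖ ^ 2 = 1 := by
      rw [← norm_pow, hw, norm_div, norm_neg, ← hn, div_self (norm_ne_zero_iff.2 h0)]
    nlinarith [norm_nonneg w]
  have hc : w * conj w = 1 := by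
    rw [Complex.mul_conj, normSq_eq_norm_sq, hw1]
    simp
  have hz : lin α β w = 0 := by
    rw [lin_apply]
    have : α * w ^ 2 = -β := by rw [hw]; field_simp
    linear_combination (conj w) * this - α * w * hc
  have h1 := hq 1 w (by simp [hw1])
  have h2 := hq I w (by simp [hw1])
  rw [hz, norm_zero, mul_zero, norm_le_zero_iff, lin_apply] at h1 h2
  simp only [map_one, mul_one, conj_I] at h1 h2
  apply h0
  linear_combination (1 / 2) * h1 - (I / 2) * h2 + (α - β) / 2 * I_mul_I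

end RIG

open RIG

theorem stSGN (hO : EC.St_OR) : St_SGN := by
  intro h ξ η α β hα hβ H1 H2
  have e := hd_conj (hd_lin H2)
  simp only [conj_conj, map_zero] at e
  have := hO h _ _ ξ η h.continuous h.injective (hd_lin H1) e
    (by rw [det_lin]; simpa using normSq_pos.2 hα)
  rw [det_lin] at this
  have h2 := normSq_pos.2 hβ
  simp at this
  linarith

theorem stRIG (hZ : St_ZOOM) (hS : St_SGN) (hA : St_AFF) : St_RIG := by
  intro E K B h Bad hq hB hT
  obtain ⟨M, hM⟩ := E.qs K 1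
  have hae : ∀ᵐ ξ : ℂ, ∃ α β, HasFDerivAt h (lin α β) ξ ∧ (α = 0 ∨ β = 0) := by
    have h1 : ∀ᵐ ξ : ℂ, ξ ∉ Bad := measure_eq_zero_iff_ae_notMem.1 (hB.measure_zero _)
    filter_upwards [h1, (E.diff K h hq).1] with ξ h1 h2
    obtain ⟨α, β, e⟩ := exists_lin (fderiv ℝ h ξ)
    have H : HasFDerivAt h (lin α β) ξ := e ▸ h2.hasFDerivAt
    refine ⟨α, β, H, ?_⟩
    by_cases hn : ‖α‖ = ‖β‖
    · exact Or.inl (zero_of_qs hn (qs_lin H (hM h hq)))
    · exact hZ h B ξ α β (hT ξ h1) H hn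
  by_cases hc : ∃ ξ α, α ≠ 0 ∧ HasDerivAt h α ξ
  · obtain ⟨ξ, α, hα, H⟩ := hc
    obtain ⟨a, b, ha, e⟩ := hA h ((E.diff K h hq).2 (by
      filter_upwards [hae] with η ⟨α', β', H', h'⟩
      by_cases hβ : β' = 0
      · subst hβ
        exact (hd_of_lin H').differentiableAt
      · have h0 : α' = 0 := h'.resolve_right hβ
        subst h0
        have e := hd_conj H'
        rw [map_zero] at e
        exact (hS h ξ η α _ hα ((map_ne_zero _).2 hβ) H (hd_of_lin e)).elim))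
    exact ⟨a, b, ha, Or.inl e⟩
  · obtain ⟨a, b, ha, e⟩ := hA (h.trans cjc) ((E.diff K _ (E.cnj K h hq)).2 (by
      filter_upwards [hae] with η ⟨α', β', H', h'⟩
      have h0 : α' = 0 := by
        by_contra h0
        have hβ : β' = 0 := h'.resolve_left h0
        subst hβ
        exact hc ⟨η, α', h0, hd_of_lin H'⟩
      subst h0
      have e := hd_conj H'
      rw [map_zero] at e
      exact (hd_of_lin e).differentiableAt))
    refine ⟨conj a, conj b, (map_ne_zero _).2 ha, Or.inr fun z => ?_⟩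
    have e' : conj (h z) = a * z + b := e z
    rw [← conj_conj (h z), e']
    simp

end Pool.Agent.Lib.THU.AN
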