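import Pool.Agent.Lib.THU.AN.Defs

/-!
Linear algebra of the projective line.
-/

namespace Pool.Agent.Lib.THU.AN

open Matrix OnePoint Filter Topology MeasureTheory Set
open scoped Classical ComplexConjugate
open Pool.Agent.Lib.THU

lemma vec_pt_vec (x : S) : pt (vec x) = x := by
  induction x using OnePoint.rec <;> simp [pt, vec]

lemma vec_ne_zero (x : S) : vec x ≠ 0 := by
  induction x using OnePoint.rec with
  | infty => exact fun h => by simpa [vec] using congrFun h 0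
  | coe z => exact fun h => by simpa [vec] using congrFun h 1

lemma vec_fst_ne {x : Fin 2 → ℂ} (hx : x ≠ 0) (h : x 1 = 0) : x 0 ≠ 0 := fun e =>
  hx (funext fun i => by fin_cases i <;> simp [e, h])

lemma vec_om_iff (x y : Fin 2 → ℂ) (hx : x ≠ 0) (hy : y ≠ 0) : NB.om x y = 0 ↔ pt x = pt y := by
  by_cases h1 : x 1 = 0 <;> by_cases h2 : y 1 = 0
  · simp [NB.om, pt, h1, h2]
  · simp [NB.om, pt, h1, h2, vec_fst_ne hx h1]
  · simp [NB.om, pt, h1, h2, vec_fst_ne hy h2]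
  · simp only [NB.om, pt, h1, h2, if_false, coe_eq_coe]
    rw [div_eq_div_iff h1 h2, sub_eq_zero, mul_comm (x 1)]

lemma vec_pt_mulVec (A : GC) (x : Fin 2 → ℂ) (hx : x ≠ 0) :
    pt ((A : Matrix (Fin 2) (Fin 2) ℂ) *ᵥ x) = A • pt x := by
  by_cases h1 : x 1 = 0
  · have h0 := vec_fst_ne hx h1
    simp only [pt, h1, if_true, smul_infty_eq_ite, Matrix.mulVec_fin_two]
    simp [h0, mul_div_mul_right]
  · simp only [pt, h1, if_false, smul_some_eq_ite, Matrix.mulVec_fin_two]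
    have e : ∀ a b : ℂ, a * (x 0 / x 1) + b = (a * x 0 + b * x 1) / x 1 := fun a b => by
      field_simp
    simp [e, h1, div_div_div_cancel_right₀]

lemma vec_cj_map (x : S) : cj x = OnePoint.map (starRingEnd ℂ) x := rfl

lemma vec_pt_star (x : Fin 2 → ℂ) : pt (star x) = cj (pt x) := by
  by_cases h1 : x 1 = 0 <;> simp [pt, h1, vec_cj_map]

lemma vec_pt_smul (c : ℂ) (hc : c ≠ 0) (x : Fin 2 → ℂ) : pt (c • x) = pt x := by
  by_cases h1 : x 1 = 0 <;> simp [pt, h1, hc, mul_div_mul_left]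

lemma vec_det_one (A : GC) :
    ∃ B : GC, (B : Matrix (Fin 2) (Fin 2) ℂ).det = 1 ∧ ∀ x : S, B • x = A • x := by
  obtain ⟨s, hs⟩ := IsAlgClosed.exists_pow_nat_eq (A : Matrix (Fin 2) (Fin 2) ℂ).det two_pos
  have h0 : s ≠ 0 := by
    rintro rfl
    exact A.det_ne_zero (by simpa using hs.symm)
  have hd : (s⁻¹ • (A : Matrix (Fin 2) (Fin 2) ℂ)).det = 1 := by
    rw [det_smul, ← hs, Fintype.card_fin, ← mul_pow, inv_mul_cancel₀ h0, one_pow]
  refine ⟨GeneralLinearGroup.mkOfDetNeZero _ (hd.trans_ne one_ne_zero), hd, fun x => ?_⟩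
  rw [← vec_pt_vec x, ← vec_pt_mulVec _ _ (vec_ne_zero x), ← vec_pt_mulVec _ _ (vec_ne_zero x),
    ← vec_pt_smul s⁻¹ (inv_ne_zero h0) (A.1 *ᵥ _), ← smul_mulVec]
  rfl

lemma vec_fix (A : GC) (z : ℂ) (h : A 1 0 * z + A 1 1 ≠ 0)
    (e : A 0 0 * z + A 0 1 = z * (A 1 0 * z + A 1 1)) : A • (z : S) = z := by
  rw [smul_some_eq_ite, if_neg h, e, mul_div_cancel_right₀ _ h]

lemma vec_trace (A : GC) (a : S) (hd : (A : Matrix (Fin 2) (Fin 2) ℂ).det = 1)
    (h : ∀ x : S, A • x = x → x = a) :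
    (A : Matrix (Fin 2) (Fin 2) ℂ).trace = 2 ∨ (A : Matrix (Fin 2) (Fin 2) ℂ).trace = -2 := by
  rw [det_fin_two] at hd
  rw [trace_fin_two]
  by_contra hn
  push Not at hn
  have ht : (A 0 0 + A 1 1) ^ 2 - 4 ≠ 0 := fun e => by
    have : (A 0 0 + A 1 1 - 2) * (A 0 0 + A 1 1 + 2) = 0 := by linear_combination e
    rcases mul_eq_zero.1 this with e | e
    · exact hn.1 (by linear_combination e)
    · exact hn.2 (by linear_combination e)
  by_cases hc : A 1 0 = 0
  · rw [hc] at hd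
    have h1 : A 1 1 - A 0 0 ≠ 0 := fun e => ht (by linear_combination (A 1 1 - A 0 0) * e + 4 * hd)
    have h2 : A 1 1 ≠ 0 := fun e => by simp [e] at hd
    have h3 := h _ (vec_fix A (A 0 1 / (A 1 1 - A 0 0)) (by simpa [hc] using h2) (by
      rw [hc]; field_simp; ring))
    exact coe_ne_infty _ (h3.trans (h _ (smul_infty_eq_self_iff.2 hc)).symm)
  · have key : ∀ s : ℂ, s ^ 2 = (A 0 0 + A 1 1) ^ 2 - 4 →
        (((A 0 0 - A 1 1 + s) / (2 * A 1 0) : ℂ) : S) = a := fun s hs => by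
      have e : A 1 0 * ((A 0 0 - A 1 1 + s) / (2 * A 1 0)) + A 1 1 = (A 0 0 + A 1 1 + s) / 2 := by
        field_simp; ring
      refine h _ (vec_fix A _ ?_ ?_)
      · rw [e]
        intro e2
        have e3 : s = -(A 0 0 + A 1 1) := by linear_combination 2 * e2
        rw [e3] at hs
        exact (show (4 : ℂ) ≠ 0 by norm_num) (by linear_combination hs)
      · rw [e]
        field_simp
        linear_combination (-1 : ℂ) * hs - 4 * hd
    obtain ⟨s, hs⟩ := IsAlgClosed.exists_pow_nat_eq ((A 0 0 + A 1 1) ^ 2 - 4) two_pos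
    have h1 := (key s hs).trans (key (-s) (by rw [← hs]; ring)).symm
    rw [coe_eq_coe, div_left_inj' (mul_ne_zero two_ne_zero hc)] at h1
    have : s = 0 := by linear_combination h1 / 2
    exact ht (by rw [← hs, this]; ring)

lemma vec_three (C : GC) (a b c : S) (hd : (C : Matrix (Fin 2) (Fin 2) ℂ).det = 1) (hab : a ≠ b)
    (hac : a ≠ c) (hbc : b ≠ c) (ha : C • a = a) (hb : C • b = b) (hc : C • c = c) :
    C = 1 ∨ C = -1 := by
  have F : ∀ x : S, C • x = x → -C 1 0 * vec x 0 ^ 2 + (C 0 0 - C 1 1) * (vec x 0 * vec x 1) +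
      C 0 1 * vec x 1 ^ 2 = 0 := fun x hx => by
    induction x using OnePoint.rec with
    | infty => simpa [vec] using smul_infty_eq_self_iff.1 hx
    | coe z =>
      have := GeneralLinearGroup.fixpointPolynomial_aeval_eq_zero_iff.2 hx
      simp only [GeneralLinearGroup.fixpointPolynomial, map_sub, map_mul, map_add,
        Polynomial.aeval_X_pow, Polynomial.aeval_C, Polynomial.aeval_X,
        Algebra.algebraMap_self_apply] at this
      simp only [vec, elim_some, cons_val_zero, cons_val_one]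
      linear_combination -this
  have O : ∀ x y : S, x ≠ y → NB.om (vec x) (vec y) ≠ 0 := fun x y h e => h (by
    simpa [vec_pt_vec] using (vec_om_iff _ _ (vec_ne_zero x) (vec_ne_zero y)).1 e)
  have D := mul_ne_zero (mul_ne_zero (O a b hab) (O a c hac)) (O b c hbc)
  have Fa := F a ha
  have Fb := F b hb
  have Fc := F c hc
  unfold NB.om at D
  generalize vec a = u at *
  generalize vec b = v at *
  generalize vec c = w at *
  have h1 : C 1 0 = 0 := mul_right_cancel₀ D (by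
    linear_combination -(v 0 * v 1 * w 1 ^ 2 - v 1 ^ 2 * w 0 * w 1) * Fa +
      (u 0 * u 1 * w 1 ^ 2 - u 1 ^ 2 * w 0 * w 1) * Fb -
      (u 0 * u 1 * v 1 ^ 2 - u 1 ^ 2 * v 0 * v 1) * Fc)
  have h2 : C 0 0 = C 1 1 := mul_right_cancel₀ D (by
    linear_combination -(v 0 ^ 2 * w 1 ^ 2 - v 1 ^ 2 * w 0 ^ 2) * Fa +
      (u 0 ^ 2 * w 1 ^ 2 - u 1 ^ 2 * w 0 ^ 2) * Fb - (u 0 ^ 2 * v 1 ^ 2 - u 1 ^ 2 * v 0 ^ 2) * Fc)
  have h3 : C 0 1 = 0 := mul_right_cancel₀ D (by
    linear_combination (v 0 ^ 2 * w 0 * w 1 - v 0 * v 1 * w 0 ^ 2) * Fa -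
      (u 0 ^ 2 * w 0 * w 1 - u 0 * u 1 * w 0 ^ 2) * Fb +
      (u 0 ^ 2 * v 0 * v 1 - u 0 * u 1 * v 0 ^ 2) * Fc)
  rw [det_fin_two, h1, h2] at hd
  have h4 : C 1 1 = 1 ∨ C 1 1 = -1 := mul_self_eq_one_iff.1 (by linear_combination hd)
  refine h4.imp (fun e => ?_) fun e => ?_ <;> ext i j <;> fin_cases i <;> fin_cases j <;>
    simp [h1, h2, h3, e]

theorem stVEC : St_VEC := by
  refine ⟨vec_pt_vec, vec_ne_zero, vec_om_iff, vec_pt_mulVec, vec_pt_star, vec_det_one, vec_trace,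
    fun A B a b c hA hB hab hac hbc ha hb hc => ?_, fun a => ?_,
    fun A => ⟨A.map (starRingEnd ℂ), fun x => by
      rw [vec_cj_map, vec_cj_map, OnePoint.map_smul]⟩⟩
  · have f : ∀ x : S, A • x = B • x → (B⁻¹ * A) • x = x := fun x hx => by
      rw [mul_smul, hx, inv_smul_smul]
    have hd : ((B⁻¹ * A : GC) : Matrix (Fin 2) (Fin 2) ℂ).det = 1 := by
      simp [hA, hB]
    refine (vec_three _ a b c hd hab hac hbc (f a ha) (f b hb) (f c hc)).imp (fun e => ?_)
      fun e => ?_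
    · exact (inv_mul_eq_one.1 e).symm
    · rw [inv_mul_eq_iff_eq_mul.1 e, mul_neg, mul_one]
  · induction a using OnePoint.rec with
    | infty => exact ⟨1, one_smul _ _⟩
    | coe z =>
      refine ⟨GeneralLinearGroup.mkOfDetNeZero !![z, 1; 1, 0] (by simp), ?_⟩
      simp [smul_infty_eq_ite]

end Pool.Agent.Lib.THU.AN
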