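import Pool.Agent.Lib.THU.AN.Defs
import Pool.Agent.Lib.THU.Tor4
import Pool.Agent.Lib.THU.EC.CV

/-!
Existence of conformal weldings.
-/

namespace Pool.Agent.Lib.THU.AN

open Filter Topology Set Complex Tor
open scoped ComplexConjugate

namespace WELD

/-- the complex linear part -/
noncomputable def wa (L : ℂ →L[ℝ] ℂ) : ℂ := (L 1 - I * L I) / 2

/-- the complex antilinear part -/
noncomputable def wb (L : ℂ →L[ℝ] ℂ) : ℂ := (L 1 + I * L I) / 2

lemma ap (L : ℂ →L[ℝ] ℂ) (v : ℂ) : L v = wa L * v + wb L * conj v := by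
  rw [EC.CV.apply_eq L v, wa, wb]
  have h1 := re_eq_add_conj v
  have h2 := im_eq_sub_conj v
  rw [h1, h2]
  field_simp
  linear_combination (L I * (v - conj v)) * I_sq

lemma nw (L : ℂ →L[ℝ] ℂ) : ‖wa L‖ ≤ ‖L‖ ∧ ‖wb L‖ ≤ ‖L‖ := by
  have h1 : ‖L 1‖ ≤ ‖L‖ := by simpa using L.le_opNorm 1
  have h2 : ‖I * L I‖ ≤ ‖L‖ := by simpa using L.le_opNorm I
  have h3 := norm_sub_le (L 1) (I * L I)
  have h4 := norm_add_le (L 1) (I * L I)
  simp only [wa, wb, norm_div, norm_ofNat]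
  constructor <;> linarith

lemma det_w {L : ℂ →L[ℝ] ℂ} {a b : ℂ} (h : ∀ v, L v = a * v + b * conj v) :
    L.det = ‖a‖ ^ 2 - ‖b‖ ^ 2 := by
  rw [EC.CV.det_eq, h, h, Complex.sq_norm, Complex.sq_norm, normSq_apply, normSq_apply]
  simp
  ring

lemma bel {L : ℂ →L[ℝ] ℂ} {K : ℝ} (h : ‖L‖ ^ 2 ≤ K * |L.det|) (p : 0 < L.det) (hK : 1 ≤ K) :
    wa L ≠ 0 ∧ ‖wb L‖ ≤ (1 - 1 / (2 * K)) * ‖wa L‖ := by
  rw [abs_of_pos p] at h
  rw [det_w (ap L)] at h p
  have h1 := (pow_le_pow_left₀ (norm_nonneg _) (nw L).1 2).trans h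
  refine ⟨fun c => by rw [c, norm_zero] at p; nlinarith [norm_nonneg (wb L)], ?_⟩
  have e : K * (1 / (2 * K)) = 1 / 2 := by field_simp
  have t : 0 < 1 / (2 * K) := by positivity
  generalize 1 / (2 * K) = s at e t ⊢
  have h2 := mul_le_mul_of_nonneg_left h1 (by positivity : 0 ≤ 2 * s)
  rw [← mul_assoc, show 2 * s * K = 1 by linarith] at h2
  refine (sq_le_sq₀ (norm_nonneg _) (mul_nonneg (by nlinarith) (norm_nonneg _))).1 ?_
  nlinarith [sq_nonneg (s * ‖wa L‖)]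

lemma est {L M : ℂ →L[ℝ] ℂ} {k η ε : ℝ} {φ μ : ℂ} (k0 : 0 ≤ k) (hk : k < 1) (ha : wa M ≠ 0)
    (hM : ‖wb M‖ ≤ k * ‖wa M‖) (h : ∀ v, L (M v) = φ * v + μ * φ * conj v)
    (hη : ‖μ - wb M / wa M‖ ≤ η) (hε : 4 * η ≤ ε * (1 - k)) (v : ℂ) :
    ‖L (I * v) - I * L v‖ ≤ ε * ‖L‖ * ‖v‖ := by
  obtain ⟨e1, e2⟩ : wa L * wa M + wb L * conj (wb M) = φ ∧
      wa L * wb M + wb L * conj (wa M) = μ * φ := sep2 fun v => by
    rw [← h, ap L (M v), ap M v]; simp; ring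
  have e3 : wb L * ((‖wa M‖ ^ 2 - ‖wb M‖ ^ 2 : ℝ) : ℂ) = φ * wa M * (μ - wb M / wa M) := by
    push_cast
    rw [← mul_conj', ← mul_conj']
    field_simp
    linear_combination wa M * e2 - wb M * e1
  have e4 : L (I * v) - I * L v = -2 * I * wb L * conj v := by
    rw [ap L, ap L v]; simp; ring
  have a0 := norm_pos_iff.2 ha
  have b0 := norm_nonneg (wb M)
  have h1 : (1 - k) * ‖wa M‖ ^ 2 ≤ ‖wa M‖ ^ 2 - ‖wb M‖ ^ 2 := by
    nlinarith [pow_le_pow_left₀ b0 hM 2, mul_nonneg (mul_nonneg k0 (sub_pos.2 hk).le) (sq_nonneg ‖wa M‖)]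
  have h2 : ‖φ‖ ≤ 2 * ‖L‖ * ‖wa M‖ := by
    rw [← e1]
    refine (norm_add_le _ _).trans ?_
    rw [norm_mul, norm_mul, norm_conj]
    nlinarith [nw L, mul_le_mul (nw L).2 (hM.trans (mul_le_of_le_one_left a0.le hk.le)) b0
      (norm_nonneg _)]
  have h3 := congrArg norm e3
  rw [norm_mul, norm_mul, norm_mul, norm_real, Real.norm_of_nonneg (by nlinarith)] at h3
  have h4 : ‖wb L‖ * ((1 - k) * ‖wa M‖ ^ 2) ≤ 2 * ‖L‖ * ‖wa M‖ * ‖wa M‖ * η :=
    (mul_le_mul_of_nonneg_left h1 (norm_nonneg _)).trans (h3.le.trans (by gcongr))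
  have h5 : 2 * ‖wb L‖ ≤ ε * ‖L‖ := le_of_mul_le_mul_right (by
    nlinarith [mul_le_mul_of_nonneg_left hε (by positivity : 0 ≤ ‖L‖ * ‖wa M‖ ^ 2)])
    (mul_pos (sub_pos.2 hk) (pow_pos a0 2))
  rw [e4]
  simpa using mul_le_mul_of_nonneg_right h5 (norm_nonneg v)

lemma holo (hD : St_DIST) (E : EI) (U : Ultrafilter ℕ) {f : ℕ → ℂ ≃ₜ ℂ} {W : ℂ → ℂ}
    {φ μ : ℕ → ℂ → ℂ} {K K' : ℝ} (fd : ∀ n z, Dist K' (f n) z)
    (hf : ∀ n z, HasFDerivAt (f n) (lin (φ n z) (μ n z * φ n z)) z)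
    (cv : TendstoLocallyUniformly (fun n => (f n : ℂ → ℂ)) W U) (e : ℂ ≃ₜ ℂ) {O : Set ℂ}
    (hO : IsOpen O) (ke : ∀ z, e z ∈ O ↔ z ∈ O) (hK : 1 ≤ K)
    (de : ∀ z ∈ O, Dist K e z ∧ 0 < (fderiv ℝ e z).det)
    (cl : ∀ Q ⊆ O, IsCompact Q → ∀ η > 0, ∀ᶠ n in U, ∀ z ∈ Q,
      ‖μ n z - wb (fderiv ℝ e z) / wa (fderiv ℝ e z)‖ ≤ η) :
    DifferentiableOn ℂ (fun z => W (e.symm z)) O := by
  have m : ∀ w ∈ O, e.symm w ∈ O := fun w hw => (ke _).1 (by simpa using hw)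
  have d : ∀ n, ∀ w ∈ O, Dist (K * K') (f n ∘ e.symm) w := fun n w hw => by
    have := hD.2.1 K e e.symm _ (de _ (m w hw)).1 e.symm.continuous.continuousAt (by simp)
      (.of_forall e.apply_symm_apply)
    rw [e.apply_symm_apply] at this
    exact hD.1 _ _ _ _ _ (by linarith) (by linarith [hD.2.2.2.2.2.2 _ _ _ (fd 0 0)]) this (fd n _)
  refine E.hol (K * K') U O (fun n => f n ∘ e.symm) (W ∘ e.symm) hO
    (fun n => ((f n).injective.comp e.symm.injective).injOn) d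
    (cv.comp _ e.symm.continuous).tendstoLocallyUniformlyOn fun Q hQ cQ ε hε => ?_
  have t : 0 < 1 / (2 * K) := by positivity
  filter_upwards [cl _ (image_subset_iff.2 fun w hw => m w (hQ hw)) (cQ.image e.symm.continuous)
    (ε * (1 / (2 * K)) / 4) (by positivity)] with n hn w hw v
  have dz := de _ (m w (hQ hw))
  obtain ⟨b1, b2⟩ := bel dz.1.2.2 dz.2 hK
  refine est (by rw [sub_nonneg, div_le_one (by positivity)]; linarith) (by linarith) b1 b2
    (φ := φ n (e.symm w)) (fun v => ?_) (hn _ (mem_image_of_mem _ hw)) (by linarith) v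
  have c := HasFDerivAt.comp (f := e) (e.symm w) ((e.apply_symm_apply w).symm ▸
    ((d n w (hQ hw)).1.differentiableAt one_ne_zero).hasFDerivAt :)
    (dz.1.1.differentiableAt one_ne_zero).hasFDerivAt
  rw [show (f n ∘ e.symm) ∘ e = f n by ext; simp, e.apply_symm_apply] at c
  exact (DFunLike.congr_fun (c.unique (hf n _)) v).trans (lin_apply _ _ v)

end WELD

open WELD

theorem stWELD (hD : St_DIST) : St_WELD := by
  intro E e K ke de pe
  have hK := hD.2.2.2.2.2.2 _ _ _ (de I (by simp [Hs]))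
  have oH : ∀ s, IsOpen (Hs s) := fun s => isOpen_lt continuous_const (by fun_prop)
  set k := 1 - 1 / (2 * K)
  have t : 0 < 1 / (2 * K) := by positivity
  have k0 : 0 ≤ k := by rw [sub_nonneg, div_le_one (by positivity)]; linarith
  have k1 : k < 1 := by simp only [k]; linarith
  set ν : ℂ → ℂ := fun z => wb (fderiv ℝ e z) / wa (fderiv ℝ e z)
  set χ : ℕ → ℂ → ℝ := fun n z => Real.smoothTransition ((n + 1) * z.im - 1)
  have z0 : ∀ (n : ℕ) z, (n + 1 : ℝ) * z.im ≤ 1 → χ n z = 0 := fun n z h =>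
    Real.smoothTransition.zero_of_nonpos (by linarith)
  have hb := fun z hz => bel (de z hz).2.2 (pe z hz) hK
  have neg : ∀ (n : ℕ) (z : ℂ), z ∉ Hs 1 → (n + 1 : ℝ) * z.im < 1 := fun n z h => by
    have : z.im ≤ 0 := by simpa [Hs] using h
    nlinarith [n.cast_nonneg (α := ℝ)]
  choose f φ μ f0 f1 cφ cμ φ0 hμ ap hf using fun n : ℕ => sm (fun z => χ n z * ν z)
    (continuous_iff_continuousAt.2 fun z => by
      by_cases h : z ∈ Hs 1
      · have c : ContinuousAt (fderiv ℝ e) z := (de z h).1.continuousAt_fderiv one_ne_zero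
        refine ContinuousAt.mul (by fun_prop) (ContinuousAt.div ?_ ?_ (hb z h).1)
        · unfold wb; fun_prop
        · unfold wa; fun_prop
      · refine (continuousAt_const (y := 0)).congr ?_
        filter_upwards [(isOpen_lt (f := fun z : ℂ => (n + 1 : ℝ) * z.im) (by fun_prop)
          continuous_const).mem_nhds (neg n z h)] with w hw
        simp [z0 n w (le_of_lt hw)])
    (κ := k) (κ' := (1 + k) / 2) (R := n) (ε := 1 / ((n : ℝ) + 1)) (fun z => by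
      by_cases h : z ∈ Hs 1
      · rw [norm_mul, norm_real, Real.norm_of_nonneg (Real.smoothTransition.nonneg _)]
        refine (mul_le_of_le_one_left (norm_nonneg _) (Real.smoothTransition.le_one _)).trans ?_
        rw [norm_div, div_le_iff₀ (norm_pos_iff.2 (hb z h).1)]
        exact (hb z h).2
      · simp [z0 n z (neg n z h).le, k0]) (by linarith) (by linarith) (by positivity)
  have fd : ∀ n z, Dist (4 / (1 - k)) (f n) z := fun n z => by
    have c : ContDiff ℝ 1 (f n) := contDiff_one_iff_fderiv.2 ⟨fun z => (hf n z).differentiableAt,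
      by rw [funext fun z => (hf n z).fderiv]; exact lin_cont (cφ n) ((cμ n).continuous.mul (cφ n))⟩
    have a0 := norm_pos_iff.2 (φ0 n z)
    have m0 := norm_nonneg (μ n z)
    have m1 := hμ n z
    have p : 0 < ‖φ n z‖ ^ 2 * (1 - ‖μ n z‖ ^ 2) := mul_pos (by positivity) (by nlinarith)
    have l := pow_le_pow_left₀ (norm_nonneg _) (norm_lin (φ n z) (μ n z * φ n z)) 2
    rw [Dist, (hf n z).fderiv, det_w (lin_apply _ _), norm_mul, abs_of_pos (by linarith),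
      div_mul_eq_mul_div, le_div_iff₀ (by linarith)]
    refine ⟨c.contDiffAt, by linarith, (mul_le_mul_of_nonneg_right l (by linarith)).trans ?_⟩
    rw [norm_mul]
    nlinarith [mul_le_mul_of_nonneg_left (show (1 + ‖μ n z‖) * (1 - k) ≤ 4 * (1 - ‖μ n z‖) by
      nlinarith) (by positivity : 0 ≤ ‖φ n z‖ ^ 2 * (1 + ‖μ n z‖))]
  obtain ⟨K2, h2⟩ := E.c1 (4 / (1 - k))
  obtain ⟨K3, h3⟩ := E.cpt K2
  obtain ⟨W, qW, cv, -⟩ := h3 (hyperfilter ℕ) f (fun _ => 0) (fun _ => 1) 0 1 0 1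
    (fun n => h2 _ (fd n)) tendsto_const_nhds tendsto_const_nhds zero_ne_one
    (by simp [f0]) (by simp [f1]) zero_ne_one
  have ev : ∀ Q : Set ℂ, IsCompact Q → ∀ η > 0, ∀ᶠ n : ℕ in hyperfilter ℕ, 1 / ((n : ℝ) + 1) ≤ η ∧
      ∀ z ∈ Q, ‖μ n z - χ n z * ν z‖ ≤ η := fun Q cQ η hη => by
    obtain ⟨R, hR⟩ := cQ.isBounded.exists_norm_le
    filter_upwards [Nat.hyperfilter_le_atTop ((tendsto_one_div_add_atTop_nhds_zero_nat.eventually
      (ge_mem_nhds hη)).and (tendsto_natCast_atTop_atTop.eventually_ge_atTop R))] with n hn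
    exact ⟨hn.1, fun z hz => (ap n z ((hR z hz).trans hn.2)).trans hn.1⟩
  refine ⟨W, ke, ⟨K, de⟩, ⟨K3, qW⟩, holo hD E _ fd hf cv (.refl ℂ) (oH _) (fun _ => Iff.rfl) le_rfl
    (fun z _ => ⟨(hD.2.2.1 _ id isOpen_univ differentiableOn_id (injOn_id _) z trivial).2,
      by simp [ContinuousLinearMap.det]⟩) fun Q hQ cQ η hη => ?_,
    holo hD E _ fd hf cv e (oH 1) (ke 1 (.inl rfl)) hK (fun z hz => ⟨de z hz, pe z hz⟩)
      fun Q hQ cQ η hη => ?_⟩
  · filter_upwards [ev Q cQ η hη] with n hn z hz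
    have := hQ hz
    simpa [wb, z0 n z (neg n z (by simp [Hs] at this ⊢; linarith)).le] using hn.2 z hz
  · obtain ⟨δ, δ0, hδ⟩ := cQ.exists_forall_le' (f := im) (a := 0) (by fun_prop)
      fun z hz => by simpa [Hs] using hQ hz
    filter_upwards [ev Q cQ η hη, ev Q cQ (δ / 2) (by positivity)] with n hn hn' z hz
    have h := hn'.1
    rw [div_le_iff₀ (by positivity)] at h
    have : χ n z = 1 := Real.smoothTransition.one_of_one_le
      (by nlinarith [hδ z hz, n.cast_nonneg (α := ℝ)])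
    simpa [this] using hn.2 z hz

end Pool.Agent.Lib.THU.AN
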