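import Pool.Agent.Lib.THU.AN.Defs

/-!
Zoom at a point of differentiability.
-/

namespace Pool.Agent.Lib.THU.AN

open Filter Topology
open scoped ComplexConjugate

namespace Zoom

lemma lim {h : ℂ → ℂ} {A : ℂ →L[ℝ] ℂ} {ξ y : ℂ} (hA : HasFDerivAt h A ξ) {r : ℕ → ℝ} {z : ℕ → ℂ}
    (r0 : ∀ n, 0 < r n) (hr : Tendsto r atTop (𝓝 0)) (hz : Tendsto z atTop (𝓝 y)) :
    Tendsto (fun n => (r n)⁻¹ • (h (ξ + r n * z n) - h ξ)) atTop (𝓝 (A y)) :=
  (hA.hasFDerivWithinAt (s := Set.univ)).lim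
    (by simpa using ((Complex.continuous_ofReal.tendsto 0).comp hr).mul hz) (by simp)
    (hz.congr fun n => by rw [← Complex.real_smul, inv_smul_smul₀ (r0 n).ne'])

lemma cre_aff {x y : Fin 4 → ℂ} (h : CRE x y) (r : ℝ) (a : ℂ) :
    CRE (fun i => r • (x i - a)) fun i => r • (y i - a) := by
  simp only [CRE, Complex.real_smul] at h ⊢
  linear_combination (r : ℂ) ^ 4 * h

lemma cre_lim {x y : ℕ → Fin 4 → ℂ} {x' y' : Fin 4 → ℂ} (h : ∀ n, CRE (x n) (y n))
    (hx : ∀ i, Tendsto (fun n => x n i) atTop (𝓝 (x' i)))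
    (hy : ∀ i, Tendsto (fun n => y n i) atTop (𝓝 (y' i))) : CRE x' y' :=
  tendsto_nhds_unique
    ((((hy 0).sub (hy 1)).mul ((hy 2).sub (hy 3))).mul
      (((hx 0).sub (hx 2)).mul ((hx 1).sub (hx 3))))
    (((((hy 0).sub (hy 2)).mul ((hy 1).sub (hy 3))).mul
      (((hx 0).sub (hx 1)).mul ((hx 2).sub (hx 3)))).congr fun n => (h n).symm)

/-- the limit relation -/
lemma rel {h : ℂ → ℂ} {A : ℂ →L[ℝ] ℂ} {B : ℝ} {ξ : ℂ} (H : Thick h B ξ) (hA : HasFDerivAt h A ξ) :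
    ∃ κ p q : ℂ, κ ≠ 0 ∧ ∀ u : Fin 4 → ℂ, (∀ i, u i ≠ 0) →
      CRE (fun i => A (u i + p)) fun i => A (q + κ * (u i)⁻¹) := by
  choose r r0 r1 a b c d e ha _ hc hd h1 H using fun n : ℕ => H _ (Nat.one_div_pos_of_nat (n := n))
  have hB : 0 ≤ B := (norm_nonneg _).trans (ha 0)
  obtain ⟨⟨a', c', d'⟩, -, φ, hφ, hl⟩ := (isCompact_closedBall (0 : ℂ × ℂ × ℂ) B).tendsto_subseq
    (x := fun n => (a n, c n, d n)) fun n => by simp [Prod.norm_def, ha, hc, hd]
  have la : Tendsto (fun n => a (φ n)) atTop (𝓝 a') := hl.fst_nhds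
  have lc : Tendsto (fun n => c (φ n)) atTop (𝓝 c') := hl.snd_nhds.fst_nhds
  have ld : Tendsto (fun n => d (φ n)) atTop (𝓝 d') := hl.snd_nhds.snd_nhds
  have ne : ∀ z : ℂ, 1 ≤ B * ‖z‖ → z ≠ 0 := by
    rintro _ t rfl
    norm_num at t
  have c0 : c' ≠ 0 := ne _ (ge_of_tendsto' (lc.norm.const_mul B) fun n => h1 _)
  have lr : Tendsto (fun n => r (φ n)) atTop (𝓝 0) :=
    (squeeze_zero (fun n => (r0 n).le) (fun n => (r1 n).le)
      tendsto_one_div_add_atTop_nhds_zero_nat).comp hφ.tendsto_atTop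
  refine ⟨-(c' * c')⁻¹, -(d' / c'), a' / c', by simp [c0], fun u hu => ?_⟩
  refine cre_lim (fun n => cre_aff (H (φ n) (fun i => u i + -(d (φ n) / c (φ n))) fun i => ?_)
    (r (φ n))⁻¹ (h ξ)) (fun i => lim hA (fun n => r0 _) lr ((ld.div lc c0).neg.const_add _))
    fun i => lim hA (fun n => r0 _) lr ((((la.div lc c0).add
      (((lc.mul lc).inv₀ (mul_ne_zero c0 c0)).neg.mul_const (u i)⁻¹))).congr fun n => ?_)
  · rw [mul_add, mul_neg, mul_div_cancel₀ _ (ne _ (h1 _)), neg_add_cancel_right]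
    exact mul_ne_zero (ne _ (h1 _)) (hu i)
  · have := ne _ (h1 (φ n))
    have := hu i
    rw [mul_add (c _), mul_neg, mul_div_cancel₀ _ (ne _ (h1 _)), neg_add_cancel_right]
    simp only [Pi.div_apply]
    field_simp
    linear_combination e (φ n)

end Zoom

theorem stZOOM : St_ZOOM := by
  intro h B ξ α β H hA hn
  obtain ⟨κ, p, q, k0, hk⟩ := Zoom.rel H hA
  have inj : ∀ z : ℂ, z ≠ 0 → α * z + β * conj z ≠ 0 := fun z hz e => by
    have := congrArg norm (eq_neg_of_add_eq_zero_left e)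
    simp only [norm_mul, norm_neg, Complex.norm_conj] at this
    exact hn (mul_right_cancel₀ (norm_ne_zero_iff.2 hz) this)
  have key : ∀ v w : ℂ, v * w = 1 → (α * v + β * conj v) * (α * (κ * w) + β * conj (κ * w)) =
      (α + β) * (α * κ + β * conj κ) := fun v w e => by
    have := hk ![1, -1, v, 2] fun i => by
      fin_cases i <;> simp [left_ne_zero_of_mul_eq_one e]
    rw [eq_inv_of_mul_eq_one_right e]
    refine mul_left_cancel₀ (mul_ne_zero (inj 1 one_ne_zero) (inj κ k0)) ?_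
    simp [CRE, map_ofNat] at this
    simp only [map_mul, map_inv₀, map_one]
    linear_combination (1 / 3 : ℂ) * this
  have k1 := key Complex.I (-Complex.I) (by simp)
  have k2 := key (1 + Complex.I) ((1 - Complex.I) / 2)
    (by linear_combination (-1 / 2 : ℂ) * Complex.I_mul_I)
  simp [map_ofNat] at k1 k2
  refine mul_eq_zero.1 (mul_right_cancel₀ k0 ?_)
  have := Complex.I_mul_I
  grind

end Pool.Agent.Lib.THU.AN
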