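import Pool.Agent.Lib.THU.AN.Main
import Pool.Agent.Lib.THU.AN.DISC
import Pool.Agent.Lib.THU.AN.EI
import Pool.Agent.Lib.THU.AN.END
import Pool.Agent.Lib.THU.AN.GLUE
import Pool.Agent.Lib.THU.AN.GZ
import Pool.Agent.Lib.THU.AN.HOL
import Pool.Agent.Lib.THU.AN.MOB
import Pool.Agent.Lib.THU.AN.QM
import Pool.Agent.Lib.THU.AN.REMM
import Pool.Agent.Lib.THU.AN.RIG
import Pool.Agent.Lib.THU.AN.WELD
import Pool.Agent.Lib.THU.AN.ZOOM
import Pool.Agent.Lib.THU.AN.DIST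
import Pool.Agent.Lib.THU.AN.VEC
import Pool.Agent.Lib.THU.EC.Main

/-!
The analytic half, unconditionally.
-/

namespace Pool.Agent.Lib.THU.AN

theorem hDIST : St_DIST := stDIST

theorem hAFF : St_AFF := stAFF

theorem hEI : St_EI :=
  stEI EC.hQC EC.hQS EC.hCPT2 EC.hREM EC.hLINE EC.hWEYL EC.hR EC.hAE hDIST
    (stHOL EC.hCV EC.hWEYL) (stREMM EC.hREM EC.hPT EC.hTR EC.hCV EC.hM EC.hDIST)

theorem hRIG : St_RIG := stRIG stZOOM (stSGN EC.hOR) hAFF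

theorem hAN : St_AN :=
  stAN stVEC hDIST (stGZ hDIST) stDENSE stFIXZ stDISC (stWELD hDIST)
    (stGLUE stMOB hDIST hAFF stVEC) (stEND stKOE) (stQM stVEC)

end Pool.Agent.Lib.THU.AN
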