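import Pool.Agent.Lib.THU.AN.Defs

/-!
Elementary facts on the sphere, the half planes and integral matrices.
-/

namespace Pool.Agent.Lib.THU.AN

open Matrix OnePoint Filter Topology Set
open scoped Classical ComplexConjugate
open Pool.Agent.Lib.THU

theorem ext_coe' (h : ℂ ≃ₜ ℂ) (z : ℂ) : ext h (z : S) = (h z : ℂ) := rfl
theorem ext_inf' (h : ℂ ≃ₜ ℂ) : ext h (∞ : S) = ∞ := rfl
theorem ext_symm' (h : ℂ ≃ₜ ℂ) : (ext h).symm = ext h.symm := rfl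
theorem cj_coe' (z : ℂ) : cj (z : S) = (conj z : ℂ) := rfl
theorem cj_inf' : cj (∞ : S) = ∞ := rfl

theorem cj_cj' (x : S) : cj (cj x) = x := by
  cases x using OnePoint.rec with
  | infty => rfl
  | coe z => rw [cj_coe', cj_coe', Complex.conj_conj]

theorem ext_trans' (h k : ℂ ≃ₜ ℂ) (x : S) : ext (h.trans k) x = ext k (ext h x) := by
  cases x using OnePoint.rec <;> rfl

theorem cj_smul' (A : GC) (x : S) :
    cj (A • x) = Matrix.GeneralLinearGroup.map (starRingEnd ℂ) A • cj x :=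
  OnePoint.map_smul (starRingEnd ℂ) A x

theorem cj_cst (A : FA.GZ) (x : S) : cj (FA.cst ℂ A • x) = FA.cst ℂ A • cj x := by
  rw [cj_smul']
  congr 1
  ext i j
  simp [FA.cst]

/-- the determinant of an integral matrix -/
abbrev dz (A : FA.GZ) : ℤ := (A : Matrix (Fin 2) (Fin 2) ℤ).det

theorem dz_cases (A : FA.GZ) : dz A = 1 ∨ dz A = -1 :=
  Int.isUnit_iff.1 (Matrix.isUnits_det_units A)

theorem dz_mul (A B : FA.GZ) : dz (A * B) = dz A * dz B := by simp [dz]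

theorem dz_inv (A : FA.GZ) : dz A⁻¹ = dz A := by
  have h := dz_mul A⁻¹ A
  rw [inv_mul_cancel] at h
  have h1 : dz 1 = 1 := by simp [dz]
  rcases dz_cases A with e | e <;> rw [e] at h ⊢ <;> omega

theorem dz_conj (A B : FA.GZ) : dz (A⁻¹ * B * A) = dz B := by
  rw [dz_mul, dz_mul, dz_inv]
  rcases dz_cases A with e | e <;> rw [e] <;> ring

theorem gz_mul' (A B : FA.GZ) (x : S) : gz (A * B) x = gz A (gz B x) := by
  have h := dz_mul A B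
  unfold gz
  rcases dz_cases A with e | e <;> rcases dz_cases B with e' | e' <;> rw [e, e'] at h <;>
    simp only [dz] at h e e' <;> simp [h, e, e', mul_smul, cj_cst, cj_cj']

theorem gz_one' (x : S) : gz 1 x = x := by simp [gz]

theorem isOpen_Hs (s : ℝ) : IsOpen (Hs s) :=
  isOpen_lt continuous_const (by fun_prop)

theorem Hs_ne {s : ℝ} {z : ℂ} (h : z ∈ Hs s) : z.im ≠ 0 := fun e => by
  simp [Hs, e] at h

theorem tri' (x : S) : x ∈ RR ∨ (∃ z ∈ Hs 1, x = (z : S)) ∨ ∃ z ∈ Hs (-1), x = (z : S) := by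
  cases x using OnePoint.rec with
  | infty => exact Or.inl (Or.inl rfl)
  | coe z =>
    rcases lt_trichotomy z.im 0 with h | h | h
    · exact Or.inr (Or.inr ⟨z, by simpa [Hs] using h, rfl⟩)
    · refine Or.inl (Or.inr ⟨z.re, ?_⟩)
      congr 1
      exact Complex.ext (by simp) (by simp [h])
    · exact Or.inr (Or.inl ⟨z, by simpa [Hs] using h, rfl⟩)

theorem not_RR {s : ℝ} {z : ℂ} (h : z ∈ Hs s) : (z : S) ∉ RR := by
  rintro (e | ⟨r, e⟩)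
  · exact OnePoint.coe_ne_infty _ e
  · rw [OnePoint.coe_eq_coe] at e
    exact Hs_ne h (by simp [e])

theorem RR_of_keeps {Ψ : S → S} (h : Keeps 1 Ψ) (h' : Keeps (-1) Ψ) {x : S} (hx : x ∈ RR) :
    Ψ x ∈ RR := by
  rcases tri' (Ψ x) with e | e | e
  · exact e
  · obtain ⟨z, hz, rfl⟩ := (h x).1 e
    exact absurd hx (not_RR hz)
  · obtain ⟨z, hz, rfl⟩ := (h' x).1 e
    exact absurd hx (not_RR hz)

theorem Keeps.fn {s : ℝ} {Ψ : S → S} (h : Keeps s Ψ) {z : ℂ} (hz : z ∈ Hs s) :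
    Ψ z = (fn Ψ z : ℂ) ∧ fn Ψ z ∈ Hs s := by
  obtain ⟨w, hw, e⟩ := (h z).2 ⟨z, hz, rfl⟩
  have : AN.fn Ψ z = w := by simp [AN.fn, e]
  rw [this]; exact ⟨e, hw⟩

theorem Keeps.comp {s : ℝ} {Ψ Φ : S → S} (h : Keeps s Ψ) (k : Keeps s Φ) :
    Keeps s fun x => Φ (Ψ x) := fun x => (k (Ψ x)).trans (h x)

theorem keeps_ext {s : ℝ} {e : ℂ ≃ₜ ℂ} (h : ∀ z, e z ∈ Hs s ↔ z ∈ Hs s) : Keeps s (ext e) := by
  intro x
  cases x using OnePoint.rec with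
  | infty => simp [ext_inf']
  | coe w =>
    simp only [ext_coe', OnePoint.coe_eq_coe]
    exact ⟨fun ⟨z, hz, e⟩ => ⟨w, (h w).1 (e ▸ hz), rfl⟩,
      fun ⟨z, hz, e⟩ => ⟨_, (h w).2 (e ▸ hz), rfl⟩⟩

theorem fn_ext (e : ℂ ≃ₜ ℂ) : fn (ext e) = e := funext fun _ => rfl

theorem DQ.trans (hD : St_DIST) {K K' s : ℝ} {Ψ Φ : S ≃ₜ S} (hs : s = 1 ∨ s = -1) (hK : 0 ≤ K)
    (hK' : 0 ≤ K') (h : DQ K s Ψ) (k : DQ K' s Φ) : DQ (K * K') s (Ψ.trans Φ) := by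
  refine ⟨h.1.comp k.1, h.2.1.comp k.2.1, fun z hz => ?_⟩
  have hk : Keeps s Ψ := by rcases hs with rfl | rfl; exacts [h.1, h.2.1]
  refine hD.2.2.2.2.2.1 _ _ _ _ z le_rfl
    (hD.1 K K' (fn Ψ) (fn Φ) z hK hK' (h.2.2 z hz) (k.2.2 _ (hk.fn hz).2)) ?_
  filter_upwards [(isOpen_Hs s).mem_nhds hz] with w hw
  simp only [Function.comp, fn, Homeomorph.trans_apply]
  rw [(hk.fn hw).1]
  rfl

theorem three : (∞ : FA.P) ≠ ((0 : ℚ) : FA.P) ∧ (∞ : FA.P) ≠ ((1 : ℚ) : FA.P) ∧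
    ((0 : ℚ) : FA.P) ≠ ((1 : ℚ) : FA.P) :=
  ⟨(OnePoint.coe_ne_infty _).symm, (OnePoint.coe_ne_infty _).symm, by simp⟩

end Pool.Agent.Lib.THU.AN
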