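import Pool.Agent.Lib.THU.AN.Defs
import Pool.Agent.Lib.THU.EC.CV

/-!
Calculus of the distortion, and holomorphic homeomorphisms of the plane.
-/

namespace Pool.Agent.Lib.THU.AN

open Filter Topology Set Complex
open scoped ComplexConjugate NNReal
open Pool.Agent.Lib.THU

/-- an injective holomorphic germ has nonzero derivative -/
theorem deriv_ne_zero_of_injOn {f : ℂ → ℂ} {z : ℂ} {O : Set ℂ} (hO : O ∈ 𝓝 z)
    (hf : AnalyticAt ℂ f z) (hi : InjOn f O) : deriv f z ≠ 0 := by
  intro h0
  have nc : ¬ ∀ᶠ w in 𝓝 z, f w - f z = 0 := fun h => by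
    have : ∀ᶠ w in 𝓝[≠] z, False := by
      filter_upwards [self_mem_nhdsWithin, nhdsWithin_le_nhds h, nhdsWithin_le_nhds hO]
        with w a b c
      exact a (hi c (mem_of_mem_nhds hO) (sub_eq_zero.1 b))
    exact this.exists.choose_spec
  obtain ⟨k, u, hu, u0, e⟩ :=
    (hf.sub (analyticAt_const (v := f z))).exists_eventuallyEq_pow_smul_nonzero_iff.2 nc
  simp only [Pi.sub_apply, smul_eq_mul] at e
  have k2 : 2 ≤ k := by
    rcases k with _ | _ | k
    · exact absurd (by simpa using e.self_of_nhds.symm) u0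
    · exfalso
      have d := ((hasDerivAt_id z).sub_const z).mul hu.differentiableAt.hasDerivAt
      have d' : HasDerivAt (fun w => f w - f z) 0 z :=
        (h0 ▸ hf.differentiableAt.hasDerivAt).sub_const _
      have := d'.unique (d.congr_of_eventuallyEq (e.mono fun w a => by simpa using a))
      exact u0 (by simpa using this.symm)
    · omega
  have k0 : (k : ℂ) ≠ 0 := Nat.cast_ne_zero.2 (by omega)
  have ha : AnalyticAt ℂ (fun w => (w - z) * exp (log (u w / u z) / k)) z :=
    (analyticAt_id.sub analyticAt_const).mul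
      (((hu.div_const).clog (by simp [u0])).div_const).cexp
  have e' : ∀ᶠ w in 𝓝 z, f w - f z = ((w - z) * exp (log (u w / u z) / k)) ^ k * u z := by
    filter_upwards [e, hu.continuousAt.eventually_ne u0] with w a b
    rw [a, mul_pow, ← exp_nat_mul, mul_div_cancel₀ _ k0, exp_log (div_ne_zero b u0), mul_assoc,
      div_mul_cancel₀ _ u0]
  rcases ha.eventually_constant_or_nhds_le_map_nhds with c | c
  · refine nc ?_
    filter_upwards [c, e'] with w a b
    rw [b, a]; simp [show k ≠ 0 by omega]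
  · simp only [sub_self, zero_mul] at c
    have hS := c (image_mem_map (e'.and hO))
    have hζ := isPrimitiveRoot_exp k (by omega)
    set ζ := exp (2 * Real.pi * I / k)
    have t : Tendsto (fun t : ℂ => ζ * t) (𝓝 0) (𝓝 0) := by
      simpa using (continuous_const_mul ζ).tendsto 0
    have : ∀ᶠ t : ℂ in 𝓝[≠] 0, False := by
      filter_upwards [self_mem_nhdsWithin, nhdsWithin_le_nhds hS, nhdsWithin_le_nhds (t hS)]
        with t t0 ⟨x, hx, ex⟩ ⟨y, hy, ey⟩
      simp only at ex ey
      have : x = y := hi hx.2 hy.2 (by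
        have := hx.1.trans (hy.1.trans (by rw [ex, ey, mul_pow, hζ.pow_eq_one, one_mul])).symm
        exact sub_left_injective this)
      subst this
      exact hζ.ne_one (by omega) (mul_right_cancel₀ t0 (by rw [← ey, ex, one_mul]))
    exact this.exists.choose_spec

theorem Dist.one_le {K : ℝ} {f : ℂ → ℂ} {z : ℂ} (h : Dist K f z) : 1 ≤ K := by
  have a := EC.CV.det_le (fderiv ℝ f z) 1
  have b := (fderiv ℝ f z).le_opNorm 1
  rw [norm_one, mul_one] at a b
  refine le_of_mul_le_mul_right ?_ (abs_pos.2 h.2.1)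
  nlinarith [h.2.2, norm_nonneg (fderiv ℝ f z)]

theorem stDIST : St_DIST := by
  refine ⟨fun K K' f g z k k' h h' => ?_, fun K f g z h c e r => ?_, fun O f o d i z hz => ?_,
    fun f g z d h c e r => ?_, fun z => ⟨?_, ?_, ?_⟩, fun K K' f g z k h e => ?_,
    fun _ _ _ => Dist.one_le⟩
  · have a := h.1.differentiableAt one_ne_zero
    have b := h'.1.differentiableAt one_ne_zero
    refine ⟨h'.1.comp z h.1, ?_, ?_⟩
    · rw [fderiv_comp z b a, EC.CV.det_comp]; exact mul_ne_zero h'.2.1 h.2.1
    · lift K to ℝ≥0 using k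
      lift K' to ℝ≥0 using k'
      exact_mod_cast EC.stDIST.2.2.1 K K' f g {z} (by simpa) (by simpa) (fun _ e => e ▸ h.2.2)
        (by rintro _ ⟨_, rfl, rfl⟩; exact h'.2.2) z rfl
  · set A := (fderiv ℝ f z).toContinuousLinearEquivOfDetNeZero h.2.1
    have d : HasFDerivAt f (A : ℂ →L[ℝ] ℂ) z := (h.1.differentiableAt one_ne_zero).hasFDerivAt
    have s := h.1.hasStrictFDerivAt' d one_ne_zero
    have t : Tendsto g (𝓝 (f z)) (𝓝 z) := by simpa [ContinuousAt, e] using c
    have q : g =ᶠ[𝓝 (f z)] h.1.localInverse d one_ne_zero := by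
      filter_upwards [r, t s.eventually_left_inverse] with w a b
      rw [← a]; exact (congrArg g a).trans (Eq.symm b)
    have dg := (HasFDerivAt.of_local_left_inverse c (e.symm ▸ d) r).fderiv
    have i : ∀ v, (A.symm : ℂ →L[ℝ] ℂ) (fderiv ℝ f z v) = v := A.symm_apply_apply
    refine ⟨(h.1.to_localInverse d one_ne_zero).congr_of_eventuallyEq q, ?_, ?_⟩
    · rw [dg]; exact A.symm.toLinearEquiv.isUnit_det'.ne_zero
    · have k := zero_le_one.trans h.one_le
      lift K to ℝ≥0 using k
      rw [dg]; exact EC.stDIST.2.2.2.1 K _ _ i h.2.2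
  · have a := d.analyticAt (o.mem_nhds hz)
    have n := deriv_ne_zero_of_injOn (o.mem_nhds hz) a i
    refine ⟨n, a.contDiffAt.restrict_scalars ℝ, ?_, ?_⟩
    · rw [(a.differentiableAt.hasDerivAt.hasFDerivAt.restrictScalars ℝ).fderiv, EC.CV.det_eq]
      simpa [normSq_apply] using (normSq_pos.2 n).ne'
    · exact_mod_cast EC.stDIST.1 f {z} (fun _ e => e ▸ a.differentiableAt) z rfl
  · exact (HasDerivAt.of_local_left_inverse c (e.symm ▸ d.self_of_nhds.hasDerivAt) h
      r).differentiableAt
  · exact conjCLE.contDiff.contDiffAt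
  · rw [show fderiv ℝ (fun z : ℂ => conj z) z = (conjCLE : ℂ →L[ℝ] ℂ) from
      (conjCLE : ℂ →L[ℝ] ℂ).fderiv, EC.CV.det_eq]
    simp
  · exact_mod_cast EC.stDIST.2.1 {z} z rfl
  · have e' : fderiv ℝ f z = fderiv ℝ g z := e.fderiv_eq
    refine ⟨h.1.congr_of_eventuallyEq e.symm, e' ▸ h.2.1, e' ▸ h.2.2.trans ?_⟩
    gcongr

theorem stAFF : St_AFF := fun h d => by
  set g : ℂ → ℂ := fun z => (h z⁻¹ - h 0)⁻¹ with hg
  have g0 : g 0 = 0 := by simp [hg]
  have gi : Function.Injective g := fun x y e =>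
    inv_injective (h.injective (sub_left_injective (inv_injective e)))
  have t1 : Tendsto (fun z => h z - h 0) (cocompact ℂ) (cocompact ℂ) :=
    (h.trans (Homeomorph.subRight (h 0))).isClosedEmbedding.tendsto_cocompact
  rw [← Metric.cobounded_eq_cocompact] at t1
  have a : AnalyticAt ℂ g 0 := by
    refine analyticAt_of_differentiable_on_punctured_nhds_of_continuousAt ?_ ?_
    · filter_upwards [self_mem_nhdsWithin] with z hz
      exact (((d _).comp z (differentiableAt_inv hz)).sub_const _).inv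
        (sub_ne_zero.2 fun e => hz (inv_eq_zero.1 (h.injective e)))
    · rw [← continuousWithinAt_compl_self, ContinuousWithinAt, g0]
      exact tendsto_inv₀_cobounded.comp (t1.comp tendsto_inv₀_nhdsNE_zero)
  have n := deriv_ne_zero_of_injOn univ_mem a gi.injOn
  have t2 := (hasDerivAt_iff_tendsto_slope.1 a.differentiableAt.hasDerivAt).inv₀ n
  have t3 : Tendsto (dslope h 0) (cocompact ℂ) (𝓝 (deriv g 0)⁻¹) := by
    rw [← Metric.cobounded_eq_cocompact]
    refine (t2.comp tendsto_inv₀_cobounded').congr' ?_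
    filter_upwards [Bornology.eventually_ne_cobounded 0] with w hw
    rw [dslope_of_ne _ hw]
    simp [slope, hg, mul_comm]
  have dd : Differentiable ℂ (dslope h 0) :=
    differentiableOn_univ.1 ((differentiableOn_dslope univ_mem).2 d.differentiableOn)
  refine ⟨(deriv g 0)⁻¹, h 0, inv_ne_zero n, fun z => ?_⟩
  have := sub_smul_dslope h 0 z
  rw [dd.apply_eq_of_tendsto_cocompact z t3, sub_zero, smul_eq_mul] at this
  linear_combination -this

end Pool.Agent.Lib.THU.AN
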