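import Pool.Agent.Lib.THU.NB.Defs
import Pool.Agent.Lib.THU.FA.Defs
import Pool.Agent.Lib.THU.EC.Defs

/-!
Analytic half of the hyperbolization of fibred manifolds: definitions and block statements.
Paper: team store, file thurston93_AN.md.
-/

namespace Pool.Agent.Lib.THU.AN

open Matrix OnePoint Filter Topology MeasureTheory Set
open scoped Classical ComplexConjugate
open Pool.Agent.Lib.THU

/-- the Riemann sphere -/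
abbrev S : Type := OnePoint ℂ

/-- complex matrices, acting on the sphere by Moebius maps (Mathlib action) -/
abbrev GC : Type := GL (Fin 2) ℂ

/-- a homeomorphism of the plane seen on the sphere -/
noncomputable def ext (h : ℂ ≃ₜ ℂ) : S ≃ₜ S := h.onePointCongr

/-- complex conjugation of the plane -/
noncomputable def cjc : ℂ ≃ₜ ℂ := Complex.conjCLE.toHomeomorph

/-- complex conjugation of the sphere -/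
noncomputable def cj : S ≃ₜ S := ext cjc

/-- finite part of a map of the sphere -/
noncomputable def fn (Θ : S → S) (z : ℂ) : ℂ := (Θ (z : S)).elim 0 id

/-- the point of a vector -/
noncomputable def pt (x : Fin 2 → ℂ) : S := if x 1 = 0 then ∞ else ((x 0 / x 1 : ℂ) : S)

/-- the vector of a point -/
def vec (x : S) : Fin 2 → ℂ := x.elim ![1, 0] fun z => ![z, 1]

/-- the cusps on the sphere -/
def emb (p : FA.P) : S := OnePoint.map (fun q : ℚ => (q : ℂ)) p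

/-- Moebius or anti Moebius -/
def AM (Θ : S → S) : Prop := ∃ A : GC, (∀ x, Θ x = A • x) ∨ ∀ x, Θ x = A • cj x

/-- `C¹` at `z` with invertible derivative of distortion at most `K` -/
def Dist (K : ℝ) (f : ℂ → ℂ) (z : ℂ) : Prop :=
  ContDiffAt ℝ 1 f z ∧ (fderiv ℝ f z).det ≠ 0 ∧ ‖fderiv ℝ f z‖ ^ 2 ≤ K * |(fderiv ℝ f z).det|

/-- the open half planes, `s = 1` upper, `s = -1` lower -/
def Hs (s : ℝ) : Set ℂ := {z | 0 < s * z.im}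

/-- a map of the sphere that keeps the half plane `Hs s` -/
def Keeps (s : ℝ) (Ψ : S → S) : Prop := ∀ x : S, (∃ z ∈ Hs s, Ψ x = (z : S)) ↔ ∃ z ∈ Hs s, x = (z : S)

/-- a homeomorphism of the sphere keeping both half planes, `C¹` with distortion at most `K` on
the half plane `Hs s` -/
def DQ (K s : ℝ) (Ψ : S ≃ₜ S) : Prop :=
  Keeps 1 Ψ ∧ Keeps (-1) Ψ ∧ ∀ z ∈ Hs s, Dist K (fn Ψ) z

/-- the real circle -/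
def RR : Set S := {x | x = ∞ ∨ ∃ r : ℝ, x = ((r : ℂ) : S)}

/-- equality of cross ratios -/
def CRE (x y : Fin 4 → ℂ) : Prop :=
  (y 0 - y 1) * (y 2 - y 3) * ((x 0 - x 2) * (x 1 - x 3)) =
    (y 0 - y 2) * (y 1 - y 3) * ((x 0 - x 1) * (x 2 - x 3))

/-- The interface of the energy calculus: quasiconformal homeomorphisms of the plane and
removable sets. -/
structure EI where
  QC : ℝ → (ℂ ≃ₜ ℂ) → Prop
  Rem : Set ℂ → Prop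
  mono : ∀ K K' h, K ≤ K' → QC K h → QC K' h
  symm : ∀ K h, QC K h → QC K h.symm
  cnj : ∀ K h, QC K h → QC K (h.trans cjc)
  c1 : ∀ K, ∃ K', ∀ h : ℂ ≃ₜ ℂ, (∀ z, Dist K h z) → QC K' h
  qs : ∀ K R, ∃ M, ∀ h, QC K h → ∀ x y z : ℂ, ‖y - x‖ ≤ R * ‖z - x‖ →
    ‖h y - h x‖ ≤ M * ‖h z - h x‖
  cpt : ∀ K, ∃ K', ∀ (U : Ultrafilter ℕ) (h : ℕ → ℂ ≃ₜ ℂ) (x y : ℕ → ℂ) (a b a' b' : ℂ),
    (∀ n, QC K (h n)) → Tendsto x U (𝓝 a) → Tendsto y U (𝓝 b) → a ≠ b →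
    Tendsto (fun n => h n (x n)) U (𝓝 a') → Tendsto (fun n => h n (y n)) U (𝓝 b') → a' ≠ b' →
    ∃ g : ℂ ≃ₜ ℂ, QC K' g ∧ TendstoLocallyUniformly (fun n => (h n : ℂ → ℂ)) g U ∧
      TendstoLocallyUniformly (fun n => ((h n).symm : ℂ → ℂ)) g.symm U
  hol : ∀ (K : ℝ) (U : Ultrafilter ℕ) (O : Set ℂ) (g : ℕ → ℂ → ℂ) (f : ℂ → ℂ), IsOpen O →
    (∀ n, InjOn (g n) O) → (∀ n, ∀ z ∈ O, Dist K (g n) z) → TendstoLocallyUniformlyOn g f U O →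
    (∀ Q ⊆ O, IsCompact Q → ∀ ε > 0, ∀ᶠ n in U, ∀ z ∈ Q, ∀ v : ℂ,
      ‖fderiv ℝ (g n) z (Complex.I * v) - Complex.I * fderiv ℝ (g n) z v‖ ≤
        ε * ‖fderiv ℝ (g n) z‖ * ‖v‖) → DifferentiableOn ℂ f O
  rem : ∀ (K K' : ℝ) (W : ℂ ≃ₜ ℂ), QC K W → (∀ z : ℂ, z.im ≠ 0 → Dist K' W z) →
    Rem (W '' {z | z.im = 0})
  remm : ∀ (Λ : Set ℂ) (A : GC), Rem Λ →
    Rem {z : ℂ | A • (z : S) = ∞ ∨ ∃ w ∈ Λ, A • (z : S) = (w : S)}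
  qoff : ∀ K, ∃ K', ∀ (h : ℂ ≃ₜ ℂ) (Λ : Set ℂ), Rem Λ → Rem (h '' Λ) →
    (∀ z ∉ Λ, Dist K h z) → QC K' h
  hoff : ∀ (h : ℂ ≃ₜ ℂ) (Λ : Set ℂ), Rem Λ → (∀ z ∉ Λ, DifferentiableAt ℂ h z) →
    Differentiable ℂ h
  diff : ∀ K h, QC K h → (∀ᵐ z : ℂ, DifferentiableAt ℝ h z) ∧
    ((∀ᵐ z : ℂ, DifferentiableAt ℂ h z) → Differentiable ℂ h)

/-- quasiconformal homeomorphisms of the sphere -/
def SQC (E : EI) (K : ℝ) (Θ : S → S) : Prop :=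
  ∀ A B : GC, B • Θ (A • (∞ : S)) = ∞ →
    ∃ h : ℂ ≃ₜ ℂ, E.QC K h ∧ ∀ x : S, B • Θ (A • x) = ext h x

/-- a conformal welding: `W` is conformal below, `W ∘ e⁻¹` is conformal above -/
structure Weld (E : EI) (e W : ℂ ≃ₜ ℂ) : Prop where
  keep : ∀ s, s = 1 ∨ s = -1 → ∀ z, e z ∈ Hs s ↔ z ∈ Hs s
  dist : ∃ K, ∀ z ∈ Hs 1, Dist K e z
  qc : ∃ K, E.QC K W
  lo : DifferentiableOn ℂ W (Hs (-1))
  up : DifferentiableOn ℂ (fun z => W (e.symm z)) (Hs 1)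

/-- The model: the fibre group acts on the cusps through a lattice, and every element of `G`
extends to a homeomorphism of the sphere with bounded distortion off the real circle. -/
structure Mod {G : Type} [Group G] [MulAction G FA.P] (C : NB.Cusp G FA.P) where
  σ : C.d.ker →* FA.GZ
  lat : FA.Lat σ
  act : ∀ (x : C.d.ker) (p : FA.P), (x : G) • p = σ x • p
  detc : ∀ (g : G) (x y : C.d.ker), (y : G) = g * x * g⁻¹ →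
    ((σ y : FA.GZ) : Matrix (Fin 2) (Fin 2) ℤ).det = ((σ x : FA.GZ) : Matrix (Fin 2) (Fin 2) ℤ).det
  qce : ∀ g : G, ∃ (A : FA.GZ) (e : ℂ ≃ₜ ℂ) (K : ℝ),
    (∀ s, s = 1 ∨ s = -1 → ∀ z, e z ∈ Hs s ↔ z ∈ Hs s) ∧
    (∀ z : ℂ, z.im ≠ 0 → Dist K e z ∧ 0 < (fderiv ℝ e z).det) ∧
    ∀ p : FA.P, emb (g • p) = FA.cst ℂ A • ext e (emb p)

/-- the extension of an integral matrix to the sphere that keeps both half planes -/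
noncomputable def gz (A : FA.GZ) (x : S) : S :=
  if (A : Matrix (Fin 2) (Fin 2) ℤ).det = 1 then FA.cst ℂ A • x else FA.cst ℂ A • cj x

/-! ### Block statements -/

/-- the energy calculus (helper9) -/
def St_EI : Prop := Nonempty EI

/-- the field `hol` of `EI` -/
def St_HOL : Prop := ∀ (K : ℝ) (U : Ultrafilter ℕ) (O : Set ℂ) (g : ℕ → ℂ → ℂ) (f : ℂ → ℂ),
  IsOpen O → (∀ n, InjOn (g n) O) → (∀ n, ∀ z ∈ O, Dist K (g n) z) →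
  TendstoLocallyUniformlyOn g f U O →
  (∀ Q ⊆ O, IsCompact Q → ∀ ε > 0, ∀ᶠ n in U, ∀ z ∈ Q, ∀ v : ℂ,
    ‖fderiv ℝ (g n) z (Complex.I * v) - Complex.I * fderiv ℝ (g n) z v‖ ≤
      ε * ‖fderiv ℝ (g n) z‖ * ‖v‖) → DifferentiableOn ℂ f O

/-- the field `remm` of `EI` -/
def St_REMM : Prop := ∀ (Λ : Set ℂ) (A : GC), EC.Rem Λ →
  EC.Rem {z : ℂ | A • (z : S) = ∞ ∨ ∃ w ∈ Λ, A • (z : S) = (w : S)}

/-- Moebius maps are continuous on the sphere -/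
def St_MOB : Prop := ∀ A : GC, Continuous fun x : S => A • x

/-- calculus of `Dist` -/
def St_DIST : Prop :=
  (∀ (K K' : ℝ) (f g : ℂ → ℂ) (z : ℂ), 0 ≤ K → 0 ≤ K' → Dist K f z → Dist K' g (f z) →
    Dist (K * K') (g ∘ f) z) ∧
  (∀ (K : ℝ) (f g : ℂ → ℂ) (z : ℂ), Dist K f z → ContinuousAt g (f z) → g (f z) = z →
    (∀ᶠ w in 𝓝 (f z), f (g w) = w) → Dist K g (f z)) ∧
  (∀ (O : Set ℂ) (f : ℂ → ℂ), IsOpen O → DifferentiableOn ℂ f O → InjOn f O →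
    ∀ z ∈ O, deriv f z ≠ 0 ∧ Dist 1 f z) ∧
  (∀ (f g : ℂ → ℂ) (z : ℂ), (∀ᶠ w in 𝓝 z, DifferentiableAt ℂ f w) → deriv f z ≠ 0 →
    ContinuousAt g (f z) → g (f z) = z → (∀ᶠ w in 𝓝 (f z), f (g w) = w) →
    DifferentiableAt ℂ g (f z)) ∧
  (∀ z : ℂ, Dist 1 (fun w : ℂ => conj w) z) ∧
  (∀ (K K' : ℝ) (f g : ℂ → ℂ) (z : ℂ), K ≤ K' → Dist K f z → f =ᶠ[𝓝 z] g → Dist K' g z) ∧
  ∀ (K : ℝ) (f : ℂ → ℂ) (z : ℂ), Dist K f z → 1 ≤ K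

/-- holomorphic homeomorphisms of the plane are affine -/
def St_AFF : Prop := ∀ h : ℂ ≃ₜ ℂ, Differentiable ℂ h → ∃ a b : ℂ, a ≠ 0 ∧ ∀ z, h z = a * z + b

/-- integral matrices on the sphere -/
def St_GZ : Prop := ∀ A : FA.GZ, ∃ Ψ : S ≃ₜ S, (∀ x, Ψ x = gz A x) ∧ DQ 1 1 Ψ ∧ DQ 1 (-1) Ψ ∧
  (∀ x ∈ RR, Ψ x = FA.cst ℂ A • x) ∧ (∀ p, Ψ (emb p) = emb (A • p)) ∧
  (∀ z : ℂ, z.im ≠ 0 → if (A : Matrix (Fin 2) (Fin 2) ℤ).det = 1 then DifferentiableAt ℂ (fn Ψ) z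
    else DifferentiableAt ℂ (fun w => conj (fn Ψ w)) z)

/-- the cusps are dense in the real circle -/
def St_DENSE : Prop := (∀ p, emb p ∈ RR) ∧ Function.Injective emb ∧ IsClosed RR ∧
  ∀ f g : S → S, Continuous f → Continuous g → (∀ p, f (emb p) = g (emb p)) → ∀ x ∈ RR, f x = g x

/-- existence of weldings (uses Tor.sm, DIST) -/
def St_WELD : Prop := ∀ (E : EI) (e : ℂ ≃ₜ ℂ) (K : ℝ),
  (∀ s, s = 1 ∨ s = -1 → ∀ z, e z ∈ Hs s ↔ z ∈ Hs s) → (∀ z ∈ Hs 1, Dist K e z) →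
  (∀ z ∈ Hs 1, 0 < (fderiv ℝ e z).det) → ∃ W, Weld E e W

/-- gluing: `Ψ` acts below, `Φ` acts above (uses MOB, DIST, AFF) -/
def St_GLUE : Prop := ∀ (E : EI) (K : ℝ), ∃ K' : ℝ, ∀ (e W : ℂ ≃ₜ ℂ), Weld E e W →
  ∀ Ψ Φ : S ≃ₜ S, DQ K (-1) Ψ → DQ K 1 Φ → (∀ x ∈ RR, ext e (Ψ x) = Φ (ext e x)) →
  ∃ Θ : S ≃ₜ S, (∀ x : S, (x ∈ RR ∨ ∃ z ∈ Hs (-1), x = (z : S)) → Θ (ext W x) = ext W (Ψ x)) ∧
    (∀ z ∈ Hs 1, Θ (ext W ((ext e).symm (z : S))) = ext W ((ext e).symm (Φ z))) ∧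
    SQC E K' Θ ∧
    ((∀ z ∈ Hs (-1), DifferentiableAt ℂ (fn Ψ) z) → (∀ z ∈ Hs 1, DifferentiableAt ℂ (fn Φ) z) →
      ∃ A : GC, ∀ x, Θ x = A • x) ∧
    ((∀ z ∈ Hs (-1), DifferentiableAt ℂ (fun w => conj (fn Ψ w)) z) →
      (∀ z ∈ Hs 1, DifferentiableAt ℂ (fun w => conj (fn Φ w)) z) →
      ∃ A : GC, ∀ x, Θ x = A • cj x)

/-- Koebe type estimate -/
def St_KOE : Prop := ∃ c : ℝ, ∀ (V : ℂ → ℂ) (a : ℂ), DifferentiableOn ℂ V (Metric.ball 0 1) →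
  InjOn V (Metric.ball 0 1) → (∀ z ∈ Metric.ball (0 : ℂ) 1, V z ≠ a) → ‖deriv V 0‖ ≤ c * ‖V 0 - a‖

/-- end bound (uses KOE) -/
def St_END : Prop := ∀ z₀ z₁ : ℂ, z₀ ∈ Hs 1 → z₁ ∈ Hs 1 → ∃ M : ℝ, ∀ (V : ℂ → ℂ) (A : GC),
  DifferentiableOn ℂ V (Hs 1) → InjOn V (Hs 1) → (A : Matrix (Fin 2) (Fin 2) ℂ).det = 1 →
  A • ((V z₀ : ℂ) : S) = (V z₁ : ℂ) → (∀ z ∈ Hs 1, A • ((V z : ℂ) : S) ≠ (V z : ℂ)) →
  ‖(A : Matrix (Fin 2) (Fin 2) ℂ).trace‖ ≤ M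

/-- linear algebra of the projective line -/
def St_VEC : Prop :=
  (∀ x : S, pt (vec x) = x) ∧ (∀ x : S, vec x ≠ 0) ∧
  (∀ x y : Fin 2 → ℂ, x ≠ 0 → y ≠ 0 → (NB.om x y = 0 ↔ pt x = pt y)) ∧
  (∀ (A : GC) (x : Fin 2 → ℂ), x ≠ 0 → pt ((A : Matrix (Fin 2) (Fin 2) ℂ) *ᵥ x) = A • pt x) ∧
  (∀ x : Fin 2 → ℂ, pt (star x) = cj (pt x)) ∧
  (∀ A : GC, ∃ B : GC, (B : Matrix (Fin 2) (Fin 2) ℂ).det = 1 ∧ ∀ x : S, B • x = A • x) ∧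
  (∀ (A : GC) (a : S), (A : Matrix (Fin 2) (Fin 2) ℂ).det = 1 → (∀ x : S, A • x = x → x = a) →
    (A : Matrix (Fin 2) (Fin 2) ℂ).trace = 2 ∨ (A : Matrix (Fin 2) (Fin 2) ℂ).trace = -2) ∧
  (∀ (A B : GC) (a b c : S), (A : Matrix (Fin 2) (Fin 2) ℂ).det = 1 →
    (B : Matrix (Fin 2) (Fin 2) ℂ).det = 1 → a ≠ b → a ≠ c → b ≠ c → A • a = B • a →
    A • b = B • b → A • c = B • c → A = B ∨ A = -B) ∧
  (∀ a : S, ∃ A : GC, A • (∞ : S) = a) ∧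
  ∀ A : GC, ∃ B : GC, ∀ x : S, cj (A • x) = B • cj x

/-- discreteness -/
def St_DISC : Prop := ∀ J : S ≃ₜ S, ∃ ε > 0, ∀ (A : GC) (B : FA.GZ),
  (∀ i j, ‖(A : Matrix (Fin 2) (Fin 2) ℂ) i j - (1 : Matrix (Fin 2) (Fin 2) ℂ) i j‖ < ε) →
  (∀ p : FA.P, A • J (emb p) = J (emb (B • p))) → B = 1 ∨ B = -1

/-- integral matrices: fixed points and determinants -/
def St_FIXZ : Prop := ∀ (F : Type) [Group F] (σ : F →* FA.GZ), FA.Lat σ → ∀ x : F, x ≠ 1 →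
  (((σ x : FA.GZ) : Matrix (Fin 2) (Fin 2) ℤ).det = 1 →
    ∀ z : ℂ, z.im ≠ 0 → FA.cst ℂ (σ x) • (z : S) ≠ (z : S)) ∧
  ∀ a : FA.P, σ x • a = a → ((σ x : FA.GZ) : Matrix (Fin 2) (Fin 2) ℤ).det = 1 ∧
    ∀ y ∈ RR, FA.cst ℂ (σ x) • y = y → y = emb a

/-- power quasi Moebius bound (uses VEC) -/
def St_QM : Prop := ∀ (E : EI) (K : ℝ), ∃ L B : ℝ, ∀ (P : Type) (Θ : S ≃ₜ S) (v w : P → Fin 2 → ℂ),
  SQC E K Θ → (∀ p, v p ≠ 0) → (∀ p, w p ≠ 0) → (∀ p, pt (w p) = Θ (pt (v p))) →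
  (∀ a b, a ≠ b → NB.om (v a) (v b) ≠ 0) → ∀ a b c e, NB.Dis a b c e →
    NB.crl w a b c e ≤ L * max (NB.crl v a b c e) 0 + B ∧
    NB.crl v a b c e ≤ L * max (NB.crl w a b c e) 0 + B

/-- the thick property at the point `ξ` -/
def Thick (h : ℂ → ℂ) (B : ℝ) (ξ : ℂ) : Prop :=
  ∀ r₀ > (0 : ℝ), ∃ r : ℝ, 0 < r ∧ r < r₀ ∧ ∃ a b c d : ℂ, a * d - b * c = 1 ∧ ‖a‖ ≤ B ∧ ‖b‖ ≤ B ∧
    ‖c‖ ≤ B ∧ ‖d‖ ≤ B ∧ 1 ≤ B * ‖c‖ ∧ ∀ x : Fin 4 → ℂ, (∀ i, c * x i + d ≠ 0) →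
      CRE (fun i => h (ξ + r * x i)) fun i => h (ξ + r * ((a * x i + b) / (c * x i + d)))

/-- zoom at a point of differentiability -/
def St_ZOOM : Prop := ∀ (h : ℂ → ℂ) (B : ℝ) (ξ α β : ℂ), Thick h B ξ →
  HasFDerivAt h (α • (ContinuousLinearMap.id ℝ ℂ) + β • (Complex.conjCLE : ℂ →L[ℝ] ℂ)) ξ →
  ‖α‖ ≠ ‖β‖ → α = 0 ∨ β = 0

/-- the sign of the Jacobian of a homeomorphism -/
def St_SGN : Prop := ∀ (h : ℂ ≃ₜ ℂ) (ξ η α β : ℂ), α ≠ 0 → β ≠ 0 → HasDerivAt h α ξ →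
  HasDerivAt (fun z => conj (h z)) β η → False

/-- rigidity (uses ZOOM, SGN, AFF) -/
def St_RIG : Prop := ∀ (E : EI) (K B : ℝ) (h : ℂ ≃ₜ ℂ) (Bad : Set ℂ), E.QC K h → Bad.Countable →
  (∀ ξ ∉ Bad, Thick h B ξ) →
  ∃ a b : ℂ, a ≠ 0 ∧ ((∀ z, h z = a * z + b) ∨ ∀ z, h z = a * conj z + b)

/-- the export of the analytic half -/
def St_AN : Prop := ∀ (E : EI) (G : Type) [Group G] [MulAction G FA.P] (C : NB.Cusp G FA.P),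
  Nonempty (Mod C) → ∃ (v : ℕ → FA.P → Fin 2 → ℂ) (K L B : ℝ), (∀ n, NB.Rep C (v n)) ∧
  (∀ n p, v n p ≠ 0) ∧
  (∀ n a b c e, NB.Dis a b c e →
    NB.crl (v n) (C.t • a) (C.t • b) (C.t • c) (C.t • e) ≤ L * max (NB.crl (v n) a b c e) 0 + B ∧
    NB.crl (v n) (C.t⁻¹ • a) (C.t⁻¹ • b) (C.t⁻¹ • c) (C.t⁻¹ • e) ≤
      L * max (NB.crl (v n) a b c e) 0 + B) ∧
  (∀ g ∈ C.d.ker, ∃ M : ℝ, ∀ (n : ℕ) (A : Matrix (Fin 2) (Fin 2) ℂ), A.det = 1 →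
    (NB.Rp (v n) A (C.t ^ (n : ℤ) * g * (C.t ^ (n : ℤ))⁻¹) ∨
      NB.Rp (v n) A (C.t ^ (-(n : ℤ)) * g * (C.t ^ (-(n : ℤ)))⁻¹)) → ‖A.trace‖ ≤ M) ∧
  ∀ (n : ℕ) (g : G) (N M : GC) (a : FA.P), N • pt (v n (g • a)) = ∞ →
    M • pt (v n (g • C.t • a)) = ∞ → ∃ h : ℂ ≃ₜ ℂ, E.QC K h ∧
      ∀ p, M • pt (v n (g • C.t • p)) = ext h (N • pt (v n (g • p)))

end Pool.Agent.Lib.THU.AN
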