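import Pool.Agent.Lib.THU.AN.Base

/-!
Assembly of the analytic half.
-/

namespace Pool.Agent.Lib.THU.AN

open Matrix OnePoint Filter Topology Set
open scoped Classical ComplexConjugate
open Pool.Agent.Lib.THU

section
variable {G : Type} [Group G] [MulAction G FA.P] {C : NB.Cusp G FA.P}

theorem conj_mem (C : NB.Cusp G FA.P) (s : G) {g : G} (hg : g ∈ C.d.ker) : s * g * s⁻¹ ∈ C.d.ker :=
  (MonoidHom.normal_ker C.d).conj_mem g hg s

/-- every element extends to the sphere -/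
theorem exists_psi (hD : St_DIST) (hZ : St_GZ) (hN : St_DENSE) (Mo : Mod C) (g : G) :
    ∃ (Ψ : S ≃ₜ S) (K : ℝ), 0 ≤ K ∧ DQ K 1 Ψ ∧ DQ K (-1) Ψ ∧ ∀ p, Ψ (emb p) = emb (g • p) := by
  obtain ⟨A, e, K, h1, h2, h3⟩ := Mo.qce g
  obtain ⟨Ψ, -, q1, q2, q3, -⟩ := hZ A
  have k1 := keeps_ext (h1 1 (Or.inl rfl))
  have k2 := keeps_ext (h1 (-1) (Or.inr rfl))
  have hK : 0 ≤ K := zero_le_one.trans (hD.2.2.2.2.2.2 K e Complex.I (h2 _ (by simp)).1)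
  have d : ∀ s, DQ K s (ext e) := fun s => ⟨k1, k2, fun z hz => by
    rw [fn_ext]; exact (h2 z (Hs_ne hz)).1⟩
  refine ⟨(ext e).trans Ψ, K * 1, by positivity, (d 1).trans hD (Or.inl rfl) hK zero_le_one q1,
    (d (-1)).trans hD (Or.inr rfl) hK zero_le_one q2, fun p => ?_⟩
  rw [Homeomorph.trans_apply, q3 _ (RR_of_keeps k1 k2 (hN.1 p)), h3]

/-- the data at level `n` -/
structure Lev (E : EI) (C : NB.Cusp G FA.P) (n : ℕ) where
  A : FA.GZ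
  e : ℂ ≃ₜ ℂ
  W : ℂ ≃ₜ ℂ
  weld : Weld E e W
  eq : ∀ p : FA.P, emb ((C.t ^ (-(2 * n : ℤ))) • p) = FA.cst ℂ A • ext e (emb p)

theorem exists_lev (hW : St_WELD) (E : EI) (Mo : Mod C) (n : ℕ) : Nonempty (Lev E C n) := by
  obtain ⟨A, e, K, h1, h2, h3⟩ := Mo.qce (C.t ^ (-(2 * n : ℤ)))
  obtain ⟨W, hw⟩ := hW E e K h1 (fun z hz => (h2 z (Hs_ne hz)).1) fun z hz => (h2 z (Hs_ne hz)).2
  exact ⟨⟨A, e, W, hw, h3⟩⟩

variable {E : EI} {n : ℕ}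

/-- the limit point of a cusp -/
noncomputable def Lev.io (L : Lev E C n) (p : FA.P) : S := ext L.W (emb ((C.t ^ (n : ℤ)) • p))

theorem Lev.io_inj (hN : St_DENSE) (L : Lev E C n) : Function.Injective L.io := fun _ _ h =>
  MulAction.injective _ (hN.2.1 ((ext L.W).injective h))

theorem Lev.k1 (L : Lev E C n) : Keeps 1 (ext L.e) := keeps_ext (L.weld.keep 1 (Or.inl rfl))
theorem Lev.k2 (L : Lev E C n) : Keeps (-1) (ext L.e) := keeps_ext (L.weld.keep (-1) (Or.inr rfl))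

theorem Lev.compat (hN : St_DENSE) (L : Lev E C n) (g : G) (Ψ Φ : S ≃ₜ S) (Φ0 : S → S)
    (h1 : ∀ p, Ψ (emb p) = emb ((C.t ^ (n : ℤ) * g * (C.t ^ (n : ℤ))⁻¹) • p))
    (h2 : ∀ p, Φ0 (emb p) = emb (((C.t ^ (n : ℤ))⁻¹ * g * (C.t ^ (n : ℤ))⁻¹⁻¹) • p))
    (h3 : ∀ p, Φ (ext L.e (emb p)) = FA.cst ℂ L.A⁻¹ • Φ0 (FA.cst ℂ L.A • ext L.e (emb p))) :
    ∀ x ∈ RR, ext L.e (Ψ x) = Φ (ext L.e x) := by
  refine hN.2.2.2 _ _ (by fun_prop) (by fun_prop) fun p => ?_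
  rw [h3, ← L.eq, h2, h1, map_inv, eq_inv_smul_iff, ← L.eq, ← mul_smul, ← mul_smul]
  congr 2
  group

theorem Lev.io_smul (L : Lev E C n) (hN : St_DENSE) {g : G} {Ψ Θ : S → S}
    (h1 : ∀ p, Ψ (emb p) = emb ((C.t ^ (n : ℤ) * g * (C.t ^ (n : ℤ))⁻¹) • p))
    (h : ∀ x : S, (x ∈ RR ∨ ∃ z ∈ Hs (-1), x = (z : S)) → Θ (ext L.W x) = ext L.W (Ψ x)) (p : FA.P) :
    Θ (L.io p) = L.io (g • p) := by
  rw [Lev.io, h _ (Or.inl (hN.1 _)), h1, Lev.io, ← mul_smul, ← mul_smul]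
  congr 3
  group

/-- the stable letter -/
theorem exists_theta (hD : St_DIST) (hZ : St_GZ) (hN : St_DENSE) (hG : St_GLUE) (Mo : Mod C)
    (E : EI) : ∃ K, ∀ (n : ℕ) (L : Lev E C n), ∃ Θ : S ≃ₜ S, SQC E K Θ ∧
      ∀ p, Θ (L.io p) = L.io (C.t • p) := by
  obtain ⟨Ψ, K, hK, d1, d2, hΨ⟩ := exists_psi hD hZ hN Mo C.t
  obtain ⟨K', hK'⟩ := hG E K
  refine ⟨K', fun n L => ?_⟩
  obtain ⟨P, -, p1, -, p3, -⟩ := hZ L.A
  obtain ⟨Q, -, q1, -, q3, -⟩ := hZ L.A⁻¹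
  have e1 : C.t ^ (n : ℤ) * C.t * (C.t ^ (n : ℤ))⁻¹ = C.t := by group
  have e2 : (C.t ^ (n : ℤ))⁻¹ * C.t * (C.t ^ (n : ℤ))⁻¹⁻¹ = C.t := by group
  have dq : DQ K 1 (P.trans (Ψ.trans Q)) := by
    simpa using p1.trans hD (Or.inl rfl) zero_le_one (by positivity)
      (d1.trans hD (Or.inl rfl) hK zero_le_one q1)
  obtain ⟨Θ, t1, -, t3, -⟩ := hK' L.e L.W L.weld Ψ _ d2 dq
    (L.compat hN C.t Ψ _ Ψ (by rw [e1]; exact hΨ) (by rw [e2]; exact hΨ) fun p => by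
      have r := RR_of_keeps L.k1 L.k2 (hN.1 p)
      rw [Homeomorph.trans_apply, Homeomorph.trans_apply, p3 _ r, q3]
      rw [← p3 _ r]
      exact RR_of_keeps d1.1 d1.2.1 (RR_of_keeps p1.1 p1.2.1 r))
  exact ⟨Θ, t3, L.io_smul hN (by rw [e1]; exact hΨ) t1⟩

/-- elements of the fibre group -/
theorem exists_mob (hV : St_VEC) (hZ : St_GZ) (hN : St_DENSE) (hG : St_GLUE) (Mo : Mod C)
    (L : Lev E C n) {g : G} (hg : g ∈ C.d.ker) :
    ∃ (A : GC) (Θ : S → S), (A : Matrix (Fin 2) (Fin 2) ℂ).det = 1 ∧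
      (∀ x, Θ x = if dz (Mo.σ ⟨g, hg⟩) = 1 then A • x else A • cj x) ∧
      (∀ p, Θ (L.io p) = L.io (g • p)) ∧
      (∀ x : S, (x ∈ RR ∨ ∃ z ∈ Hs (-1), x = (z : S)) →
        Θ (ext L.W x) = ext L.W (gz (Mo.σ ⟨_, conj_mem C (C.t ^ (n : ℤ)) hg⟩) x)) ∧
      ∀ z ∈ Hs 1, Θ (ext L.W ((ext L.e).symm (z : S))) = ext L.W ((ext L.e).symm
        (gz (L.A⁻¹ * Mo.σ ⟨_, conj_mem C (C.t ^ (n : ℤ))⁻¹ hg⟩ * L.A) z)) := by
  set x1 : C.d.ker := ⟨_, conj_mem C (C.t ^ (n : ℤ)) hg⟩ with hx1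
  set x2 : C.d.ker := ⟨_, conj_mem C (C.t ^ (n : ℤ))⁻¹ hg⟩ with hx2
  obtain ⟨Ψ, a0, -, a2, -, a4, a5⟩ := hZ (Mo.σ x1)
  obtain ⟨Φ, b0, b1, -, b3, -, b5⟩ := hZ (L.A⁻¹ * Mo.σ x2 * L.A)
  obtain ⟨Φ0, -, -, -, c3, c4, -⟩ := hZ (Mo.σ x2)
  obtain ⟨K', hK'⟩ := hG E 1
  have h1 : ∀ p, Ψ (emb p) = emb ((C.t ^ (n : ℤ) * g * (C.t ^ (n : ℤ))⁻¹) • p) := fun p => by
    rw [a4, ← Mo.act]
  obtain ⟨Θ, t1, t2, -, t4, t5⟩ := hK' L.e L.W L.weld Ψ Φ a2 b1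
    (L.compat hN g Ψ Φ Φ0 h1 (fun p => by rw [c4, ← Mo.act]) fun p => by
      rw [b3 _ (RR_of_keeps L.k1 L.k2 (hN.1 p)), c3, map_mul, map_mul, mul_smul, mul_smul]
      rw [← L.eq]; exact hN.1 _)
  have e1 : dz (Mo.σ x1) = dz (Mo.σ ⟨g, hg⟩) := Mo.detc (C.t ^ (n : ℤ)) _ _ rfl
  have e2 : dz (L.A⁻¹ * Mo.σ x2 * L.A) = dz (Mo.σ ⟨g, hg⟩) :=
    (dz_conj _ _).trans (Mo.detc (C.t ^ (n : ℤ))⁻¹ _ _ rfl)
  simp only [dz] at e1 e2
  simp only [e1, e2] at a5 b5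
  have key : ∃ A : GC, ∀ x, Θ x = if dz (Mo.σ ⟨g, hg⟩) = 1 then A • x else A • cj x := by
    by_cases hd : dz (Mo.σ ⟨g, hg⟩) = 1
    · simp only [if_pos hd] at a5 b5 ⊢
      exact t4 (fun z hz => a5 z (Hs_ne hz)) fun z hz => b5 z (Hs_ne hz)
    · simp only [if_neg hd] at a5 b5 ⊢
      exact t5 (fun z hz => a5 z (Hs_ne hz)) fun z hz => b5 z (Hs_ne hz)
  obtain ⟨A, hA⟩ := key
  obtain ⟨B, hB, hB'⟩ := hV.2.2.2.2.2.1 A
  refine ⟨B, Θ, hB, fun x => by rw [hA, hB', hB'], L.io_smul hN h1 t1, fun x hx => ?_,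
    fun z hz => ?_⟩
  · rw [t1 x hx, a0]
  · rw [t2 z hz, b0]

/-- the vector of a cusp -/
noncomputable def Lev.v (L : Lev E C n) (p : FA.P) : Fin 2 → ℂ := vec (L.io p)

theorem Lev.pt_v (hV : St_VEC) (L : Lev E C n) (p : FA.P) : pt (L.v p) = L.io p := hV.1 _

theorem mulVec_ne (A : GC) {x : Fin 2 → ℂ} (hx : x ≠ 0) :
    (A : Matrix (Fin 2) (Fin 2) ℂ) *ᵥ x ≠ 0 := fun h => hx (by
  have := congrArg (fun y => ((A⁻¹ : GC) : Matrix (Fin 2) (Fin 2) ℂ) *ᵥ y) h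
  simp only [Matrix.mulVec_mulVec, Matrix.mulVec_zero] at this
  rwa [← Units.val_mul, inv_mul_cancel, Units.val_one, Matrix.one_mulVec] at this)

theorem Lev.v_ne (hV : St_VEC) (L : Lev E C n) (p : FA.P) : L.v p ≠ 0 := hV.2.1 _

theorem Lev.rp_iff (hV : St_VEC) (L : Lev E C n) (A : GC) (g : G) :
    NB.Rp L.v (A : Matrix (Fin 2) (Fin 2) ℂ) g ↔ ∀ p, L.io (g • p) = A • L.io p := by
  refine forall_congr' fun p => ?_
  rw [hV.2.2.1 _ _ (L.v_ne hV _) (mulVec_ne A (L.v_ne hV _)), hV.2.2.2.1 A _ (L.v_ne hV _),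
    L.pt_v hV, L.pt_v hV]

theorem Lev.rq_iff (hV : St_VEC) (L : Lev E C n) (A : GC) (g : G) :
    NB.Rq L.v (A : Matrix (Fin 2) (Fin 2) ℂ) g ↔ ∀ p, L.io (g • p) = A • cj (L.io p) := by
  refine forall_congr' fun p => ?_
  have h : star (L.v p) ≠ 0 := star_ne_zero.2 (hV.2.1 _)
  rw [hV.2.2.1 _ _ (L.v_ne hV _) (mulVec_ne A h), hV.2.2.2.1 A _ h, hV.2.2.2.2.1, L.pt_v hV,
    L.pt_v hV]

theorem neg_smul_S (A : GC) (x : S) : (-A) • x = A • x := by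
  cases x using OnePoint.rec with
  | infty => simp [smul_infty_eq_ite, neg_div_neg_eq]
  | coe z =>
    have e : ∀ a b : ℂ, -a * z + -b = -(a * z + b) := fun a b => by ring
    simp only [smul_some_eq_ite, Units.val_neg, Matrix.neg_apply, e, neg_eq_zero, neg_div_neg_eq]

theorem ker_ne {s g : G} (hg : g ∈ C.d.ker) (h1 : g ≠ 1) :
    (⟨_, conj_mem C s hg⟩ : C.d.ker) ≠ 1 := fun h => h1 (by
  have : s * g * s⁻¹ = 1 := congrArg Subtype.val h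
  simpa using this)

theorem gz_of_one {A : FA.GZ} (h : dz A = 1) (x : S) : gz A x = FA.cst ℂ A • x := if_pos h

theorem Lev.rep (hV : St_VEC) (hZ : St_GZ) (hN : St_DENSE) (hG : St_GLUE) (hF : St_FIXZ)
    (hC : St_DISC) (Mo : Mod C) (L : Lev E C n) : NB.Rep C L.v where
  inj a b h e := h (L.io_inj hN (by
    rwa [hV.2.2.1 _ _ (L.v_ne hV _) (L.v_ne hV _), L.pt_v hV, L.pt_v hV] at e))
  mob g hg := by
    obtain ⟨A, Θ, h1, h2, h3, -⟩ := exists_mob hV hZ hN hG Mo L hg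
    refine ⟨A, h1, ?_⟩
    by_cases hd : dz (Mo.σ ⟨g, hg⟩) = 1
    · exact Or.inl ((L.rp_iff hV A g).2 fun p => by rw [← h3, h2, if_pos hd])
    · exact Or.inr ((L.rq_iff hV A g).2 fun p => by rw [← h3, h2, if_neg hd])
  par a := by
    have hg := C.c_mem a
    have fa : C.c a • a = a := (C.stab a _ hg).2 (Subgroup.mem_zpowers _)
    obtain ⟨A, Θ, h1, h2, h3, h4, h5⟩ := exists_mob hV hZ hN hG Mo L hg
    have hd : dz (Mo.σ ⟨_, hg⟩) = 1 :=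
      ((hF _ Mo.σ Mo.lat ⟨_, hg⟩ fun h => C.c_ne a (congrArg Subtype.val h)).2 a
        (by rw [← Mo.act]; exact fa)).1
    simp only [if_pos hd] at h2
    have f1 := hF _ Mo.σ Mo.lat _ (ker_ne (s := C.t ^ (n : ℤ)) hg (C.c_ne a))
    have f2 := hF _ Mo.σ Mo.lat _ (ker_ne (s := (C.t ^ (n : ℤ))⁻¹) hg (C.c_ne a))
    have d1 : dz (Mo.σ ⟨_, conj_mem C (C.t ^ (n : ℤ)) hg⟩) = 1 :=
      (Mo.detc (C.t ^ (n : ℤ)) _ _ rfl).trans hd
    have d2 : dz (Mo.σ ⟨_, conj_mem C (C.t ^ (n : ℤ))⁻¹ hg⟩) = 1 :=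
      (Mo.detc (C.t ^ (n : ℤ))⁻¹ _ _ rfl).trans hd
    have fix : ∀ x : S, A • x = x → x = L.io a := by
      intro x hx
      obtain ⟨y, rfl⟩ := (ext L.W).surjective x
      rcases tri' y with r | ⟨z, hz, rfl⟩ | ⟨z, hz, rfl⟩
      · rw [← h2, h4 _ (Or.inl r), gz_of_one d1] at hx
        rw [(f1.2 ((C.t ^ (n : ℤ)) • a) (by
          rw [← Mo.act]; simp [mul_smul, fa])).2 y r ((ext L.W).injective hx), Lev.io]
      · exfalso
        obtain ⟨e1, e2⟩ := L.k1.fn hz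
        have e3 : (z : S) = (ext L.e).symm (fn (ext L.e) z : ℂ) := by rw [← e1]; simp
        rw [e3, ← h2, h5 _ e2, gz_mul', gz_mul'] at hx
        have hx' := congrArg (gz L.A) ((ext L.e).symm.injective ((ext L.W).injective hx))
        rw [← gz_mul', mul_inv_cancel, gz_one', gz_of_one d2] at hx'
        obtain ⟨P, p0, p1, -⟩ := hZ L.A
        obtain ⟨e4, e5⟩ := p1.1.fn e2
        rw [← p0, e4] at hx'
        exact f2.1 d2 _ (Hs_ne e5) hx'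
      · exfalso
        rw [← h2, h4 _ (Or.inr ⟨z, hz, rfl⟩), gz_of_one d1] at hx
        exact f1.1 d1 _ (Hs_ne hz) ((ext L.W).injective hx)
    have rp : ∀ p, L.io (C.c a • p) = A • L.io p := fun p => by rw [← h3, h2]
    rcases hV.2.2.2.2.2.2.1 A _ h1 fix with tr | tr
    · exact ⟨A, h1, tr, (L.rp_iff hV A _).2 rp⟩
    · refine ⟨((-A : GC) : Matrix (Fin 2) (Fin 2) ℂ), by simp [Matrix.det_neg, h1], by simp [tr],
        (L.rp_iff hV (-A) _).2 fun p => by rw [neg_smul_S, rp]⟩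
  disc := by
    obtain ⟨ε, hε, h⟩ := hC (ext L.W)
    refine ⟨ε, hε, fun g hg A hA rp hn => ?_⟩
    set A' : GC := Matrix.GeneralLinearGroup.mkOfDetNeZero A (by rw [hA]; exact one_ne_zero)
    have rp' := (L.rp_iff hV A' g).1 rp
    by_contra h1
    refine ker_ne (s := C.t ^ (n : ℤ)) hg h1 (Mo.lat.inj _ (h A' _ hn fun p => ?_))
    have := rp' ((C.t ^ (n : ℤ))⁻¹ • p)
    rw [Lev.io, Lev.io, smul_inv_smul] at this
    rw [← this, ← Mo.act]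
    simp [mul_smul]

/-- the bound for one end -/
theorem end_gen (hZ : St_GZ) (hE : St_END) (B : FA.GZ) (hB : dz B = 1)
    (hf : ∀ z : ℂ, z.im ≠ 0 → FA.cst ℂ B • (z : S) ≠ (z : S)) :
    ∃ M : ℝ, ∀ (V : ℂ → ℂ) (A : GC), (DifferentiableOn ℂ V (Hs 1) ∨
      DifferentiableOn ℂ (fun z => conj (V z)) (Hs 1)) → InjOn V (Hs 1) →
      (A : Matrix (Fin 2) (Fin 2) ℂ).det = 1 →
      (∀ z ∈ Hs 1, A • ((V z : ℂ) : S) = (V (fn (gz B) z) : ℂ)) →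
      ‖(A : Matrix (Fin 2) (Fin 2) ℂ).trace‖ ≤ M := by
  obtain ⟨P, p0, p1, -⟩ := hZ B
  have eP : (P : S → S) = gz B := funext p0
  have kB : Keeps 1 (gz B) := eP ▸ p1.1
  have hI : Complex.I ∈ Hs 1 := by simp [Hs]
  obtain ⟨M, hM⟩ := hE Complex.I (fn (gz B) Complex.I) hI (kB.fn hI).2
  have nf : ∀ (V : ℂ → ℂ), InjOn V (Hs 1) → ∀ z ∈ Hs 1, V (fn (gz B) z) ≠ V z := by
    intro V hi z hz e
    refine hf z (Hs_ne hz) ?_
    rw [← gz_of_one hB, (kB.fn hz).1, hi (kB.fn hz).2 hz e]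
  refine ⟨M, fun V A hV hi hA h => ?_⟩
  rcases hV with hV | hV
  · exact hM V A hV hi hA (h _ hI) fun z hz e => nf V hi z hz (by
      rw [h z hz] at e; exact OnePoint.coe_eq_coe.1 e)
  · have hi' : InjOn (fun z => conj (V z)) (Hs 1) := fun a ha b hb e =>
      hi ha hb ((starRingEnd ℂ).injective e)
    have h' : ∀ z ∈ Hs 1, Matrix.GeneralLinearGroup.map (starRingEnd ℂ) A • ((conj (V z) : ℂ) : S) =
        (conj (V (fn (gz B) z)) : ℂ) := fun z hz => by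
      rw [← cj_coe', ← cj_smul', h z hz, cj_coe']
    have := hM _ (Matrix.GeneralLinearGroup.map (starRingEnd ℂ) A) hV hi' (by
      have : ((Matrix.GeneralLinearGroup.map (starRingEnd ℂ) A : GC) : Matrix (Fin 2) (Fin 2) ℂ) =
        (starRingEnd ℂ).mapMatrix (A : Matrix (Fin 2) (Fin 2) ℂ) := rfl
      rw [this, ← RingHom.map_det, hA, map_one]) (h' _ hI) fun z hz e => nf _ hi' z hz (by
      rw [h' z hz] at e; exact OnePoint.coe_eq_coe.1 e)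
    have e : ((Matrix.GeneralLinearGroup.map (starRingEnd ℂ) A : GC) :
        Matrix (Fin 2) (Fin 2) ℂ).trace = conj (A : Matrix (Fin 2) (Fin 2) ℂ).trace := by
      simp [Matrix.trace_fin_two]
    rwa [e, Complex.norm_conj] at this

theorem tr_sq (hV : St_VEC) (hN : St_DENSE) (L : Lev E C n) {A : Matrix (Fin 2) (Fin 2) ℂ}
    (hA : A.det = 1) {g : G} (rp : NB.Rp L.v A g) {B : GC}
    (hB : (B : Matrix (Fin 2) (Fin 2) ℂ).det = 1) (h : ∀ p, B • L.io p = L.io ((g * g) • p)) {M : ℝ}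
    (hM : ‖(B : Matrix (Fin 2) (Fin 2) ℂ).trace‖ ≤ M) : ‖A.trace‖ ≤ M + 3 := by
  set A' : GC := Matrix.GeneralLinearGroup.mkOfDetNeZero A (by rw [hA]; exact one_ne_zero)
  have rp' := (L.rp_iff hV A' g).1 rp
  have eA : (A' : Matrix (Fin 2) (Fin 2) ℂ) = A := rfl
  have e : ∀ p, (A' * A') • L.io p = B • L.io p := fun p => by
    rw [h, mul_smul, mul_smul, rp', rp']
  have i := L.io_inj hN
  have t2 : A.trace ^ 2 = (A * A).trace + 2 := by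
    rw [Matrix.det_fin_two] at hA
    simp only [Matrix.trace_fin_two, Matrix.mul_apply, Fin.sum_univ_two]
    linear_combination 2 * hA
  have t3 : ‖(A * A).trace‖ ≤ M := by
    rcases hV.2.2.2.2.2.2.2.1 (A' * A') B _ _ _ (by simp [eA, hA]) hB (i.ne three.1)
      (i.ne three.2.1) (i.ne three.2.2) (e _) (e _) (e _) with k | k
    · rwa [← k] at hM
    · have : A * A = -(B : Matrix (Fin 2) (Fin 2) ℂ) := congrArg Units.val k
      rwa [this, Matrix.trace_neg, norm_neg]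
  have t4 : ‖A.trace‖ ^ 2 ≤ M + 2 := by
    rw [← norm_pow, t2]
    exact (norm_add_le _ _).trans (by simpa using t3)
  nlinarith [norm_nonneg A.trace]

theorem end_bd (hV : St_VEC) (hZ : St_GZ) (hN : St_DENSE) (hG : St_GLUE) (hF : St_FIXZ)
    (hE : St_END) (Mo : Mod C) (E : EI) {g : G} (hg : g ∈ C.d.ker) :
    ∃ M : ℝ, ∀ (n : ℕ) (L : Lev E C n) (A : Matrix (Fin 2) (Fin 2) ℂ), A.det = 1 →
      (NB.Rp L.v A (C.t ^ (n : ℤ) * g * (C.t ^ (n : ℤ))⁻¹) ∨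
        NB.Rp L.v A (C.t ^ (-(n : ℤ)) * g * (C.t ^ (-(n : ℤ)))⁻¹)) → ‖A.trace‖ ≤ M := by
  have hx : g * g ∈ C.d.ker := mul_mem hg hg
  by_cases h1 : g * g = 1
  · refine ⟨2 + 3, fun n L A hA h => ?_⟩
    have k : ∀ s : G, s * g * s⁻¹ * (s * g * s⁻¹) = 1 := fun s => by
      rw [show s * g * s⁻¹ * (s * g * s⁻¹) = s * (g * g) * s⁻¹ by group, h1]; simp
    rcases h with h | h <;>
      exact tr_sq hV hN L hA h (B := 1) (by simp) (fun p => by rw [k]; simp) (by simp)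
  have dx : dz (Mo.σ ⟨_, hx⟩) = 1 := by
    have : (⟨_, hx⟩ : C.d.ker) = ⟨g, hg⟩ * ⟨g, hg⟩ := rfl
    rw [this, map_mul, dz_mul]
    rcases dz_cases (Mo.σ ⟨g, hg⟩) with e | e <;> rw [e] <;> rfl
  obtain ⟨M, hM⟩ := end_gen hZ hE _ dx
    ((hF _ Mo.σ Mo.lat ⟨_, hx⟩ fun h => h1 (congrArg Subtype.val h)).1 dx)
  refine ⟨M + 3, fun n L A hA h => ?_⟩
  have main : ∀ s : G, ∃ (B : GC), (B : Matrix (Fin 2) (Fin 2) ℂ).det = 1 ∧
      (∀ p, B • L.io p = L.io ((s * g * s⁻¹ * (s * g * s⁻¹)) • p)) ∧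
      (C.t ^ (n : ℤ) * s = 1 → ∀ z ∈ Hs (-1),
        B • ext L.W z = ext L.W (gz (Mo.σ ⟨_, hx⟩) z)) ∧
      ((C.t ^ (n : ℤ))⁻¹ * s = 1 → ∀ z ∈ Hs 1, B • (ext L.W ((ext L.e).symm (z : S))) =
        ext L.W ((ext L.e).symm (gz (L.A⁻¹ * Mo.σ ⟨_, hx⟩ * L.A) z))) := by
    intro s
    obtain ⟨B, Θ, b1, b2, b3, b4, b5⟩ := exists_mob hV hZ hN hG Mo L (conj_mem C s hx)
    have hd : dz (Mo.σ ⟨_, conj_mem C s hx⟩) = 1 := (Mo.detc s ⟨_, hx⟩ _ rfl).trans dx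
    simp only [if_pos hd] at b2
    have k : ∀ u : G, u * s = 1 →
        (⟨_, conj_mem C u (conj_mem C s hx)⟩ : C.d.ker) = ⟨_, hx⟩ := fun u hu =>
      Subtype.ext (by
        show u * (s * (g * g) * s⁻¹) * u⁻¹ = g * g
        rw [eq_inv_of_mul_eq_one_left hu]; group)
    refine ⟨B, b1, fun p => by rw [← b2, b3]; congr 2; group, fun hs z hz => ?_,
      fun hs z hz => ?_⟩
    · rw [← b2, b4 _ (Or.inr ⟨z, hz, rfl⟩), k _ hs]
    · rw [← b2, b5 z hz, k _ hs]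
  obtain ⟨P, p0, p1, -⟩ := hZ (Mo.σ ⟨_, hx⟩)
  have kP : Keeps 1 (gz (Mo.σ ⟨_, hx⟩)) := (funext p0 : (P : S → S) = _) ▸ p1.1
  rcases h with h | h
  · obtain ⟨B, b1, b2, -, b4⟩ := main (C.t ^ (n : ℤ))
    refine tr_sq hV hN L hA h b1 b2 ?_
    obtain ⟨Q, q0, q1, -, -, -, q5⟩ := hZ L.A⁻¹
    have mp : MapsTo (fn Q) (Hs 1) (Hs 1) := fun z hz => (q1.1.fn hz).2
    refine hM (fun z => L.W (L.e.symm (fn Q z))) B ?_ (fun a ha b hb e => ?_) b1 fun z hz => ?_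
    · by_cases hd : dz L.A⁻¹ = 1
      · simp only [if_pos hd] at q5
        exact Or.inl (L.weld.up.comp (fun z hz => (q5 z (Hs_ne hz)).differentiableWithinAt) mp)
      · simp only [if_neg hd] at q5
        refine Or.inr fun z hz => ?_
        have u := (L.weld.up.differentiableAt ((isOpen_Hs 1).mem_nhds (mp hz))).conj_conj
        simpa [Function.comp_def] using (u.comp z (q5 z (Hs_ne hz))).differentiableWithinAt
    · have e' := L.e.symm.injective (L.W.injective e)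
      refine OnePoint.coe_eq_coe.1 (Q.injective ?_)
      rw [(q1.1.fn ha).1, (q1.1.fn hb).1, e']
    · have := b4 (by simp) _ (mp hz)
      rw [← (q1.1.fn hz).1, q0, ← gz_mul', mul_inv_cancel_right, gz_mul', (kP.fn hz).1, ← q0, ← q0,
        (q1.1.fn hz).1, (q1.1.fn (kP.fn hz).2).1] at this
      exact this
  · obtain ⟨B, b1, b2, b3, -⟩ := main (C.t ^ (-(n : ℤ)))
    refine tr_sq hV hN L hA h b1 b2 ?_
    have mc : ∀ z ∈ Hs 1, conj z ∈ Hs (-1) := fun z hz => by simpa [Hs] using hz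
    refine hM (fun z => L.W (conj z)) B (Or.inr fun z hz => ?_) (fun a _ b _ e =>
      (starRingEnd ℂ).injective (L.W.injective e)) b1 fun z hz => ?_
    · have u := (L.weld.lo.differentiableAt ((isOpen_Hs _).mem_nhds (mc z hz))).conj_conj
      simpa [Function.comp_def] using u.differentiableWithinAt
    · have := b3 (by simp) _ (mc z hz)
      rw [gz_of_one dx, ← cj_coe', ← cj_cst, ← gz_of_one dx, (kP.fn hz).1] at this
      exact this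

end

theorem stAN (hV : St_VEC) (hD : St_DIST) (hZ : St_GZ) (hN : St_DENSE) (hF : St_FIXZ)
    (hC : St_DISC) (hW : St_WELD) (hG : St_GLUE) (hE : St_END) (hQ : St_QM) : St_AN := by
  rintro E G _ _ C ⟨Mo⟩
  obtain ⟨K, hK⟩ := exists_theta hD hZ hN hG Mo E
  obtain ⟨L₀, B₀, hq⟩ := hQ E K
  have L : ∀ n, Lev E C n := fun n => (exists_lev hW E Mo n).some
  have R := fun n => (L n).rep hV hZ hN hG hF hC Mo
  have nz : ∀ n p, (L n).v p ≠ 0 := fun n p => hV.2.1 _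
  refine ⟨fun n => (L n).v, K, L₀, B₀, R, nz, fun n a b c e h => ?_, fun g hg => ?_,
    fun n g N M a h1 h2 => ?_⟩
  · obtain ⟨Θ, t1, t2⟩ := hK n (L n)
    constructor
    · exact (hq FA.P Θ (L n).v (fun p => (L n).v (C.t • p)) t1 (nz n) (fun p => nz n _)
        (fun p => by rw [Lev.pt_v hV, Lev.pt_v hV, t2]) (R n).inj a b c e h).1
    · exact (hq FA.P Θ (fun p => (L n).v (C.t⁻¹ • p)) (L n).v t1 (fun p => nz n _) (nz n)
        (fun p => by rw [Lev.pt_v hV, Lev.pt_v hV, t2, smul_inv_smul])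
        (fun a b hab => (R n).inj _ _ ((MulAction.injective _).ne hab)) a b c e h).2
  · obtain ⟨M, hM⟩ := end_bd hV hZ hN hG hF hE Mo E hg
    exact ⟨M, fun n => hM n (L n)⟩
  · obtain ⟨Θ, t1, t2⟩ := hK n (L n)
    have hg : g * C.t * g⁻¹ * C.t⁻¹ ∈ C.d.ker := by
      rw [MonoidHom.mem_ker]; simp
    obtain ⟨A, Θ', -, a2, a3, -⟩ := exists_mob hV hZ hN hG Mo (L n) hg
    have k : ∀ p, (L n).io (g • C.t • p) = Θ' (Θ ((L n).io (g • p))) := fun p => by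
      rw [t2, a3]; simp [mul_smul]
    simp only [Lev.pt_v hV] at h1 h2 ⊢
    have h1' : (L n).io (g • a) = N⁻¹ • (∞ : S) := by rw [← h1, inv_smul_smul]
    by_cases hd : dz (Mo.σ ⟨_, hg⟩) = 1
    · simp only [if_pos hd] at a2
      obtain ⟨h, q1, q2⟩ := t1 N⁻¹ (M * A) (by rw [← h1', mul_smul, ← a2, ← k, h2])
      exact ⟨h, q1, fun p => by rw [← q2, inv_smul_smul, mul_smul, ← a2, ← k]⟩
    · simp only [if_neg hd] at a2
      obtain ⟨B, hB⟩ := hV.2.2.2.2.2.2.2.2.2 (M * A)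
      have k2 : ∀ p, cj (M • (L n).io (g • C.t • p)) = B • Θ ((L n).io (g • p)) := fun p => by
        rw [k, a2, ← mul_smul, hB, cj_cj']
      obtain ⟨h, q1, q2⟩ := t1 N⁻¹ B (by rw [← h1', ← k2, h2, cj_inf'])
      refine ⟨h.trans cjc, E.cnj _ _ q1, fun p => ?_⟩
      rw [ext_trans', ← q2, inv_smul_smul, ← k2]
      exact (cj_cj' _).symm

end Pool.Agent.Lib.THU.AN
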